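import Mathlib

/-! Project CD (helper276): Selberg's central limit theorem for `log |ζ(1/2+it)|` in almost the whole
Cramer range. Statements of the lemma jobs; only Mathlib notions. -/

set_option autoImplicit false

namespace Pool.Agent.Q276.CD

open MeasureTheory Filter

/-- `log log T` -/
noncomputable def V (T : ℝ) : ℝ := Real.log (Real.log T)

/-- `log log log T` -/
noncomputable def l3 (T : ℝ) : ℝ := Real.log (V T)

/-- the distribution function of the standard normal law -/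
noncomputable def Phi (x : ℝ) : ℝ := (ProbabilityTheory.gaussianReal 0 1).real (Set.Iic x)

/-- `∑_{p < N} p^{-1/2-it}` -/
noncomputable def PS (N : ℕ) (t : ℝ) : ℂ := ∑ p ∈ Nat.primesBelow N, (p : ℂ) ^ (-(1 / 2 + (t : ℂ) * Complex.I))

/-- the end of the first block of primes, `T ^ (1 / V^4)` -/
noncomputable def y0 (T : ℝ) : ℕ := ⌊Real.exp (Real.log T / V T ^ 4)⌋₊ + 1

/-- JOB REM: the Remez inequality for bounded analytic functions. -/
def P_REM : Prop := ∃ C : ℝ, 1 ≤ C ∧ ∀ (f : ℂ → ℂ) (B η e : ℝ) (E : Set ℝ) (n : ℕ),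
  DifferentiableOn ℂ f (Metric.ball 0 9) → (∀ z : ℂ, ‖z‖ ≤ 8 → ‖f z‖ ≤ B) → 0 < e →
  MeasurableSet E → E ⊆ Set.Icc (-1) 1 → ENNReal.ofReal e ≤ volume E →
  (∀ x ∈ E, ‖f (x : ℂ)‖ ≤ η) → ∀ z : ℂ, ‖z‖ ≤ 1 →
  ‖f z‖ ≤ B * (1 / 2) ^ n + (C / e) ^ (n + 1) * η

/-- JOB LAW: moderate deviations of the real part of the prime sum. -/
def P_LAW : Prop := ∀ ε : ℝ, 0 < ε → ∃ η : ℝ, 0 < η ∧ ∀ᶠ T : ℝ in atTop, ∀ x r : ℝ, 0 ≤ x →
  x ≤ √(V T) / l3 T → |r - x * √(V T / 2)| ≤ η * √(V T) / (x + 1) →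
  |volume.real {t : ℝ | t ∈ Set.Icc T (2 * T) ∧ r < (PS (y0 T) t).re} - T * (1 - Phi x)| ≤
    ε * (T * (1 - Phi x))

end Pool.Agent.Q276.CD
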