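import Pool.Agent.Q276.CD.Fin2a

set_option autoImplicit false

/-! The assembly (qualitative form). -/

namespace Pool.Agent.Q276.CD

open Finset Filter MeasureTheory

/-- the theorem, from the lemma jobs -/
theorem final (hLAW : P_LAW) (hM2 : P_M2) (hM7 : P_M7) (hL : P_LOCF) (hE : P_EXPO) (hTI : P_TINY) :
    ∀ ε : ℝ, 0 < ε → ∀ᶠ T : ℝ in atTop, ∀ x : ℝ, 0 ≤ x → x ≤ √(V T) / l3 T ^ 6 →
      |volume.real {t : ℝ | t ∈ Set.Icc T (2 * T) ∧ x * √(V T / 2) < Real.log ‖riemannZeta (cl t)‖} -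
        T * (1 - Phi x)| ≤ ε * (T * (1 - Phi x)) := by
  intro ε hε
  obtain ⟨η, hη, hlaw⟩ := hLAW (ε / 2) (by positivity)
  obtain ⟨C2, hC2, hm2⟩ := hM2
  obtain ⟨C7, hC7, hm7⟩ := hM7
  obtain ⟨CL, hCL, hlocf⟩ := hL
  obtain ⟨c, hc, hphi⟩ := Phi_tail
  have hlog := Real.tendsto_log_atTop
  have hVt : Tendsto V atTop atTop := hlog.comp hlog
  have hlt : Tendsto l3 atTop atTop := hlog.comp hVt
  have ev1 : ∀ᶠ T : ℝ in atTop, l3 T ^ 6 ≤ √(V T) := by
    have a1 := (Real.isLittleO_pow_log_id_atTop (n := 12)).def (show (0:ℝ) < 1 by norm_num)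
    filter_upwards [hVt.eventually a1, hVt.eventually_ge_atTop 1] with T h2 h3
    simp only [id, Real.norm_eq_abs, one_mul] at h2
    rw [abs_of_pos (show 0 < V T by linarith)] at h2
    refine Real.le_sqrt_of_sq_le ?_
    calc (l3 T ^ 6) ^ 2 = (Real.log (V T)) ^ 12 := by unfold l3; ring
      _ ≤ |Real.log (V T) ^ 12| := le_abs_self _
      _ ≤ V T := h2
  set D : ℝ := max C2 C7 + 2 with hD
  have hD0 : 0 < D := by have := le_max_left C2 C7; linarith
  filter_upwards [hlaw, hm2, hm7, hlocf, hTI, y_size, ev1, hlt.eventually_ge_atTop 2,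
    hlt.eventually_ge_atTop (4 * CL / η), hlt.eventually_ge_atTop (2 * D / η),
    hVt.eventually_ge_atTop (2 / c * (18 + 8 * CL) / ε), hVt.eventually_ge_atTop 1, eventually_ge_atTop 1]
    with T t1 t2 t3 t4 t5 t6 t7 t8 t9 t10 t11 t12 t13
  intro x hx0 hx
  set v := V T with hv
  set l := l3 T with hl
  set sv := √v with hsv
  have hv0 : 0 < v := by linarith
  have hsv0 : 0 < sv := Real.sqrt_pos.mpr hv0
  have hsv2 : sv ^ 2 = v := Real.sq_sqrt hv0.le
  have hl0 : 0 < l := by linarith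
  have hlv : Real.exp l = v := by rw [hl]; unfold l3; exact Real.exp_log hv0
  have hl6 : (64:ℝ) ≤ l ^ 6 := by
    calc (64:ℝ) = 2 ^ 6 := by norm_num
      _ ≤ l ^ 6 := pow_le_pow_left₀ (by norm_num) t8 6
  have hx1 : x + 1 ≤ 2 * sv / l ^ 6 := by
    have : 1 ≤ sv / l ^ 6 := by rw [le_div_iff₀ (by positivity)]; linarith
    have e : 2 * sv / l ^ 6 = sv / l ^ 6 + sv / l ^ 6 := by ring
    linarith
  have hx10 : 0 < x + 1 := by linarith
  have hxsv : x ≤ sv / 64 := by
    refine hx.trans ?_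
    exact div_le_div_of_nonneg_left hsv0.le (by norm_num) hl6
  have hx2v : x ^ 2 ≤ v := by
    rw [← hsv2]
    exact pow_le_pow_left₀ hx0 (by linarith) 2
  have hxsv2 : x + 1 ≤ 2 * sv := by
    refine hx1.trans ?_
    exact div_le_self (by positivity) (by linarith)
  -- the shift
  set w := η * sv / (x + 1) with hw
  have hw0 : 0 < w := by positivity
  have hw6 : η / 2 * l ^ 6 ≤ w := by
    rw [hw, le_div_iff₀ hx10]
    calc η / 2 * l ^ 6 * (x + 1) ≤ η / 2 * l ^ 6 * (2 * sv / l ^ 6) := mul_le_mul_of_nonneg_left hx1 (by positivity)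
      _ = η * sv := by field_simp
  have hl5 : 1 ≤ l ^ 5 := one_le_pow₀ (by linarith)
  have hwL : CL * l ^ 5 ≤ w / 2 := by
    rw [div_le_iff₀ hη] at t9
    have h1 : l ^ 6 = l * l ^ 5 := by ring
    have h2 : 4 * CL * l ^ 5 ≤ l * η * l ^ 5 := mul_le_mul_of_nonneg_right t9 (by positivity)
    nlinarith
  have hwD : D * l ≤ w := by
    rw [div_le_iff₀ hη] at t10
    have h1 : l * l ≤ l ^ 6 := by
      have : l ^ 6 = l * l * l ^ 4 := by ring
      rw [this]
      exact le_mul_of_one_le_right (by positivity) (one_le_pow₀ (by linarith))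
    have h2 : 2 * D * l ≤ l * η * l := mul_le_mul_of_nonneg_right t10 hl0.le
    nlinarith
  -- the parameters
  set s2 := √(2 * v) with hs2
  have hs20 : 0 < s2 := Real.sqrt_pos.mpr (by linarith)
  have hs22 : s2 ^ 2 = 2 * v := Real.sq_sqrt (by linarith)
  have hsq : √(v / 2) = s2 / 2 := by
    rw [show v / 2 = (s2 / 2) ^ 2 by rw [div_pow, hs22]; ring]
    exact Real.sqrt_sq (by positivity)
  set k := x / s2 with hk
  set r := x * √(v / 2) with hr
  have hk0 : 0 ≤ k := by positivity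
  have hr0 : 0 ≤ r := by positivity
  have hkr : 2 * k * r = x ^ 2 := by
    rw [hk, hr, hsq]; field_simp
  have hkv : k ^ 2 * v = x ^ 2 / 2 := by
    rw [hk, div_pow, hs22]; field_simp
  have hkh : k ≤ 1 / 2 := by
    rw [hk, div_le_iff₀ hs20]
    have : sv ≤ s2 := Real.sqrt_le_sqrt (by linarith)
    linarith
  have hk1 : k ≤ 1 := by linarith
  -- the tail
  set g := T * (1 - Phi x) with hg
  set e0 := Real.exp (-(x ^ 2 / 2)) with he0
  have he00 : 0 < e0 := Real.exp_pos _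
  have hT0 : 0 < T := by linarith
  have hg1 : T * v ^ (-(2:ℝ)) * e0 ≤ 2 / (c * v) * g := by
    have h1 := hphi x hx0
    have h2 : T * (c * e0 / (1 + x)) ≤ g := mul_le_mul_of_nonneg_left h1 hT0.le
    have h3 : v ^ (-(2:ℝ)) = 1 / v ^ 2 := by
      rw [Real.rpow_neg hv0.le, one_div]; norm_num
    have h4 : c * e0 / (2 * sv) ≤ c * e0 / (1 + x) :=
      div_le_div_of_nonneg_left (by positivity) (by linarith) (by linarith)
    have h5 : T * (c * e0 / (2 * sv)) ≤ g := (mul_le_mul_of_nonneg_left h4 hT0.le).trans h2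
    have h6 : sv ≤ v := by
      rw [← hsv2]
      have : 1 ≤ sv := by
        rw [hsv]; exact Real.one_le_sqrt.mpr t12
      nlinarith
    rw [h3]
    have h7 : T * (1 / v ^ 2) * e0 ≤ 2 / (c * v) * (T * (c * e0 / (2 * sv))) := by
      have e1 : 2 / (c * v) * (T * (c * e0 / (2 * sv))) = T * e0 * (1 / (v * sv)) := by field_simp
      rw [e1]
      have : 1 / v ^ 2 ≤ 1 / (v * sv) := one_div_le_one_div_of_le (by positivity) (by rw [sq]; exact mul_le_mul_of_nonneg_left h6 hv0.le)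
      calc T * (1 / v ^ 2) * e0 = T * e0 * (1 / v ^ 2) := by ring
        _ ≤ _ := mul_le_mul_of_nonneg_left this (by positivity)
    exact h7.trans (mul_le_mul_of_nonneg_left h5 (by positivity))
  have hg0 : 0 ≤ g := by
    have h1 := hphi x hx0
    have : 0 ≤ 1 - Phi x := le_trans (by positivity) h1
    positivity
  set δ := 2 / (c * v) with hδ
  have hδε : (18 + 8 * CL) * δ ≤ ε := by
    rw [hδ]
    rw [div_le_iff₀ hε] at t11
    rw [mul_div_assoc', div_le_iff₀ (by positivity)]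
    have e : 2 / c * (18 + 8 * CL) = (18 + 8 * CL) * 2 / c := by ring
    rw [e, div_le_iff₀ hc] at t11
    nlinarith
  -- the exceptional sets
  set E3 : Set ℝ := {t : ℝ | t ∈ Set.Icc (T / 2) (4 * T) ∧ v ^ 2 / 40 < ‖PS (y0 T) t‖} with hE3
  have b3 : volume.real E3 ≤ T * v ^ (-(2:ℝ)) * e0 := by
    refine t5.trans ?_
    have h3 : v ^ (-(2:ℝ)) = Real.exp (-(2 * l)) := by
      rw [Real.rpow_def_of_pos hv0]; congr 1
      rw [hl]; unfold l3; ring
    rw [h3, he0, mul_assoc, ← Real.exp_add]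
    refine mul_le_mul_of_nonneg_left (Real.exp_le_exp.mpr ?_) hT0.le
    have h4 : l ≤ v := by
      have := Real.add_one_le_exp l
      rw [hlv] at this
      linarith
    have h5 : v ≤ v ^ 2 := by nlinarith
    have h6 : (4:ℝ) ≤ v := by
      have := Real.add_one_le_exp l
      rw [← hlv]
      have h7 : Real.exp 2 ≤ Real.exp l := Real.exp_le_exp.mpr t8
      have h8 : (4:ℝ) ≤ Real.exp 2 := by
        have := Real.exp_one_gt_d9
        have e : Real.exp 2 = Real.exp 1 * Real.exp 1 := by rw [← Real.exp_add]; norm_num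
        rw [e]; nlinarith
      linarith
    change -(2 * v ^ 2) ≤ -(2 * l) + -(x ^ 2 / 2)
    nlinarith
  have hd0 : v ^ 2 / 40 ≤ (d0 T : ℝ) / 40 := by
    have : v ^ 2 ≤ (d0 T : ℝ) := Nat.le_ceil _
    linarith
  set a4 := 1 / 4 * Real.exp (2 * k * r + w) with ha4
  have ha40 : 0 < a4 := by positivity
  have hrp : ∀ C : ℝ, C ≤ D - 2 → T * v ^ C * Real.exp (k ^ 2 * v) / a4 ≤ 4 * (T * v ^ (-(2:ℝ)) * e0) := by
    intro C hC
    rw [div_le_iff₀ ha40, ha4, hkr, hkv, he0]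
    have e1 : 4 * (T * v ^ (-(2:ℝ)) * Real.exp (-(x ^ 2 / 2))) * (1 / 4 * Real.exp (x ^ 2 + w)) =
        T * Real.exp (-(2 * l) - x ^ 2 / 2 + (x ^ 2 + w)) := by
      have h3 : v ^ (-(2:ℝ)) = Real.exp (-(2 * l)) := by
        rw [Real.rpow_def_of_pos hv0]; congr 1
        rw [hl]; unfold l3; ring
      rw [h3, Real.exp_add (-(2 * l) - x ^ 2 / 2), sub_eq_add_neg, Real.exp_add (-(2 * l))]
      ring
    have e2 : T * v ^ C * Real.exp (x ^ 2 / 2) = T * Real.exp (C * l + x ^ 2 / 2) := by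
      have h3 : v ^ C = Real.exp (C * l) := by
        rw [Real.rpow_def_of_pos hv0]; congr 1
        rw [hl]; unfold l3; ring
      rw [h3, Real.exp_add]
      ring
    rw [e1, e2]
    refine mul_le_mul_of_nonneg_left (Real.exp_le_exp.mpr ?_) hT0.le
    have : C * l ≤ (D - 2) * l := mul_le_mul_of_nonneg_right hC hl0.le
    nlinarith
  have hI : ∀ S : Set ℝ, S ⊆ Set.Icc T (2 * T) → S ⊆ Set.Icc (T / 4) (8 * T) := fun S hS t ht => by
    have := hS ht
    exact ⟨by linarith [this.1], by linarith [this.2]⟩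
  set E4 : Set ℝ := {t : ℝ | t ∈ Set.Icc T (2 * T) ∧ a4 ≤ ‖riemannZeta (cl t)‖ ^ 2 *
    ‖Dr (aI (k - 1) (y0 T) (d0 T)) (y2 T) (cl t)‖ ^ 2} with hE4
  have b4 : volume.real E4 ≤ 4 * (T * v ^ (-(2:ℝ)) * e0) := by
    refine (markov_int ((zeta_cont.norm.pow 2).mul ((Dr_cont' _ _).norm.pow 2))
      (fun t => mul_nonneg (sq_nonneg _) (sq_nonneg _)) ha40
      (by linarith) (hI E4 fun t ht => ht.1) (fun t ht => ht.2) (t3 k hk0 hk1)).trans (hrp C7 ?_)
    rw [hD]; have := le_max_right C2 C7; linarith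
  set E6 : Set ℝ := {t : ℝ | t ∈ Set.Icc T (2 * T) ∧ a4 ≤
    ‖Dr (aI (k + 1) (y0 T) (d0 T)) (y2 T) (cl t) * MM T (cl t)‖ ^ 2} with hE6
  have b6 : volume.real E6 ≤ 4 * (T * v ^ (-(2:ℝ)) * e0) := by
    refine (markov_int (((Dr_cont' _ _).mul (Dr_cont' _ _)).norm.pow 2) (fun t => sq_nonneg _) ha40
      (by linarith) (hI E6 fun t ht => ht.1) (fun t ht => ht.2) (t2 k hk0 hk1)).trans (hrp C2 ?_)
    rw [hD]; have := le_max_left C2 C7; linarith
  set W : Set ℝ := {t : ℝ | t ∈ Set.Icc T (2 * T) ∧ ‖riemannZeta (cl t) * MM T (cl t)‖ ≤ Real.exp (-(w / 2))} with hW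
  have hWm : MeasurableSet W := by
    have h1 : MeasurableSet {t : ℝ | ‖riemannZeta (cl t) * MM T (cl t)‖ ≤ Real.exp (-(w / 2))} :=
      measurableSet_le ((zeta_cont.mul (Dr_cont' _ _)).norm.measurable) measurable_const
    exact measurableSet_Icc.inter h1
  set E5 : Set ℝ := {t : ℝ | t ∈ W ∧ 1 / 4 * Real.exp (2 * k * r) ≤ ‖AA k T (cl t)‖ ^ 2} with hE5
  have b5 : volume.real E5 ≤ 4 * CL * (T * v ^ (-(2:ℝ)) * e0) := by
    have h1 := markov_set ((Dr_cont' (aI k (y0 T) (d0 T)) (y2 T)).norm.pow 2) (fun t => sq_nonneg _)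
      (show 0 < 1 / 4 * Real.exp (2 * k * r) by positivity) hWm (fun t ht => ht.1 : W ⊆ Set.Icc T (2 * T))
      (fun t ht => ht.1 : E5 ⊆ W) (fun t ht => ht.2)
    refine h1.trans ?_
    have h2 := t4 k hk0 hk1 (w / 2) hwL
    rw [div_le_iff₀ (by positivity)]
    refine h2.trans (le_of_eq ?_)
    rw [hkr, hkv, he0]
    have : Real.exp (x ^ 2 / 2) = Real.exp (-(x ^ 2 / 2)) * Real.exp (x ^ 2) := by
      rw [← Real.exp_add]; congr 1; ring
    rw [this]; ring
  -- finiteness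
  have fin : ∀ S : Set ℝ, S ⊆ Set.Icc (T / 4) (8 * T) → volume S ≠ ⊤ := fun S hS => by
    have := measure_mono (μ := volume) hS
    rw [Real.volume_Icc] at this
    exact (this.trans_lt ENNReal.ofReal_lt_top).ne
  have hE3s : E3 ⊆ Set.Icc (T / 4) (8 * T) := fun t ht => ⟨by linarith [ht.1.1], by linarith [ht.1.2]⟩
  set E1 : Set ℝ := {t : ℝ | t ∈ Set.Icc T (2 * T) ∧ r < Real.log ‖riemannZeta (cl t)‖} with hE1
  -- the upper bound
  have hxl : x ≤ √(V T) / l3 T := by
    refine hx.trans ?_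
    exact div_le_div_of_nonneg_left hsv0.le hl0 (le_self_pow₀ (by linarith) (by norm_num))
  have u1 := t1 x (r - w) hx0 hxl (by
    have : r - w - x * √(V T / 2) = -w := by rw [hr]; ring
    rw [this, abs_neg, abs_of_pos hw0])
  have u2 := t1 x (r + w) hx0 hxl (by
    have : r + w - x * √(V T / 2) = w := by rw [hr]; ring
    rw [this, abs_of_pos hw0])
  set E2 : Set ℝ := {t : ℝ | t ∈ Set.Icc T (2 * T) ∧ r - w < (PS (y0 T) t).re} with hE2
  set E2' : Set ℝ := {t : ℝ | t ∈ Set.Icc T (2 * T) ∧ r + w < (PS (y0 T) t).re} with hE2'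
  have hup : volume.real E1 ≤ volume.real E2 + volume.real E3 + volume.real E4 := by
    have hsub : E1 ⊆ E2 ∪ E3 ∪ E4 := by
      intro t ht
      by_cases h2 : r - w < (PS (y0 T) t).re
      · exact Or.inl (Or.inl ⟨ht.1, h2⟩)
      by_cases h3 : v ^ 2 / 40 < ‖PS (y0 T) t‖
      · exact Or.inl (Or.inr ⟨⟨by linarith [ht.1.1], by linarith [ht.1.2]⟩, h3⟩)
      · right
        push Not at h2 h3
        exact ⟨ht.1, point_upper hE t6 hk0 hkh hr0 hw0.le (h3.trans hd0) ht.2 h2⟩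
    have h1 : E2 ∪ E3 ∪ E4 ⊆ Set.Icc (T / 4) (8 * T) := by
      rintro t ((ht | ht) | ht)
      · exact hI E2 (fun t ht => ht.1) ht
      · exact hE3s ht
      · exact hI E4 (fun t ht => ht.1) ht
    refine (measureReal_mono hsub (fin _ h1)).trans ?_
    refine (measureReal_union_le _ _).trans ?_
    have := measureReal_union_le (μ := volume) E2 E3
    linarith
  have hlow : volume.real E2' ≤ volume.real E1 + volume.real E3 + volume.real E5 + volume.real E6 := by
    have hsub : E2' ⊆ E1 ∪ E3 ∪ E5 ∪ E6 := by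
      intro t ht
      by_cases h1 : r < Real.log ‖riemannZeta (cl t)‖
      · exact Or.inl (Or.inl (Or.inl ⟨ht.1, h1⟩))
      by_cases h3 : v ^ 2 / 40 < ‖PS (y0 T) t‖
      · exact Or.inl (Or.inl (Or.inr ⟨⟨by linarith [ht.1.1], by linarith [ht.1.2]⟩, h3⟩))
      push Not at h1 h3
      rcases point_lower hE t6 hk0 hkh hw0.le (h3.trans hd0) h1 ht.2 with h | h
      · exact Or.inl (Or.inr ⟨⟨ht.1, h.1⟩, h.2⟩)
      · exact Or.inr ⟨ht.1, h⟩
    have h1 : E1 ∪ E3 ∪ E5 ∪ E6 ⊆ Set.Icc (T / 4) (8 * T) := by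
      rintro t (((ht | ht) | ht) | ht)
      · exact hI E1 (fun t ht => ht.1) ht
      · exact hE3s ht
      · exact hI E5 (fun t ht => ht.1.1) ht
      · exact hI E6 (fun t ht => ht.1) ht
    refine (measureReal_mono hsub (fin _ h1)).trans ?_
    refine (measureReal_union_le _ _).trans ?_
    have a1 := measureReal_union_le (μ := volume) (E1 ∪ E3) E5
    have a2 := measureReal_union_le (μ := volume) E1 E3
    linarith
  have hu1 := (abs_le.mp u1).2
  have hu2 := (abs_le.mp u2).1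
  set X := T * v ^ (-(2:ℝ)) * e0 with hX
  have hδg : (9 + 4 * CL) * (δ * g) ≤ ε / 2 * g := by
    have := mul_le_mul_of_nonneg_right hδε hg0
    nlinarith
  have hX0 : 0 ≤ X := by positivity
  have c1 : (5:ℝ) * X ≤ (9 + 4 * CL) * (δ * g) := by
    have h1 : (9 + 4 * CL) * X ≤ (9 + 4 * CL) * (δ * g) := mul_le_mul_of_nonneg_left hg1 (by positivity)
    have h2 : 0 ≤ CL * X := by positivity
    linarith
  have c2 : X + 4 * CL * X + 4 * X ≤ (9 + 4 * CL) * (δ * g) := by
    have h1 : (9 + 4 * CL) * X ≤ (9 + 4 * CL) * (δ * g) := mul_le_mul_of_nonneg_left hg1 (by positivity)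
    linarith
  rw [abs_le]
  constructor <;> linarith

end Pool.Agent.Q276.CD
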