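import Pool.Agent.Q276.CD.AllJ
import Pool.Agent.Q276.CD.Fin2

set_option autoImplicit false

/-! The theorem, qualitative form. -/

namespace Pool.Agent.Q276.CD

open Filter MeasureTheory

theorem cramer : ∀ ε : ℝ, 0 < ε → ∀ᶠ T : ℝ in atTop, ∀ x : ℝ, 0 ≤ x → x ≤ √(V T) / l3 T ^ 6 →
      |volume.real {t : ℝ | t ∈ Set.Icc T (2 * T) ∧ x * √(V T / 2) < Real.log ‖riemannZeta (cl t)‖} -
        T * (1 - Phi x)| ≤ ε * (T * (1 - Phi x)) :=
  final g_LAW g_M2 g_M7 g_LOCF g_EXPO g_TINY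

end Pool.Agent.Q276.CD
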