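import Pool.Agent.Q276.CD.Tw3
import Pool.Agent.Q177.CD.Law
import Pool.Agent.Q178.CD.Mvc
import Pool.Agent.Q178.CD.Sh
import Pool.Agent.Q178.CD.Cir
import Pool.Agent.Q178.CD.Loc
import Pool.Agent.Q251.CD.ZN
import Pool.Agent.Q251.CD.Pow
import Pool.Agent.Q251.CD.Tiny
import Pool.Agent.Q251.CD.FN
import Pool.Agent.Q121.CD.M146
import Pool.Agent.Q121.CD.M2
import Pool.Agent.Q151.CD.M3
import Pool.Agent.Q153.CD.M5
import Pool.Agent.Q280.CD.M7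
import Pool.Agent.Q280.CD.M8
import Pool.Agent.Q280.CD.M9
import Pool.Agent.Q129.CD.Locf

set_option autoImplicit false

/-! All the lemmas together. -/

namespace Pool.Agent.Q276.CD

open Filter MeasureTheory

theorem g_MVC : P_MVC := Pool.Agent.Q178.CD.t_MVC
theorem g_SH : P_SH := Pool.Agent.Q178.CD.t_SH
theorem g_CIR : P_CIR := Pool.Agent.Q178.CD.t_CIR
theorem g_LOC : P_LOC := Pool.Agent.Q178.CD.t_LOC
theorem g_ZN : P_ZN := Pool.Agent.Q251.CD.t_ZN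
theorem g_EXPO : P_EXPO := Pool.Agent.Q251.CD.t_EXPO
theorem g_TINY : P_TINY := Pool.Agent.Q251.CD.t_TINY g_MVC
theorem g_FN : P_FN := Pool.Agent.Q251.CD.t_FN
theorem g_M1 : P_M1 := Pool.Agent.Q121.CD.t_M1 g_MVC
theorem g_M2 : P_M2 := Pool.Agent.Q121.CD.t_M2 g_MVC
theorem g_M3 : P_M3 := Pool.Agent.Q151.CD.t_M3 g_MVC
theorem g_M4 : P_M4 := Pool.Agent.Q121.CD.t_M4 g_MVC
theorem g_M5 : P_M5 := Pool.Agent.Q153.CD.t_M5 t_TW
theorem g_M6 : P_M6 := Pool.Agent.Q121.CD.t_M6 g_MVC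
theorem g_M7 : P_M7 := Pool.Agent.Q280.CD.t_M7 t_TW
theorem g_M8 : P_M8 := Pool.Agent.Q280.CD.t_M8 g_M5 g_ZN g_SH g_FN
theorem g_M9 : P_M9 := Pool.Agent.Q280.CD.t_M9 g_M3 g_M4 g_M5 g_ZN g_SH g_FN
theorem g_LOCF : P_LOCF := Pool.Agent.Q129.CD.t_LOCF g_M1 g_M6 g_M8 g_M9 g_CIR g_LOC g_ZN
theorem g_LAW : P_LAW := Pool.Agent.Q177.CD.t_LAW

end Pool.Agent.Q276.CD
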