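import Pool.Agent.Q177.CD.Law

set_option autoImplicit false

/-! Quantitative form of the law of the prime sum (the proof of t_LAW of Q177/CD/Law.lean with explicit errors). -/

namespace Pool.Agent.Q276.CD

open MeasureTheory Set Filter
open Pool.Agent.Q177.CD

/-- the numerical bookkeeping -/
theorem num_q {v s l σ x z C₁ C₀ L q : ℝ} (hv : 1 ≤ v) (hs : s = √v)
    (hl : 1 ≤ l) (hls : l ≤ s) (hσ1 : s / 2 ≤ σ) (hσ2 : σ ≤ s) (hx : 0 ≤ x) (hxl : x ≤ s / l)
    (hC₁ : 0 ≤ C₁) (hC₀ : C₀ ≤ l) (hL0 : 0 ≤ L) (hL : L ≤ v ^ 2)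
    (hz : |z| ≤ 2 / s * (q + x * (4 * l + C₀) / s)) (hq : 0 ≤ q)
    (h9 : 40000 * (v ^ 3 * Real.exp (-(v / 2))) ≤ 1) :
    130 * (1 + x) * (8 * (C₁ + 1) / σ + 4 * Real.exp (-v) * σ / Real.exp (-(v / 2)) +
      4 * Real.exp (-(v / 2)) * (L + σ + 1)) + 31 * (Real.exp (-v) + C₁ * (x / σ)) +
      30 * (1 + x) * |z| + 15 * Real.exp (-v) * (1 + x) * Real.exp (x ^ 2 / 2) ≤
      (2200 * (C₁ + 1)) * ((1 + x) * (1 + q) / s + (1 + x) * x * l / v) := by
  have hs1 : 1 ≤ s := hl.trans hls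
  have hs0 : 0 < s := by linarith
  have hl0 : 0 < l := by linarith
  have hσ0 : 0 < σ := by linarith
  have hv0 : 0 < v := by linarith
  have hss : s ^ 2 = v := by rw [hs, Real.sq_sqrt (by linarith)]
  set E : ℝ := Real.exp (-(v / 2)) with hE
  have hE0 : 0 < E := Real.exp_pos _
  have hEE : Real.exp (-v) = E * E := by rw [hE, ← Real.exp_add]; congr 1; ring
  have hE1 : E ≤ 1 := by rw [hE]; exact Real.exp_le_one_iff.2 (by linarith)
  have hsl : s / l ≤ s := div_le_self hs0.le hl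
  have hsv : s ≤ v := by nlinarith
  have hv2 : v ≤ v ^ 2 := by nlinarith
  have hv3 : v ^ 2 * s ≤ v ^ 3 := by
    have : v ^ 3 = v ^ 2 * v := by ring
    rw [this]
    exact mul_le_mul_of_nonneg_left hsv (by positivity)
  have h1x : 0 < 1 + x := by linarith
  set u : ℝ := (1 + x) / s with hu
  have hu0 : 0 < u := by positivity
  have hEs : v ^ 2 * E ≤ 1 / 40000 * (1 / s) := by
    rw [mul_one_div, div_eq_mul_inv, ← div_eq_mul_inv, le_div_iff₀ hs0]
    have : v ^ 2 * E * s ≤ v ^ 3 * E := by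
      calc v ^ 2 * E * s = v ^ 2 * s * E := by ring
        _ ≤ _ := mul_le_mul_of_nonneg_right hv3 hE0.le
    linarith
  have hEu : (1 + x) * (v ^ 2 * E) ≤ 1 / 40000 * u := by
    calc (1 + x) * (v ^ 2 * E) ≤ (1 + x) * (1 / 40000 * (1 / s)) := mul_le_mul_of_nonneg_left hEs h1x.le
      _ = _ := by rw [hu]; ring
  have a1 : 130 * (1 + x) * (8 * (C₁ + 1) / σ) ≤ 2080 * (C₁ + 1) * u := by
    have : 1 / σ ≤ 2 / s := by
      rw [div_le_div_iff₀ hσ0 hs0]; linarith
    calc 130 * (1 + x) * (8 * (C₁ + 1) / σ) = 1040 * (C₁ + 1) * (1 + x) * (1 / σ) := by ring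
      _ ≤ 1040 * (C₁ + 1) * (1 + x) * (2 / s) := mul_le_mul_of_nonneg_left this (by positivity)
      _ = _ := by rw [hu]; ring
  have a2 : 130 * (1 + x) * (4 * Real.exp (-v) * σ / E) ≤ u := by
    have e1 : 4 * Real.exp (-v) * σ / E = 4 * E * σ := by rw [hEE]; field_simp
    rw [e1]
    have e2 : σ ≤ v ^ 2 := by linarith
    calc 130 * (1 + x) * (4 * E * σ) ≤ 130 * (1 + x) * (4 * E * v ^ 2) := by gcongr
      _ = 520 * ((1 + x) * (v ^ 2 * E)) := by ring
      _ ≤ u := by linarith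
  have a3 : 130 * (1 + x) * (4 * E * (L + σ + 1)) ≤ u := by
    have e1 : L + σ + 1 ≤ 3 * v ^ 2 := by linarith
    calc 130 * (1 + x) * (4 * E * (L + σ + 1)) ≤ 130 * (1 + x) * (4 * E * (3 * v ^ 2)) := by gcongr
      _ = 1560 * ((1 + x) * (v ^ 2 * E)) := by ring
      _ ≤ u := by linarith
  have a4 : 31 * (Real.exp (-v) + C₁ * (x / σ)) ≤ u + 62 * C₁ * u := by
    have e1 : x / σ ≤ 2 * u := by
      rw [hu, div_le_iff₀ hσ0]
      have : 2 * ((1 + x) / s) * σ = (1 + x) * (2 * σ / s) := by ring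
      rw [this]
      have h1 : 1 ≤ 2 * σ / s := by rw [le_div_iff₀ hs0]; linarith
      nlinarith
    have e2 : C₁ * (x / σ) ≤ C₁ * (2 * u) := mul_le_mul_of_nonneg_left e1 hC₁
    have e3 : Real.exp (-v) ≤ (1 + x) * (v ^ 2 * E) := by
      rw [hEE]
      have : E * E ≤ 1 * E := mul_le_mul_of_nonneg_right hE1 hE0.le
      have h2 : 1 * E ≤ (1 + x) * v ^ 2 * E := mul_le_mul_of_nonneg_right (by nlinarith) hE0.le
      linarith
    linarith
  have a5 : 30 * (1 + x) * |z| ≤ 60 * (u * q) + 300 * ((1 + x) * x * l / v) := by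
    have e1 : x * (4 * l + C₀) / s ≤ 5 * (x * l) / s := by
      refine div_le_div_of_nonneg_right ?_ hs0.le
      have := mul_le_mul_of_nonneg_left (show 4 * l + C₀ ≤ 5 * l by linarith) hx
      linarith
    calc 30 * (1 + x) * |z| ≤ 30 * (1 + x) * (2 / s * (q + 5 * (x * l) / s)) := by
          refine mul_le_mul_of_nonneg_left (hz.trans ?_) (by positivity)
          exact mul_le_mul_of_nonneg_left (by linarith) (by positivity)
      _ = _ := by rw [hu, ← hss]; field_simp; ring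
  have a6 : 15 * Real.exp (-v) * (1 + x) * Real.exp (x ^ 2 / 2) ≤ u := by
    have e1 : x ^ 2 ≤ v := by
      rw [← hss]; exact pow_le_pow_left₀ hx (hxl.trans hsl) 2
    have e2 : Real.exp (x ^ 2 / 2) ≤ Real.exp (v / 2) := Real.exp_le_exp.2 (by linarith)
    have e3 : E * Real.exp (v / 2) = 1 := by rw [hE, ← Real.exp_add]; simp
    calc 15 * Real.exp (-v) * (1 + x) * Real.exp (x ^ 2 / 2)
        ≤ 15 * Real.exp (-v) * (1 + x) * Real.exp (v / 2) := by gcongr
      _ = 15 * (1 + x) * E * (E * Real.exp (v / 2)) := by rw [hEE]; ring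
      _ = 15 * ((1 + x) * (1 * E)) := by rw [e3]; ring
      _ ≤ 15 * ((1 + x) * (v ^ 2 * E)) := by gcongr; linarith
      _ ≤ u := by linarith
  have hw0 : 0 ≤ (1 + x) * x * l / v := by positivity
  have e5 : (1 + x) * (1 + q) / s = u + u * q := by rw [hu]; ring
  have hCu : 0 ≤ C₁ * u := by positivity
  have huq : 0 ≤ u * q := by positivity
  have hCuq : 0 ≤ C₁ * (u * q) := by positivity
  have hCw : 0 ≤ C₁ * ((1 + x) * x * l / v) := by positivity
  rw [e5]
  calc _ = 130 * (1 + x) * (8 * (C₁ + 1) / σ) + 130 * (1 + x) * (4 * Real.exp (-v) * σ / E) +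
      130 * (1 + x) * (4 * E * (L + σ + 1)) + 31 * (Real.exp (-v) + C₁ * (x / σ)) +
      30 * (1 + x) * |z| + 15 * Real.exp (-v) * (1 + x) * Real.exp (x ^ 2 / 2) := by ring
    _ ≤ _ := by nlinarith

/-- the quantitative law -/
theorem lawq : ∃ C : ℝ, 0 < C ∧ ∀ᶠ T : ℝ in atTop, ∀ x r : ℝ, 0 ≤ x →
    x ≤ √(V T) / l3 T → (1 + x) * |r - x * √(V T / 2)| ≤ √(V T) / 8 →
    |volume.real {t : ℝ | t ∈ Set.Icc T (2 * T) ∧ r < (PS (y0 T) t).re} - T * (1 - Phi x)| ≤
    C * ((1 + x) * (1 + |r - x * √(V T / 2)|) / √(V T) + (1 + x) * x * l3 T / V T) * (T * (1 - Phi x)) := by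
  obtain ⟨C₀, hC₀, hV0⟩ := V0_est
  obtain ⟨C₁, hC₁, hlip⟩ := HN_lip
  obtain ⟨C₃, hC₃, hexp⟩ := exp_mom
  refine ⟨2200 * (C₁ + 1), by positivity, ?_⟩
  filter_upwards [V_tendsto.eventually (ev_cond C₀ C₁ C₃ (1 / 16) 1 (by norm_num) (by norm_num)),
    (Real.tendsto_log_atTop.comp V_tendsto).eventually_ge_atTop C₀,
    eventually_gt_atTop (1 : ℝ)] with T hc hcC hT1
  intro x r hx0 hxle hr
  have hT : 0 < T := by linarith
  have hlogT : 0 < Real.log T := Real.log_pos hT1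
  have hev : Real.exp (V T) = Real.log T := by rw [V, Real.exp_log hlogT]
  set v : ℝ := V T with hv
  obtain ⟨c1, c2, c3, c4, c5, c6, c7, c8, c9, c10, c11⟩ := hc
  have hv1 : 1 ≤ v := by linarith
  have hv0 : 0 < v := by linarith
  have hl3 : l3 T = Real.log v := by rw [l3]
  set l : ℝ := Real.log v with hl
  have hl0 : 0 < l := by linarith
  set s : ℝ := √v with hs
  have hs1 : 1 ≤ s := c11.trans c8
  have hs0 : 0 < s := by linarith
  have hss : s ^ 2 = v := by rw [hs, Real.sq_sqrt hv0.le]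
  rw [hl3] at hxle
  set N : ℕ := y0 T with hN
  have hN1 : 1 ≤ N := by rw [hN, y0]; omega
  have hNle : (N : ℝ) ≤ Real.exp (Real.log T / v ^ 4) + 1 := by
    rw [hN, y0]
    push_cast
    have := Nat.floor_le (Real.exp_pos (Real.log T / V T ^ 4)).le
    linarith
  have hW := hV0 T v hv1 hv hev c2
  rw [← hN] at hW
  have hW' := abs_le.1 hW
  have hW1 : v / 2 ≤ V0 N := by linarith [hW'.1]
  have hW2 : V0 N ≤ 2 * v := by linarith [hW'.2]
  set σ : ℝ := √(V0 N / 2) with hσ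
  have hσsq : σ ^ 2 = V0 N / 2 := by rw [hσ, Real.sq_sqrt (by linarith)]
  have hσnn : 0 ≤ σ := Real.sqrt_nonneg _
  have hσ1 : s / 2 ≤ σ := by
    apply le_of_sq_le_sq _ hσnn
    rw [hσsq, div_pow, hss]; linarith only [hW1]
  have hσ2 : σ ≤ s := by
    apply le_of_sq_le_sq _ hs0.le
    rw [hσsq, hss]; linarith
  have hσ0 : 0 < σ := by linarith
  have hl2 : 2 ≤ l := by
    rw [hl, Real.le_log_iff_exp_le hv0]
    have h4 : Real.exp 2 = Real.exp 1 * Real.exp 1 := by rw [← Real.exp_add]; norm_num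
    have h5 := Real.exp_one_lt_d9
    have h6 := Real.exp_pos 1
    nlinarith only [h4, h5, h6, c1]
  have hs2 : 2 ≤ s := hl2.trans c8
  have hσone : 1 ≤ σ := by linarith
  have hxσ' : x / σ ≤ 2 / l := by
    rw [div_le_div_iff₀ hσ0 hl0]
    have e2 : x * l ≤ s := by
      calc _ ≤ (s / l) * l := mul_le_mul_of_nonneg_right hxle hl0.le
        _ = _ := by field_simp
    linarith
  have hxσ1 : x / σ ≤ 1 := hxσ'.trans (by rw [div_le_one hl0]; exact hl2)
  have hxσ : x ≤ σ := by rwa [div_le_one hσ0] at hxσ1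
  have hxσ0 : 0 ≤ x / σ := by positivity
  set z : ℝ := r / σ - x with hz
  have hσz : σ * (x + z) = r := by rw [hz]; field_simp; ring
  have hgap : |√(v / 2) - σ| ≤ (4 * l + C₀) / s := by
    have h1 : (√(v / 2) - σ) * (√(v / 2) + σ) = (v - V0 N) / 2 := by
      have h2 : √(v / 2) ^ 2 = v / 2 := Real.sq_sqrt (by linarith)
      have : (√(v / 2) - σ) * (√(v / 2) + σ) = √(v / 2) ^ 2 - σ ^ 2 := by ring
      rw [this, h2, hσsq]; ring
    have h3 : s / 2 ≤ √(v / 2) + σ := by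
      have := Real.sqrt_nonneg (v / 2)
      linarith
    have h4 : |√(v / 2) - σ| * (√(v / 2) + σ) = |v - V0 N| / 2 := by
      have h5 := congrArg abs h1
      rw [abs_mul, abs_of_nonneg (show 0 ≤ √(v / 2) + σ by linarith), abs_div,
        abs_of_pos (show (0 : ℝ) < 2 by norm_num)] at h5
      exact h5
    rw [le_div_iff₀ hs0]
    have h6 : |v - V0 N| ≤ 4 * l + C₀ := by rw [abs_sub_comm]; exact hW
    have h7 := mul_le_mul_of_nonneg_left h3 (abs_nonneg (√(v / 2) - σ))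
    linarith
  have h4C : 0 ≤ 4 * l + C₀ := by linarith
  set q : ℝ := |r - x * √(v / 2)| with hq
  have hq0 : 0 ≤ q := abs_nonneg _
  have h1x : 0 < 1 + x := by linarith
  have hzb : |z| ≤ 2 / s * (q + x * (4 * l + C₀) / s) := by
    have e2 : r - x * σ = (r - x * √(v / 2)) + x * (√(v / 2) - σ) := by ring
    have e3 : |x * (√(v / 2) - σ)| ≤ x * (4 * l + C₀) / s := by
      rw [abs_mul, abs_of_nonneg hx0, mul_div_assoc]
      exact mul_le_mul_of_nonneg_left hgap hx0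
    have e1 : |r - x * σ| ≤ q + x * (4 * l + C₀) / s := by
      rw [e2]
      exact (abs_add_le _ _).trans (add_le_add le_rfl e3)
    have e4 : z = (r - x * σ) / σ := by rw [hz]; field_simp
    rw [e4, abs_div, abs_of_pos hσ0, div_le_iff₀ hσ0]
    refine e1.trans ?_
    have hnn : 0 ≤ q + x * (4 * l + C₀) / s := by positivity
    have e5 : 1 ≤ 2 / s * σ := by
      rw [div_mul_eq_mul_div, le_div_iff₀ hs0]; linarith
    calc q + x * (4 * l + C₀) / s = 1 * (q + x * (4 * l + C₀) / s) := by ring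
      _ ≤ (2 / s * σ) * (q + x * (4 * l + C₀) / s) := mul_le_mul_of_nonneg_right e5 hnn
      _ = _ := by ring
  have hz1 : |z| ≤ 1 / (1 + x) := by
    refine hzb.trans ?_
    rw [le_div_iff₀ h1x]
    have h1s : 1 ≤ s / l := by rw [le_div_iff₀ hl0]; linarith
    have e4 : x * (x + 1) ≤ (s / l) * (2 * (s / l)) :=
      mul_le_mul hxle (by linarith) (by linarith) (by positivity)
    have e6 : 2 * (4 * l + C₀) / l ^ 2 ≤ 1 / 16 := by
      rw [div_le_iff₀ (by positivity)]; exact c5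
    have e7 : 2 / s * (x * (4 * l + C₀) / s) * (1 + x) ≤ 2 * (1 / 16) := by
      calc 2 / s * (x * (4 * l + C₀) / s) * (1 + x) = 2 * (x * (x + 1)) * ((4 * l + C₀) / s ^ 2) := by
            field_simp; ring
        _ ≤ 2 * ((s / l) * (2 * (s / l))) * ((4 * l + C₀) / s ^ 2) := by gcongr
        _ = 2 * (2 * (4 * l + C₀) / l ^ 2) := by field_simp
        _ ≤ _ := by linarith
    have e8 : 2 / s * q * (1 + x) ≤ 2 * (1 / 8) := by
      calc 2 / s * q * (1 + x) = 2 * ((1 + x) * q) / s := by ring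
        _ ≤ 2 * (s / 8) / s := by gcongr
        _ = _ := by field_simp
    nlinarith
  -- the truncation
  set D : ℕ := ⌈v ^ 2⌉₊ with hD
  have hD1 : v ^ 2 ≤ (D : ℝ) := Nat.le_ceil _
  have hD2 : (D : ℝ) ≤ v ^ 2 + 1 := (Nat.ceil_lt_add_one (by positivity)).le
  have hDone : 1 ≤ D := by
    have h1 : (1 : ℝ) ≤ v ^ 2 := one_le_pow₀ hv1
    have : (1 : ℝ) ≤ D := h1.trans hD1
    exact_mod_cast this
  have hprob := mT_prob T hT
  set κ : ℝ := 2 * N ^ (4 * D) / T with hκ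
  have hκ0 : 0 ≤ κ := by rw [hκ]; positivity
  have hmom : ∀ j ≤ 2 * D, ‖∫ t, ((RT N t : ℝ) : ℂ) ^ j ∂(mT T) -
      ∫ ω, ((Rn N ω : ℝ) : ℂ) ^ j ∂(nu N)‖ ≤ κ := by
    intro j hj
    refine (mom_cmp N hN1 T hT j).trans ?_
    have hN1' : (1 : ℝ) ≤ N := by exact_mod_cast hN1
    have h1 : (N : ℝ) ^ (2 * j) ≤ (N : ℝ) ^ (4 * D) := pow_le_pow_right₀ hN1' (by omega)
    rw [hκ]
    gcongr
  set G : ℝ := C₃ * Real.exp (102400 * V0 N) with hG
  have hG0 : 0 ≤ G := by rw [hG]; positivity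
  have hexpN : ∫ ω, Real.exp (640 * |Rn N ω|) ∂(nu N) ≤ G := hexp N
  have hkb : Real.exp (-D) * (1 + 2 * G) + 2 * 1700 ^ D * κ ≤ Real.exp (-v) :=
    kappa_bound T v (V0 N) C₃ N D c1 hT hev hNle hD2 hD1 c3 hW2 hC₃.le c6
  have hτ : Real.exp (-v) ≤ 1 / 4 := by
    have h1 : Real.exp (-v) ≤ Real.exp (-2) := Real.exp_le_exp.2 (by linarith)
    have h4 : Real.exp (-2) = Real.exp (-1) * Real.exp (-1) := by rw [← Real.exp_add]; norm_num
    have hhalf : Real.exp (-1) ≤ 1 / 2 := by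
      rw [Real.exp_neg]
      have := Real.exp_one_gt_d9
      rw [one_div]
      exact inv_anti₀ (by norm_num) (by linarith)
    have h9 := Real.exp_pos (-1)
    nlinarith only [h1, h4, hhalf, h9]
  have hδ : Real.exp (-(v / 2)) ≤ 1 / 2 := by
    have h1 : Real.exp (-(v / 2)) ≤ Real.exp (-1) := Real.exp_le_exp.2 (by linarith)
    have hhalf : Real.exp (-1) ≤ 1 / 2 := by
      rw [Real.exp_neg]
      have := Real.exp_one_gt_d9
      rw [one_div]
      exact inv_anti₀ (by norm_num) (by linarith)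
    linarith
  have hξ : C₁ * (x / σ) ≤ 1 / 4 := by
    have e1 : C₁ * (x / σ) ≤ C₁ * (2 / l) := mul_le_mul_of_nonneg_left hxσ' hC₁
    refine e1.trans ?_
    rw [mul_div_assoc', div_le_iff₀ hl0]
    linarith
  have hmgf : ∀ w : ℂ, ‖w‖ ≤ 2 → ‖∫ t in {t | |RT N t| ≤ (D : ℝ) / 40},
      Complex.exp (w * RT N t) ∂(mT T) - Complex.exp (w ^ 2 * σ ^ 2 / 2) * HN N w‖ ≤
      Real.exp (-v) := by
    intro w hw
    have e1 : Complex.exp (w ^ 2 * σ ^ 2 / 2) * HN N w = ∫ ω, Complex.exp (w * Rn N ω) ∂(nu N) := by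
      have e2 : ((σ : ℂ)) ^ 2 = (V0 N : ℂ) / 2 := by
        have := congrArg (fun a : ℝ => (a : ℂ)) hσsq
        simpa using this
      rw [HN, ← mul_assoc, ← Complex.exp_add, e2]
      rw [show w ^ 2 * ((V0 N : ℂ) / 2) / 2 + -(w ^ 2 * (V0 N : ℂ) / 4) = 0 by ring,
        Complex.exp_zero, one_mul]
    rw [e1]
    exact (trunc_mgf (mT T) (nu N) (RT N) (Rn N) (RT_meas N) (Rn_meas N) N
      (fun t => cs_bound N _) (fun ω => cs_bound N _) D hDone κ G hκ0 hmom hexpN w hw).trans hkb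
  have htail : (mT T).real {t | (D : ℝ) / 40 < |RT N t|} ≤ Real.exp (-v) := by
    refine (trunc_tail (mT T) (RT N) (RT_meas N) N (fun t => cs_bound N _) D hDone).trans ?_
    refine (trunc_moment (mT T) (nu N) (RT N) (Rn N) (RT_meas N) (Rn_meas N) N
      (fun t => cs_bound N _) (fun ω => cs_bound N _) D hDone κ G hκ0 hmom hexpN).trans ?_
    refine le_trans ?_ hkb
    have e1 : (64 : ℝ)⁻¹ ^ D ≤ Real.exp (-D) := by
      rw [show (-(D : ℝ)) = (D : ℝ) * (-1) by ring, Real.exp_nat_mul]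
      refine pow_le_pow_left₀ (by positivity) ?_ _
      rw [Real.exp_neg]
      exact inv_anti₀ (Real.exp_pos _) (by linarith [Real.exp_one_lt_d9])
    have e2 : (1600 : ℝ) ^ D ≤ 2 * 1700 ^ D := by
      have : (1600 : ℝ) ^ D ≤ 1700 ^ D := pow_le_pow_left₀ (by norm_num) (by norm_num) _
      have : (0 : ℝ) < 1700 ^ D := by positivity
      linarith
    have e3 := mul_le_mul_of_nonneg_right e1 hG0
    have e4 := mul_le_mul_of_nonneg_right e2 hκ0
    have e5 : 0 ≤ Real.exp (-D) * (1 + G) := by positivity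
    linarith
  have hHb : ‖HN N ((x / σ : ℝ) : ℂ) - 1‖ ≤ C₁ * (x / σ) := by
    have h1 := hlip N ((x / σ : ℝ) : ℂ) 0 (by
      rw [Complex.norm_real, Real.norm_eq_abs, abs_of_nonneg hxσ0]; linarith) (by simp)
    rw [HN_zero, sub_zero, Complex.norm_real, Real.norm_eq_abs, abs_of_nonneg hxσ0] at h1
    exact h1
  have hcore := core (mT T) (RT N) (RT_meas N) ((D : ℝ) / 40) σ x (Real.exp (-v))
    (Real.exp (-(v / 2))) C₁ (C₁ * (x / σ)) (HN N) hσone hx0 hxσ (by positivity)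
    (Real.exp_pos _).le hτ hξ (Real.exp_pos _) hδ hC₁ hmgf (hlip N) hHb htail z hz1
  have hL : (D : ℝ) / 40 ≤ v ^ 2 := by
    have h1 : (1 : ℝ) ≤ v ^ 2 := one_le_pow₀ hv1
    linarith only [h1, hD2]
  have hfin := num_q hv1 hs c11 c8 hσ1 hσ2 hx0 hxle hC₁ (by
    have : C₀ ≤ (Real.log ∘ V) T := hcC
    exact this) (by positivity) hL hzb hq0 c9
  have hset : {t : ℝ | t ∈ Set.Icc T (2 * T) ∧ r < (PS N t).re} =
      Icc T (2 * T) ∩ {t | σ * (x + z) < RT N t} := by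
    ext t
    simp only [mem_ofPred_eq, mem_inter_iff, RT_eq, hσz]
  have hPhi := one_sub_Phi_nonneg x
  rw [hset, mT_real T hT _ (measurableSet_lt measurable_const (RT_meas N)), ← mul_sub, abs_mul,
    abs_of_pos hT]
  calc T * |(mT T).real {t | σ * (x + z) < RT N t} - (1 - Phi x)|
      ≤ T * ((2200 * (C₁ + 1)) * ((1 + x) * (1 + q) / s + (1 + x) * x * l / v) * (1 - Phi x)) :=
        mul_le_mul_of_nonneg_left (hcore.trans (mul_le_mul_of_nonneg_right hfin hPhi)) hT.le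
    _ = _ := by rw [hl3]; ring


end Pool.Agent.Q276.CD
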