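import Pool.Agent.Q276.CD.Fin2a
import Pool.Agent.Q276.CD.Lawq

set_option autoImplicit false

/-! The assembly with explicit errors. -/

namespace Pool.Agent.Q276.CD

open Finset Filter MeasureTheory

/-- the theorem, from the lemma jobs -/
theorem finalq (hM2 : P_M2) (hM7 : P_M7) (hL : P_LOCF) (hE : P_EXPO) (hTI : P_TINY) :
    ∃ c C : ℝ, 0 < c ∧ 0 < C ∧ ∀ᶠ T : ℝ in atTop, ∀ x : ℝ, 0 ≤ x → x ≤ c * √(V T) / l3 T ^ 5 →
      |volume.real {t : ℝ | t ∈ Set.Icc T (2 * T) ∧ x * √(V T / 2) < Real.log ‖riemannZeta (cl t)‖} -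
        T * (1 - Phi x)| ≤ C * ((1 + x) * l3 T ^ 5 / √(V T)) * (T * (1 - Phi x)) := by
  obtain ⟨Cq, hCq, hlaw⟩ := lawq
  obtain ⟨C2, hC2, hm2⟩ := hM2
  obtain ⟨C7, hC7, hm7⟩ := hM7
  obtain ⟨CL, hCL, hlocf⟩ := hL
  obtain ⟨c, hc, hphi⟩ := Phi_tail
  set D : ℝ := max C2 C7 + 2 with hD
  have hD0 : 0 < D := by have := le_max_left C2 C7; linarith
  set K : ℝ := 2 * CL + D + 1 with hK
  have hK1 : 1 ≤ K := by linarith
  refine ⟨1 / (16 * K), 4 * Cq * K + (9 + 4 * CL) * (2 / c), by positivity, by positivity, ?_⟩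
  have hlog := Real.tendsto_log_atTop
  have hVt : Tendsto V atTop atTop := hlog.comp hlog
  have hlt : Tendsto l3 atTop atTop := hlog.comp hVt
  have ev1 : ∀ᶠ T : ℝ in atTop, 16 * K * l3 T ^ 5 ≤ √(V T) := by
    have a1 := (Real.isLittleO_pow_log_id_atTop (n := 10)).def (show (0:ℝ) < 1 / (16 * K) ^ 2 by positivity)
    filter_upwards [hVt.eventually a1, hVt.eventually_ge_atTop 1] with T h2 h3
    simp only [id, Real.norm_eq_abs] at h2
    rw [abs_of_pos (show 0 < V T by linarith)] at h2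
    refine Real.le_sqrt_of_sq_le ?_
    have h4 : Real.log (V T) ^ 10 ≤ 1 / (16 * K) ^ 2 * V T := (le_abs_self _).trans h2
    rw [one_div, inv_mul_eq_div, le_div_iff₀ (by positivity)] at h4
    calc (16 * K * l3 T ^ 5) ^ 2 = (Real.log (V T)) ^ 10 * (16 * K) ^ 2 := by unfold l3; ring
      _ ≤ V T := h4
  filter_upwards [hlaw, hm2, hm7, hlocf, hTI, y_size, ev1, hlt.eventually_ge_atTop 2,
    hVt.eventually_ge_atTop 1, eventually_ge_atTop 1]
    with T t1 t2 t3 t4 t5 t6 t7 t8 t12 t13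
  intro x hx0 hx
  set v := V T with hv
  set l := l3 T with hl
  set sv := √v with hsv
  have hv0 : 0 < v := by linarith
  have hsv0 : 0 < sv := Real.sqrt_pos.mpr hv0
  have hsv2 : sv ^ 2 = v := Real.sq_sqrt hv0.le
  have hl0 : 0 < l := by linarith
  have hlv : Real.exp l = v := by rw [hl]; unfold l3; exact Real.exp_log hv0
  have hl5 : 1 ≤ l ^ 5 := one_le_pow₀ (by linarith)
  have hxK : x * (K * l ^ 5) ≤ sv / 16 := by
    rw [le_div_iff₀ (by positivity)] at hx
    calc x * (K * l ^ 5) = K * (x * l ^ 5) := by ring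
      _ ≤ K * (1 / (16 * K) * sv) := mul_le_mul_of_nonneg_left hx (by linarith)
      _ = sv / 16 := by field_simp
  have hKl : K * l ^ 5 ≤ sv / 16 := by linarith
  have hKl1 : 1 ≤ K * l ^ 5 := one_le_mul_of_one_le_of_one_le hK1 hl5
  have hxsv : x ≤ sv / 16 := by
    refine le_trans ?_ hxK
    exact le_mul_of_one_le_right hx0 hKl1
  have hx10 : 0 < x + 1 := by linarith
  have hx2v : x ^ 2 ≤ v := by
    rw [← hsv2]
    exact pow_le_pow_left₀ hx0 (by linarith) 2
  have hsv16 : 16 ≤ sv := by linarith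
  have hxsv2 : x + 1 ≤ 2 * sv := by linarith
  -- the shift
  set w := K * l ^ 5 with hw
  have hw0 : 0 < w := by positivity
  have hwL : CL * l ^ 5 ≤ w / 2 := by
    rw [hw]
    have : 0 ≤ (D + 1) * l ^ 5 := by positivity
    rw [hK]; linarith
  have hwD : D * l ≤ w := by
    have h1 : l ≤ l ^ 5 := le_self_pow₀ (by linarith) (by norm_num)
    have h2 : D * l ≤ D * l ^ 5 := mul_le_mul_of_nonneg_left h1 hD0.le
    have h3 : 0 ≤ (2 * CL + 1) * l ^ 5 := by positivity
    rw [hw, hK]; linarith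
  -- the parameters
  set s2 := √(2 * v) with hs2
  have hs20 : 0 < s2 := Real.sqrt_pos.mpr (by linarith)
  have hs22 : s2 ^ 2 = 2 * v := Real.sq_sqrt (by linarith)
  have hsq : √(v / 2) = s2 / 2 := by
    rw [show v / 2 = (s2 / 2) ^ 2 by rw [div_pow, hs22]; ring]
    exact Real.sqrt_sq (by positivity)
  set k := x / s2 with hk
  set r := x * √(v / 2) with hr
  have hk0 : 0 ≤ k := by positivity
  have hr0 : 0 ≤ r := by positivity
  have hkr : 2 * k * r = x ^ 2 := by
    rw [hk, hr, hsq]; field_simp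
  have hkv : k ^ 2 * v = x ^ 2 / 2 := by
    rw [hk, div_pow, hs22]; field_simp
  have hkh : k ≤ 1 / 2 := by
    rw [hk, div_le_iff₀ hs20]
    have : sv ≤ s2 := Real.sqrt_le_sqrt (by linarith)
    linarith
  have hk1 : k ≤ 1 := by linarith
  -- the tail
  set g := T * (1 - Phi x) with hg
  set e0 := Real.exp (-(x ^ 2 / 2)) with he0
  have he00 : 0 < e0 := Real.exp_pos _
  have hT0 : 0 < T := by linarith
  have hg1 : T * v ^ (-(2:ℝ)) * e0 ≤ 2 / (c * v) * g := by
    have h1 := hphi x hx0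
    have h2 : T * (c * e0 / (1 + x)) ≤ g := mul_le_mul_of_nonneg_left h1 hT0.le
    have h3 : v ^ (-(2:ℝ)) = 1 / v ^ 2 := by
      rw [Real.rpow_neg hv0.le, one_div]; norm_num
    have h4 : c * e0 / (2 * sv) ≤ c * e0 / (1 + x) :=
      div_le_div_of_nonneg_left (by positivity) (by linarith) (by linarith)
    have h5 : T * (c * e0 / (2 * sv)) ≤ g := (mul_le_mul_of_nonneg_left h4 hT0.le).trans h2
    have h6 : sv ≤ v := by
      rw [← hsv2]
      have : 1 ≤ sv := by
        rw [hsv]; exact Real.one_le_sqrt.mpr t12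
      exact le_self_pow₀ this two_ne_zero
    rw [h3]
    have h7 : T * (1 / v ^ 2) * e0 ≤ 2 / (c * v) * (T * (c * e0 / (2 * sv))) := by
      have e1 : 2 / (c * v) * (T * (c * e0 / (2 * sv))) = T * e0 * (1 / (v * sv)) := by field_simp
      rw [e1]
      have : 1 / v ^ 2 ≤ 1 / (v * sv) := one_div_le_one_div_of_le (by positivity) (by rw [sq]; exact mul_le_mul_of_nonneg_left h6 hv0.le)
      calc T * (1 / v ^ 2) * e0 = T * e0 * (1 / v ^ 2) := by ring
        _ ≤ _ := mul_le_mul_of_nonneg_left this (by positivity)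
    exact h7.trans (mul_le_mul_of_nonneg_left h5 (by positivity))
  have hg0 : 0 ≤ g := by
    have h1 := hphi x hx0
    have : 0 ≤ 1 - Phi x := le_trans (by positivity) h1
    positivity
  set δ := 2 / (c * v) with hδ
  -- the exceptional sets
  set E3 : Set ℝ := {t : ℝ | t ∈ Set.Icc (T / 2) (4 * T) ∧ v ^ 2 / 40 < ‖PS (y0 T) t‖} with hE3
  have b3 : volume.real E3 ≤ T * v ^ (-(2:ℝ)) * e0 := by
    refine t5.trans ?_
    have h3 : v ^ (-(2:ℝ)) = Real.exp (-(2 * l)) := by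
      rw [Real.rpow_def_of_pos hv0]; congr 1
      rw [hl]; unfold l3; ring
    rw [h3, he0, mul_assoc, ← Real.exp_add]
    refine mul_le_mul_of_nonneg_left (Real.exp_le_exp.mpr ?_) hT0.le
    have h4 : l ≤ v := by
      have := Real.add_one_le_exp l
      rw [hlv] at this
      linarith
    have h5 : v ≤ v ^ 2 := le_self_pow₀ t12 two_ne_zero
    have h6 : (4:ℝ) ≤ v := by
      have := Real.add_one_le_exp l
      rw [← hlv]
      have h7 : Real.exp 2 ≤ Real.exp l := Real.exp_le_exp.mpr t8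
      have h8 : (4:ℝ) ≤ Real.exp 2 := by
        have := Real.exp_one_gt_d9
        have e : Real.exp 2 = Real.exp 1 * Real.exp 1 := by rw [← Real.exp_add]; norm_num
        rw [e]
        calc (4:ℝ) = 2 * 2 := by norm_num
          _ ≤ Real.exp 1 * Real.exp 1 := mul_le_mul (by linarith) (by linarith) (by norm_num) (Real.exp_pos _).le
      linarith
    change -(2 * v ^ 2) ≤ -(2 * l) + -(x ^ 2 / 2)
    have h9 : 4 * v ≤ v ^ 2 := by rw [sq]; exact mul_le_mul_of_nonneg_right h6 hv0.le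
    linarith
  have hd0 : v ^ 2 / 40 ≤ (d0 T : ℝ) / 40 := by
    have : v ^ 2 ≤ (d0 T : ℝ) := Nat.le_ceil _
    linarith
  set a4 := 1 / 4 * Real.exp (2 * k * r + w) with ha4
  have ha40 : 0 < a4 := by positivity
  have hrp : ∀ C : ℝ, C ≤ D - 2 → T * v ^ C * Real.exp (k ^ 2 * v) / a4 ≤ 4 * (T * v ^ (-(2:ℝ)) * e0) := by
    intro C hC
    rw [div_le_iff₀ ha40, ha4, hkr, hkv, he0]
    have e1 : 4 * (T * v ^ (-(2:ℝ)) * Real.exp (-(x ^ 2 / 2))) * (1 / 4 * Real.exp (x ^ 2 + w)) =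
        T * Real.exp (-(2 * l) - x ^ 2 / 2 + (x ^ 2 + w)) := by
      have h3 : v ^ (-(2:ℝ)) = Real.exp (-(2 * l)) := by
        rw [Real.rpow_def_of_pos hv0]; congr 1
        rw [hl]; unfold l3; ring
      rw [h3, Real.exp_add (-(2 * l) - x ^ 2 / 2), sub_eq_add_neg, Real.exp_add (-(2 * l))]
      ring
    have e2 : T * v ^ C * Real.exp (x ^ 2 / 2) = T * Real.exp (C * l + x ^ 2 / 2) := by
      have h3 : v ^ C = Real.exp (C * l) := by
        rw [Real.rpow_def_of_pos hv0]; congr 1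
        rw [hl]; unfold l3; ring
      rw [h3, Real.exp_add]
      ring
    rw [e1, e2]
    refine mul_le_mul_of_nonneg_left (Real.exp_le_exp.mpr ?_) hT0.le
    have h9 : C * l ≤ (D - 2) * l := mul_le_mul_of_nonneg_right hC hl0.le
    have h10 : (D - 2) * l = D * l - 2 * l := by ring
    rw [h10] at h9
    linarith
  have hI : ∀ S : Set ℝ, S ⊆ Set.Icc T (2 * T) → S ⊆ Set.Icc (T / 4) (8 * T) := fun S hS t ht => by
    have := hS ht
    exact ⟨by linarith [this.1], by linarith [this.2]⟩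
  set E4 : Set ℝ := {t : ℝ | t ∈ Set.Icc T (2 * T) ∧ a4 ≤ ‖riemannZeta (cl t)‖ ^ 2 *
    ‖Dr (aI (k - 1) (y0 T) (d0 T)) (y2 T) (cl t)‖ ^ 2} with hE4
  have b4 : volume.real E4 ≤ 4 * (T * v ^ (-(2:ℝ)) * e0) := by
    refine (markov_int ((zeta_cont.norm.pow 2).mul ((Dr_cont' _ _).norm.pow 2))
      (fun t => mul_nonneg (sq_nonneg _) (sq_nonneg _)) ha40
      (by linarith) (hI E4 fun t ht => ht.1) (fun t ht => ht.2) (t3 k hk0 hk1)).trans (hrp C7 ?_)
    rw [hD]; have := le_max_right C2 C7; linarith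
  set E6 : Set ℝ := {t : ℝ | t ∈ Set.Icc T (2 * T) ∧ a4 ≤
    ‖Dr (aI (k + 1) (y0 T) (d0 T)) (y2 T) (cl t) * MM T (cl t)‖ ^ 2} with hE6
  have b6 : volume.real E6 ≤ 4 * (T * v ^ (-(2:ℝ)) * e0) := by
    refine (markov_int (((Dr_cont' _ _).mul (Dr_cont' _ _)).norm.pow 2) (fun t => sq_nonneg _) ha40
      (by linarith) (hI E6 fun t ht => ht.1) (fun t ht => ht.2) (t2 k hk0 hk1)).trans (hrp C2 ?_)
    rw [hD]; have := le_max_left C2 C7; linarith
  set W : Set ℝ := {t : ℝ | t ∈ Set.Icc T (2 * T) ∧ ‖riemannZeta (cl t) * MM T (cl t)‖ ≤ Real.exp (-(w / 2))} with hW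
  have hWm : MeasurableSet W := by
    have h1 : MeasurableSet {t : ℝ | ‖riemannZeta (cl t) * MM T (cl t)‖ ≤ Real.exp (-(w / 2))} :=
      measurableSet_le ((zeta_cont.mul (Dr_cont' _ _)).norm.measurable) measurable_const
    exact measurableSet_Icc.inter h1
  set E5 : Set ℝ := {t : ℝ | t ∈ W ∧ 1 / 4 * Real.exp (2 * k * r) ≤ ‖AA k T (cl t)‖ ^ 2} with hE5
  have b5 : volume.real E5 ≤ 4 * CL * (T * v ^ (-(2:ℝ)) * e0) := by
    have h1 := markov_set ((Dr_cont' (aI k (y0 T) (d0 T)) (y2 T)).norm.pow 2) (fun t => sq_nonneg _)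
      (show 0 < 1 / 4 * Real.exp (2 * k * r) by positivity) hWm (fun t ht => ht.1 : W ⊆ Set.Icc T (2 * T))
      (fun t ht => ht.1 : E5 ⊆ W) (fun t ht => ht.2)
    refine h1.trans ?_
    have h2 := t4 k hk0 hk1 (w / 2) hwL
    rw [div_le_iff₀ (by positivity)]
    refine h2.trans (le_of_eq ?_)
    rw [hkr, hkv, he0]
    have : Real.exp (x ^ 2 / 2) = Real.exp (-(x ^ 2 / 2)) * Real.exp (x ^ 2) := by
      rw [← Real.exp_add]; congr 1; ring
    rw [this]; ring
  -- finiteness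
  have fin : ∀ S : Set ℝ, S ⊆ Set.Icc (T / 4) (8 * T) → volume S ≠ ⊤ := fun S hS => by
    have := measure_mono (μ := volume) hS
    rw [Real.volume_Icc] at this
    exact (this.trans_lt ENNReal.ofReal_lt_top).ne
  have hE3s : E3 ⊆ Set.Icc (T / 4) (8 * T) := fun t ht => ⟨by linarith [ht.1.1], by linarith [ht.1.2]⟩
  set E1 : Set ℝ := {t : ℝ | t ∈ Set.Icc T (2 * T) ∧ r < Real.log ‖riemannZeta (cl t)‖} with hE1
  -- the upper bound
  have hxl : x ≤ √(V T) / l3 T := by
    rw [le_div_iff₀ hl0]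
    have h1 : l ≤ l ^ 5 := le_self_pow₀ (by linarith) (by norm_num)
    have h2 : x * l ≤ x * (K * l ^ 5) := mul_le_mul_of_nonneg_left (h1.trans (le_mul_of_one_le_left (by positivity) hK1)) hx0
    linarith
  have hc8 : (1 + x) * w ≤ √(V T) / 8 := by
    have : (1 + x) * w = w + x * w := by ring
    rw [this]
    linarith
  have z1 : |r - w - x * √(V T / 2)| = w := by
    have : r - w - x * √(V T / 2) = -w := by rw [hr]; ring
    rw [this, abs_neg, abs_of_pos hw0]
  have z2 : |r + w - x * √(V T / 2)| = w := by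
    have : r + w - x * √(V T / 2) = w := by rw [hr]; ring
    rw [this, abs_of_pos hw0]
  have u1 := t1 x (r - w) hx0 hxl (by rw [z1]; exact hc8)
  have u2 := t1 x (r + w) hx0 hxl (by rw [z2]; exact hc8)
  rw [z1] at u1
  rw [z2] at u2
  have hlawe : Cq * ((1 + x) * (1 + w) / √(V T) + (1 + x) * x * l3 T / V T) ≤
      3 * Cq * K * ((1 + x) * l ^ 5 / sv) := by
    have e1 : (1 + x) * (1 + w) / sv ≤ 2 * K * ((1 + x) * l ^ 5 / sv) := by
      have : 2 * K * ((1 + x) * l ^ 5 / sv) = (1 + x) * (2 * w) / sv := by rw [hw]; ring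
      rw [this]
      refine div_le_div_of_nonneg_right ?_ hsv0.le
      exact mul_le_mul_of_nonneg_left (by linarith) (by linarith)
    have e2 : (1 + x) * x * l / v ≤ K * ((1 + x) * l ^ 5 / sv) := by
      have : K * ((1 + x) * l ^ 5 / sv) = (1 + x) * (w * sv) / v := by
        rw [hw, ← hsv2]; field_simp
      rw [this]
      refine div_le_div_of_nonneg_right ?_ hv0.le
      have h1 : x * l ≤ w * sv := by
        have h2 : x * l ≤ sv := by
          have := hxl
          rwa [le_div_iff₀ hl0] at this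
        exact h2.trans (le_mul_of_one_le_left hsv0.le hKl1)
      calc (1 + x) * x * l = (1 + x) * (x * l) := by ring
        _ ≤ _ := mul_le_mul_of_nonneg_left h1 (by linarith)
    calc Cq * ((1 + x) * (1 + w) / sv + (1 + x) * x * l / v) ≤
        Cq * (2 * K * ((1 + x) * l ^ 5 / sv) + K * ((1 + x) * l ^ 5 / sv)) :=
          mul_le_mul_of_nonneg_left (add_le_add e1 e2) hCq.le
      _ = _ := by ring
  have u1' := u1.trans (mul_le_mul_of_nonneg_right hlawe hg0)
  have u2' := u2.trans (mul_le_mul_of_nonneg_right hlawe hg0)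
  set E2 : Set ℝ := {t : ℝ | t ∈ Set.Icc T (2 * T) ∧ r - w < (PS (y0 T) t).re} with hE2
  set E2' : Set ℝ := {t : ℝ | t ∈ Set.Icc T (2 * T) ∧ r + w < (PS (y0 T) t).re} with hE2'
  have hup : volume.real E1 ≤ volume.real E2 + volume.real E3 + volume.real E4 := by
    have hsub : E1 ⊆ E2 ∪ E3 ∪ E4 := by
      intro t ht
      by_cases h2 : r - w < (PS (y0 T) t).re
      · exact Or.inl (Or.inl ⟨ht.1, h2⟩)
      by_cases h3 : v ^ 2 / 40 < ‖PS (y0 T) t‖
      · exact Or.inl (Or.inr ⟨⟨by linarith [ht.1.1], by linarith [ht.1.2]⟩, h3⟩)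
      · right
        push Not at h2 h3
        exact ⟨ht.1, point_upper hE t6 hk0 hkh hr0 hw0.le (h3.trans hd0) ht.2 h2⟩
    have h1 : E2 ∪ E3 ∪ E4 ⊆ Set.Icc (T / 4) (8 * T) := by
      rintro t ((ht | ht) | ht)
      · exact hI E2 (fun t ht => ht.1) ht
      · exact hE3s ht
      · exact hI E4 (fun t ht => ht.1) ht
    refine (measureReal_mono hsub (fin _ h1)).trans ?_
    refine (measureReal_union_le _ _).trans ?_
    have := measureReal_union_le (μ := volume) E2 E3
    linarith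
  have hlow : volume.real E2' ≤ volume.real E1 + volume.real E3 + volume.real E5 + volume.real E6 := by
    have hsub : E2' ⊆ E1 ∪ E3 ∪ E5 ∪ E6 := by
      intro t ht
      by_cases h1 : r < Real.log ‖riemannZeta (cl t)‖
      · exact Or.inl (Or.inl (Or.inl ⟨ht.1, h1⟩))
      by_cases h3 : v ^ 2 / 40 < ‖PS (y0 T) t‖
      · exact Or.inl (Or.inl (Or.inr ⟨⟨by linarith [ht.1.1], by linarith [ht.1.2]⟩, h3⟩))
      push Not at h1 h3
      rcases point_lower hE t6 hk0 hkh hw0.le (h3.trans hd0) h1 ht.2 with h | h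
      · exact Or.inl (Or.inr ⟨⟨ht.1, h.1⟩, h.2⟩)
      · exact Or.inr ⟨ht.1, h⟩
    have h1 : E1 ∪ E3 ∪ E5 ∪ E6 ⊆ Set.Icc (T / 4) (8 * T) := by
      rintro t (((ht | ht) | ht) | ht)
      · exact hI E1 (fun t ht => ht.1) ht
      · exact hE3s ht
      · exact hI E5 (fun t ht => ht.1.1) ht
      · exact hI E6 (fun t ht => ht.1) ht
    refine (measureReal_mono hsub (fin _ h1)).trans ?_
    refine (measureReal_union_le _ _).trans ?_
    have a1 := measureReal_union_le (μ := volume) (E1 ∪ E3) E5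
    have a2 := measureReal_union_le (μ := volume) E1 E3
    linarith
  have hu1 := (abs_le.mp u1').2
  have hu2 := (abs_le.mp u2').1
  set X := T * v ^ (-(2:ℝ)) * e0 with hX
  set Q := (1 + x) * l ^ 5 / sv with hQ
  have hδQ : δ ≤ 2 / c * Q := by
    rw [hδ, hQ]
    have h1 : 2 / (c * v) = 2 / c * (1 / v) := by field_simp
    rw [h1]
    refine mul_le_mul_of_nonneg_left ?_ (by positivity)
    rw [div_le_div_iff₀ hv0 hsv0]
    have h2 : sv ≤ v := by rw [← hsv2]; exact le_self_pow₀ (by linarith) two_ne_zero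
    have h3 : 1 * v ≤ (1 + x) * l ^ 5 * v := by
      refine mul_le_mul_of_nonneg_right ?_ hv0.le
      exact one_le_mul_of_one_le_of_one_le (by linarith) hl5
    linarith
  have hδg : (9 + 4 * CL) * (δ * g) ≤ (9 + 4 * CL) * (2 / c) * Q * g := by
    have h1 : δ * g ≤ 2 / c * Q * g := mul_le_mul_of_nonneg_right hδQ hg0
    have h2 := mul_le_mul_of_nonneg_left h1 (show 0 ≤ 9 + 4 * CL by positivity)
    calc _ ≤ _ := h2
      _ = _ := by ring
  have hX0 : 0 ≤ X := by positivity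
  have hCX : 0 ≤ CL * X := by positivity
  have h9 : (9 + 4 * CL) * X ≤ (9 + 4 * CL) * (δ * g) := mul_le_mul_of_nonneg_left hg1 (by positivity)
  have hQg : 0 ≤ Cq * K * Q * g := by
    have : 0 ≤ Q := by positivity
    positivity
  have htot : (4 * Cq * K + (9 + 4 * CL) * (2 / c)) * Q * g =
      3 * Cq * K * Q * g + Cq * K * Q * g + (9 + 4 * CL) * (2 / c) * Q * g := by ring
  rw [htot, abs_le]
  constructor <;> linarith

end Pool.Agent.Q276.CD
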