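import Pool.Agent.Q276.CD.Stm

set_option autoImplicit false

/-! Project CD (helper276): the final statements. -/

namespace Pool.Agent.Q276.CD

open MeasureTheory Filter

/-- moderate deviations of `log |ζ(1/2+it)|` on `[T, 2T]` -/
def P_CQ : Prop := ∃ c C : ℝ, 0 < c ∧ 0 < C ∧ ∀ᶠ T : ℝ in atTop, ∀ x : ℝ, 0 ≤ x → x ≤ c * √(V T) / l3 T ^ 5 →
  |volume.real {t : ℝ | t ∈ Set.Icc T (2 * T) ∧
      x * √(V T / 2) < Real.log ‖riemannZeta (1 / 2 + (t : ℂ) * Complex.I)‖} - T * (1 - Phi x)| ≤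
    C * ((1 + x) * l3 T ^ 5 / √(V T)) * (T * (1 - Phi x))

/-- JOB SHIFT: the same for a random shift `1/2 + iy + iuT`, `u` uniform in `[0, 1]` -/
def P_SHIFT : Prop := ∃ c C : ℝ, 0 < c ∧ 0 < C ∧ ∀ y : ℝ, ∀ᶠ T : ℝ in atTop, ∀ x : ℝ, 0 ≤ x →
  x ≤ c * √(V T) / l3 T ^ 5 →
  |volume.real {u : ℝ | u ∈ Set.Icc (0:ℝ) 1 ∧
      x * √(V T / 2) < Real.log ‖riemannZeta (1 / 2 + (y : ℂ) * Complex.I + (u : ℂ) * (T : ℂ) * Complex.I)‖} -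
    (1 - Phi x)| ≤ C * ((1 + x) * l3 T ^ 5 / √(V T)) * (1 - Phi x)

end Pool.Agent.Q276.CD
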