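import Pool.Agent.Q276.CD.AllJ
import Pool.Agent.Q276.CD.Stm3
import Pool.Agent.Q276.CD.Finq

set_option autoImplicit false

/-! All the lemmas together, quantitative form. -/

namespace Pool.Agent.Q276.CD

open Filter MeasureTheory

theorem cramerq : P_CQ := finalq g_M2 g_M7 g_LOCF g_EXPO g_TINY

end Pool.Agent.Q276.CD
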