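import Pool.Agent.Q276.CD.Ob

set_option autoImplicit false

/-! The coefficients of the tilting polynomial, and of its product with the mollified zeta function. -/

namespace Pool.Agent.Q276.CD

open Finset Filter

/-- local values of the exponential -/
noncomputable def ek (k : ℝ) (_p j : ℕ) : ℝ := k ^ j / (j.factorial : ℝ)

open Classical in
/-- coefficients of the truncated exponential of `k ∑_{p<N} p^{-s}` -/
noncomputable def aI (k : ℝ) (N d : ℕ) : ArithmeticFunction ℝ :=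
  ⟨fun n => if n ∈ Nat.smoothNumbers N ∧ Ob 0 N n ≤ d then mf (ek k) n else 0, by
    rw [if_neg]; rintro ⟨h, -⟩; exact (sm_iff.mp h).1 rfl⟩

/-- local values of the divisor function -/
def tl (_p j : ℕ) : ℝ := (j : ℝ) + 1

/-- the divisor function -/
noncomputable def tau (n : ℕ) : ℝ := mf tl n

/-- local values of the majorant -/
noncomputable def wl (k : ℝ) (N0 : ℕ) (p j : ℕ) : ℝ := if p < N0 then ek k p j else tl p j

section
variable {k : ℝ} {N N0 d0 N1 d1 d : ℕ}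

open Classical in
lemma aI_apply (n : ℕ) : aI k N d n = if n ∈ Nat.smoothNumbers N ∧ Ob 0 N n ≤ d then mf (ek k) n else 0 := rfl

lemma ek_zero (k : ℝ) (p : ℕ) : ek k p 0 = 1 := by simp [ek]

lemma ek_nonneg (hk : 0 ≤ k) (p j : ℕ) : 0 ≤ ek k p j := by unfold ek; positivity

lemma ek_abs_le_one (hk : |k| ≤ 1) (p j : ℕ) : |ek k p j| ≤ 1 := by
  unfold ek
  rw [abs_div, abs_pow, Nat.abs_cast]
  have h1 : |k| ^ j ≤ 1 := pow_le_one₀ (abs_nonneg _) hk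
  have h2 : (1:ℝ) ≤ (j.factorial : ℝ) := by exact_mod_cast Nat.one_le_iff_ne_zero.mpr j.factorial_ne_zero
  rw [div_le_one (by linarith)]
  linarith

lemma tl_nonneg (p j : ℕ) : 0 ≤ tl p j := by unfold tl; positivity

lemma tl_zero (p : ℕ) : tl p 0 = 1 := by simp [tl]

lemma wl_zero (p : ℕ) : wl k N0 p 0 = 1 := by unfold wl; split_ifs <;> simp [ek, tl]

lemma wl_nonneg (hk : 0 ≤ k) (p j : ℕ) : 0 ≤ wl k N0 p j := by
  unfold wl; split_ifs
  · exact ek_nonneg hk p j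
  · exact tl_nonneg p j

lemma mf_abs (φ : ℕ → ℕ → ℝ) (n : ℕ) : |mf φ n| = mf (fun p j => |φ p j|) n := by
  unfold mf
  rw [abs_prod]

lemma mf_le_one {φ : ℕ → ℕ → ℝ} (h0 : ∀ p j, 0 ≤ φ p j) (h1 : ∀ p j, φ p j ≤ 1) (n : ℕ) : mf φ n ≤ 1 :=
  prod_le_one (fun _ _ => h0 _ _) fun _ _ => h1 _ _

lemma mf_le {φ ψ : ℕ → ℕ → ℝ} (h0 : ∀ p j, 0 ≤ φ p j) (n : ℕ)
    (h1 : ∀ p ∈ n.primeFactors, φ p (n.factorization p) ≤ ψ p (n.factorization p)) : mf φ n ≤ mf ψ n :=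
  prod_le_prod (fun _ _ => h0 _ _) h1

lemma mf_congr {φ ψ : ℕ → ℕ → ℝ} {n : ℕ}
    (h1 : ∀ p ∈ n.primeFactors, φ p (n.factorization p) = ψ p (n.factorization p)) : mf φ n = mf ψ n :=
  prod_congr rfl h1

lemma mf_mul_fun (φ ψ : ℕ → ℕ → ℝ) (n : ℕ) : mf (fun p j => φ p j * ψ p j) n = mf φ n * mf ψ n := by
  unfold mf; rw [prod_mul_distrib]

lemma mf_pow_fun (φ : ℕ → ℕ → ℝ) (m n : ℕ) : mf (fun p j => φ p j ^ m) n = mf φ n ^ m := by
  unfold mf; rw [prod_pow]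

lemma tau_eq {n : ℕ} (hn : n ≠ 0) : tau n = (n.divisors.card : ℝ) := by
  unfold tau mf tl
  rw [Nat.card_divisors hn]
  push_cast
  rfl

lemma tau_nonneg (n : ℕ) : 0 ≤ tau n := mf_nonneg tl_nonneg n

lemma one_le_tau {n : ℕ} (hn : n ≠ 0) : 1 ≤ tau n := by
  rw [tau_eq hn]
  have : 0 < n.divisors.card := card_pos.mpr ⟨1, Nat.mem_divisors.mpr ⟨one_dvd n, hn⟩⟩
  exact_mod_cast this

lemma tau_mono {m n : ℕ} (h : m ∣ n) (hn : n ≠ 0) : tau m ≤ tau n := by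
  have hm : m ≠ 0 := fun h0 => hn (by subst h0; exact Nat.eq_zero_of_zero_dvd h)
  rw [tau_eq hm, tau_eq hn]
  exact_mod_cast card_le_card (Nat.divisors_subset_of_dvd hn h)

lemma aI_abs (hk : |k| ≤ 1) (n : ℕ) : |aI k N d n| ≤ 1 := by
  classical
  rw [aI_apply]
  split_ifs
  · rw [mf_abs]
    exact mf_le_one (fun _ _ => abs_nonneg _) (fun p j => ek_abs_le_one hk p j) n
  · simp

lemma aI_nonneg (hk : 0 ≤ k) (n : ℕ) : 0 ≤ aI k N d n := by
  classical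
  rw [aI_apply]
  split_ifs
  · exact mf_nonneg (ek_nonneg hk) n
  · exact le_rfl

/-- the full convolution -/
noncomputable def cM (k : ℝ) (N0 d0 N1 d1 : ℕ) : ArithmeticFunction ℝ := aI k N0 d0 * gM N0 d0 N1 d1

lemma cM_apply (n : ℕ) : cM k N0 d0 N1 d1 n = ∑ d ∈ n.divisors, aI k N0 d0 d * gM N0 d0 N1 d1 (n / d) := by
  unfold cM
  rw [ArithmeticFunction.mul_apply, Nat.sum_divisorsAntidiagonal (fun i j => aI k N0 d0 i * gM N0 d0 N1 d1 j)]

lemma cM_abs (hk : |k| ≤ 1) {n : ℕ} (hn : n ≠ 0) : |cM k N0 d0 N1 d1 n| ≤ tau n ^ 2 := by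
  rw [cM_apply]
  refine (abs_sum_le_sum_abs _ _).trans ?_
  have h1 : ∀ d ∈ n.divisors, |aI k N0 d0 d * gM N0 d0 N1 d1 (n / d)| ≤ tau n := by
    intro d hd
    rw [Nat.mem_divisors] at hd
    have hnd : n / d ≠ 0 := by
      have := Nat.div_pos (Nat.le_of_dvd (Nat.pos_of_ne_zero hn) hd.1) (Nat.pos_of_dvd_of_pos hd.1 (Nat.pos_of_ne_zero hn))
      omega
    rw [abs_mul]
    calc |aI k N0 d0 d| * |gM N0 d0 N1 d1 (n / d)| ≤ 1 * tau (n / d) := by
          refine mul_le_mul (aI_abs hk d) ?_ (abs_nonneg _) zero_le_one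
          rw [tau_eq hnd]
          exact gM_abs _
      _ ≤ tau n := by rw [one_mul]; exact tau_mono (Nat.div_dvd_of_dvd hd.1) hn
  refine (sum_le_sum h1).trans ?_
  rw [sum_const, nsmul_eq_mul, ← tau_eq hn, sq]

/-- the essential term of the convolution -/
lemma cM_one_term (h01 : N0 ≤ N1) {n : ℕ} (hn : n ≠ 0) (ho : Ob 0 N0 n ≤ d0) :
    cM k N0 d0 N1 d1 n = 0 ∨ ∃ d e : ℕ, d * e = n ∧ d ∈ Nat.smoothNumbers N0 ∧ (∀ p, p.Prime → p ∣ e → N0 ≤ p) ∧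
      cM k N0 d0 N1 d1 n = aI k N0 d0 d * gM N0 d0 N1 d1 e := by
  classical
  by_cases h : cM k N0 d0 N1 d1 n = 0
  · exact Or.inl h
  right
  rw [cM_apply] at h ⊢
  obtain ⟨d, hd, hne⟩ := exists_ne_zero_of_sum_ne_zero h
  rw [Nat.mem_divisors] at hd
  -- properties of the nonzero terms
  have key : ∀ d, d ∣ n → aI k N0 d0 d * gM N0 d0 N1 d1 (n / d) ≠ 0 →
      d ∈ Nat.smoothNumbers N0 ∧ ∀ p, p.Prime → p ∣ n / d → N0 ≤ p := by
    intro d hd hne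
    have ha : aI k N0 d0 d ≠ 0 := left_ne_zero_of_mul hne
    have hg : gM N0 d0 N1 d1 (n / d) ≠ 0 := right_ne_zero_of_mul hne
    have hnd : n / d ≠ 0 := by
      have := Nat.div_pos (Nat.le_of_dvd (Nat.pos_of_ne_zero hn) hd) (Nat.pos_of_dvd_of_pos hd (Nat.pos_of_ne_zero hn))
      omega
    constructor
    · rw [aI_apply] at ha
      by_contra hc
      exact ha (if_neg fun h => hc h.1)
    · intro p hp hpd
      by_contra hc
      push Not at hc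
      refine hg (gM_zero_of h01 hnd hp hpd (Or.inl ⟨hc, ?_⟩))
      exact (Ob_le_of_dvd 0 N0 (Nat.div_dvd_of_dvd hd) hn).trans ho
  obtain ⟨k1, k2⟩ := key d hd.1 hne
  refine ⟨d, n / d, Nat.mul_div_cancel' hd.1, k1, k2, ?_⟩
  refine sum_eq_single d ?_ ?_
  · intro d' hd' hne'
    rw [Nat.mem_divisors] at hd'
    by_contra hc
    obtain ⟨j1, j2⟩ := key d' hd'.1 hc
    apply hne'
    have aux : ∀ a b : ℕ, a ∣ n → b ∣ n → a ∈ Nat.smoothNumbers N0 → (∀ p, p.Prime → p ∣ n / b → N0 ≤ p) → a ∣ b := by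
      intro a b ha hb h1 h2
      have hcop : Nat.Coprime a (n / b) := by
        refine Nat.coprime_of_dvd fun p hp ha' hb' => ?_
        have := (sm_iff.mp h1).2 p hp ha'
        have := h2 p hp hb'
        omega
      have : a ∣ b * (n / b) := by rw [Nat.mul_div_cancel' hb]; exact ha
      exact hcop.dvd_of_dvd_mul_right this
    exact Nat.dvd_antisymm (aux d' d hd'.1 hd.1 j1 k2) (aux d d' hd.1 hd'.1 k1 j2)
  · intro hc
    exact absurd (Nat.mem_divisors.mpr hd) hc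

lemma wl_split (hk : 0 ≤ k) {d e : ℕ} (hd : d ∈ Nat.smoothNumbers N0) (he : ∀ p, p.Prime → p ∣ e → N0 ≤ p)
    (he0 : e ≠ 0) : mf (wl k N0) (d * e) = mf (ek k) d * tau e := by
  have hcop : Nat.Coprime d e := by
    refine Nat.coprime_of_dvd fun p hp h1 h2 => ?_
    have := (sm_iff.mp hd).2 p hp h1
    have := he p hp h2
    omega
  rw [mf_mul _ hcop]
  congr 1
  · refine mf_congr fun p hp => ?_
    rw [Nat.mem_primeFactors] at hp
    unfold wl
    rw [if_pos ((sm_iff.mp hd).2 p hp.1 hp.2.1)]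
  · unfold tau
    refine mf_congr fun p hp => ?_
    rw [Nat.mem_primeFactors] at hp
    unfold wl
    rw [if_neg]
    have := he p hp.1 hp.2.1
    omega

/-- the majorant -/
lemma cM_le (hk : 0 ≤ k) (h01 : N0 ≤ N1) {n : ℕ} (hn : n ≠ 0) (ho : Ob 0 N0 n ≤ d0) :
    |cM k N0 d0 N1 d1 n| ≤ mf (wl k N0) n := by
  classical
  rcases cM_one_term (k := k) (d1 := d1) h01 hn ho with h | ⟨d, e, hde, h1, h2, h3⟩
  · rw [h, abs_zero]; exact mf_nonneg (wl_nonneg hk) n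
  · have hd0 : d ≠ 0 := left_ne_zero_of_mul (hde ▸ hn)
    have he0 : e ≠ 0 := right_ne_zero_of_mul (hde ▸ hn)
    rw [h3, ← hde, wl_split hk h1 h2 he0, abs_mul]
    refine mul_le_mul ?_ ?_ (abs_nonneg _) (mf_nonneg (ek_nonneg hk) d)
    · rw [abs_of_nonneg (aI_nonneg hk d), aI_apply]
      split_ifs
      · exact le_rfl
      · exact mf_nonneg (ek_nonneg hk) d
    · rw [tau_eq he0]
      exact gM_abs e

/-- the values in the good case -/
lemma cM_good (hk : 0 ≤ k) (h01 : N0 ≤ N1) {n : ℕ} (hn : n ≠ 0) (ho : Ob 0 N0 n ≤ d0) (ho1 : Ob N0 N1 n ≤ d1) :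
    0 ≤ cM k N0 d0 N1 d1 n := by
  rcases cM_one_term (k := k) (d1 := d1) h01 hn ho with h | ⟨d, e, hde, h1, h2, h3⟩
  · rw [h]
  · have he0 : e ≠ 0 := right_ne_zero_of_mul (hde ▸ hn)
    rw [h3]
    refine mul_nonneg (aI_nonneg hk d) ?_
    by_cases hq : ∃ q, q.Prime ∧ q ∣ e ∧ q < N1
    · obtain ⟨q, q1, q2, q3⟩ := hq
      rw [gM_zero_of h01 he0 q1 q2 (Or.inr ⟨h2 q q1 q2, q3, ?_⟩)]
      exact (Ob_le_of_dvd N0 N1 ⟨d, by rw [← hde, mul_comm]⟩ hn).trans ho1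
    · push Not at hq
      rw [gM_one_of he0 hq]
      exact zero_le_one

/-- vanishing -/
lemma cM_zero (h01 : N0 ≤ N1) {n q : ℕ} (hn : n ≠ 0) (ho : Ob 0 N0 n ≤ d0) (ho1 : Ob N0 N1 n ≤ d1)
    (hq : q.Prime) (hqn : q ∣ n) (hq0 : N0 ≤ q) (hq1 : q < N1) : cM k N0 d0 N1 d1 n = 0 := by
  rcases cM_one_term (k := k) (d1 := d1) h01 hn ho with h | ⟨d, e, hde, h1, h2, h3⟩
  · exact h
  · have he0 : e ≠ 0 := right_ne_zero_of_mul (hde ▸ hn)
    have hqe : q ∣ e := by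
      rw [← hde] at hqn
      rcases (Nat.Prime.dvd_mul hq).mp hqn with h | h
      · have := (sm_iff.mp h1).2 q hq h; omega
      · exact h
    rw [h3, gM_zero_of h01 he0 hq hqe (Or.inr ⟨hq0, hq1, ?_⟩), mul_zero]
    exact (Ob_le_of_dvd N0 N1 ⟨d, by rw [← hde, mul_comm]⟩ hn).trans ho1

/-- the values at the smooth numbers -/
lemma cM_smooth (h01 : N0 ≤ N1) {n : ℕ} (hn : n ∈ Nat.smoothNumbers N0) (ho : Ob 0 N0 n ≤ d0) :
    cM k N0 d0 N1 d1 n = aI k N0 d0 n := by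
  classical
  have hn0 := (sm_iff.mp hn).1
  rw [cM_apply, sum_eq_single n]
  · rw [Nat.div_self (Nat.pos_of_ne_zero hn0), gM_one_of one_ne_zero
      (fun p hp hd => absurd (Nat.dvd_one.mp hd) hp.ne_one), mul_one]
  · intro d hd hne
    rw [Nat.mem_divisors] at hd
    have hnd : n / d ≠ 1 := by
      intro h
      apply hne
      have := Nat.div_mul_cancel hd.1
      rw [h, one_mul] at this
      exact this
    obtain ⟨q, hq, hqd⟩ := Nat.exists_prime_and_dvd hnd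
    have hnd0 : n / d ≠ 0 := by
      have := Nat.div_pos (Nat.le_of_dvd (Nat.pos_of_ne_zero hn0) hd.1) (Nat.pos_of_dvd_of_pos hd.1 (Nat.pos_of_ne_zero hn0))
      omega
    rw [gM_zero_of h01 hnd0 hq hqd (Or.inl ⟨(sm_iff.mp hn).2 q hq (hqd.trans (Nat.div_dvd_of_dvd hd.1)), ?_⟩), mul_zero]
    exact (Ob_le_of_dvd 0 N0 (Nat.div_dvd_of_dvd hd.1) hn0).trans ho
  · intro hc
    exact absurd (Nat.mem_divisors.mpr ⟨dvd_rfl, hn0⟩) hc

end

end Pool.Agent.Q276.CD
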