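import Pool.Agent.Q276.CD.Stm

set_option autoImplicit false

/-! Sums over smooth numbers of functions with given local values. -/

namespace Pool.Agent.Q276.CD

open Finset Filter

/-- the function with the local values `φ p j` -/
noncomputable def mf (φ : ℕ → ℕ → ℝ) (n : ℕ) : ℝ := ∏ p ∈ n.primeFactors, φ p (n.factorization p)

lemma mf_one (φ : ℕ → ℕ → ℝ) : mf φ 1 = 1 := by simp [mf]

lemma mf_zero (φ : ℕ → ℕ → ℝ) : mf φ 0 = 1 := by simp [mf]

lemma mf_mul (φ : ℕ → ℕ → ℝ) {m n : ℕ} (h : Nat.Coprime m n) : mf φ (m * n) = mf φ m * mf φ n := by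
  rcases Nat.eq_zero_or_pos m with hm | hm
  · subst hm
    rw [Nat.coprime_zero_left] at h
    subst h
    simp [mf]
  rcases Nat.eq_zero_or_pos n with hn | hn
  · subst hn
    rw [Nat.coprime_zero_right] at h
    subst h
    simp [mf]
  unfold mf
  rw [Nat.Coprime.primeFactors_mul h, prod_union (Nat.Coprime.disjoint_primeFactors h)]
  congr 1
  · refine prod_congr rfl fun p hp => ?_
    rw [Nat.factorization_mul hm.ne' hn.ne', Finsupp.add_apply]
    have : n.factorization p = 0 := by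
      rw [Nat.factorization_eq_zero_iff]
      right; left
      intro hd
      rw [Nat.mem_primeFactors] at hp
      exact hp.1.one_lt.ne' (Nat.dvd_one.mp (h ▸ Nat.dvd_gcd hp.2.1 hd))
    rw [this, add_zero]
  · refine prod_congr rfl fun p hp => ?_
    rw [Nat.factorization_mul hm.ne' hn.ne', Finsupp.add_apply]
    have : m.factorization p = 0 := by
      rw [Nat.factorization_eq_zero_iff]
      right; left
      intro hd
      rw [Nat.mem_primeFactors] at hp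
      exact hp.1.one_lt.ne' (Nat.dvd_one.mp (h ▸ Nat.dvd_gcd hd hp.2.1))
    rw [this, zero_add]

lemma mf_prime_pow {φ : ℕ → ℕ → ℝ} {p : ℕ} (hp : p.Prime) (h0 : φ p 0 = 1) (j : ℕ) : mf φ (p ^ j) = φ p j := by
  rcases Nat.eq_zero_or_pos j with hj | hj
  · subst hj
    rw [pow_zero, mf_one, h0]
  · unfold mf
    rw [Nat.primeFactors_prime_pow hj.ne' hp, prod_singleton, hp.factorization_pow, Finsupp.single_eq_same]

lemma mf_nonneg {φ : ℕ → ℕ → ℝ} (h : ∀ p j, 0 ≤ φ p j) (n : ℕ) : 0 ≤ mf φ n := prod_nonneg fun _ _ => h _ _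

/-- the summand -/
noncomputable def sf (N : ℕ) (h : ℕ → ℝ) : ℕ → ℝ := (Nat.smoothNumbers N).indicator fun n => h n / (n : ℝ)

/-- summability over the smooth numbers -/
def Sb (N : ℕ) (h : ℕ → ℝ) : Prop := Summable (sf N h)

/-- the sum of `h n / n` over the smooth numbers -/
noncomputable def SS (N : ℕ) (h : ℕ → ℝ) : ℝ := ∑' n, sf N h n

lemma sf_nonneg {N : ℕ} {h : ℕ → ℝ} (hh : ∀ n ∈ Nat.smoothNumbers N, 0 ≤ h n) (n : ℕ) : 0 ≤ sf N h n := by
  unfold sf
  refine Set.indicator_nonneg (fun n hn => ?_) n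
  exact div_nonneg (hh n hn) (Nat.cast_nonneg n)

lemma SS_nonneg {N : ℕ} {h : ℕ → ℝ} (hh : ∀ n ∈ Nat.smoothNumbers N, 0 ≤ h n) : 0 ≤ SS N h :=
  tsum_nonneg (sf_nonneg hh)

/-- the Euler product -/
theorem ep_main {φ : ℕ → ℕ → ℝ} (h0 : ∀ p, φ p 0 = 1)
    (hs : ∀ p : ℕ, p.Prime → Summable fun j : ℕ => |φ p j| / (p : ℝ) ^ j) (N : ℕ) :
    Summable (fun n => |sf N (mf φ) n|) ∧ SS N (mf φ) = ∏ p ∈ Nat.primesBelow N, ∑' j : ℕ, φ p j / (p : ℝ) ^ j := by
  have h1 : (fun n : ℕ => mf φ n / (n : ℝ)) 1 = 1 := by simp [mf_one]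
  have h2 : ∀ {m n : ℕ}, Nat.Coprime m n → (fun n : ℕ => mf φ n / (n : ℝ)) (m * n) =
      (fun n : ℕ => mf φ n / (n : ℝ)) m * (fun n : ℕ => mf φ n / (n : ℝ)) n := by
    intro m n h
    simp only
    rw [mf_mul φ h]
    push_cast
    rw [mul_div_mul_comm]
  have h3 : ∀ {p : ℕ}, p.Prime → ∀ j : ℕ, mf φ (p ^ j) / ((p ^ j : ℕ) : ℝ) = φ p j / (p : ℝ) ^ j := by
    intro p hp j
    rw [mf_prime_pow hp (h0 p)]
    push_cast
    rfl
  have h4 : ∀ {p : ℕ}, p.Prime → Summable fun j : ℕ => ‖(fun n : ℕ => mf φ n / (n : ℝ)) (p ^ j)‖ := by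
    intro p hp
    simp only [h3 hp]
    refine (hs p hp).congr fun j => ?_
    rw [Real.norm_eq_abs, abs_div, abs_of_nonneg (pow_nonneg (Nat.cast_nonneg p) j : (0:ℝ) ≤ (p:ℝ) ^ j)]
  obtain ⟨e1, e2⟩ := EulerProduct.summable_and_hasSum_smoothNumbers_prod_primesBelow_tsum (R := ℝ)
    (f := fun n : ℕ => mf φ n / (n : ℝ)) h1 h2 h4 N
  constructor
  · have := e1
    rw [show (fun m : N.smoothNumbers => ‖(fun n : ℕ => mf φ n / (n : ℝ)) m‖) =
      (fun n : ℕ => |mf φ n / (n:ℝ)|) ∘ ((↑) : N.smoothNumbers → ℕ) from rfl, summable_subtype_iff_indicator] at this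
    refine this.congr fun n => ?_
    unfold sf
    by_cases hn : n ∈ Nat.smoothNumbers N
    · rw [Set.indicator_of_mem hn, Set.indicator_of_mem hn]
    · rw [Set.indicator_of_notMem hn, Set.indicator_of_notMem hn, abs_zero]
  · unfold SS sf
    rw [← _root_.tsum_subtype, e2.tsum_eq]
    refine prod_congr rfl fun p hp => ?_
    simp only [h3 (Nat.prime_of_mem_primesBelow hp)]

theorem ep_bound {φ : ℕ → ℕ → ℝ} (h0 : ∀ p, φ p 0 = 1) (hφ : ∀ p j, 0 ≤ φ p j)
    (hs : ∀ p : ℕ, p.Prime → Summable fun j : ℕ => φ p j / (p : ℝ) ^ j) {N : ℕ} {c : ℕ → ℝ}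
    (hc : ∀ p : ℕ, p.Prime → p < N → ∑' j : ℕ, φ p j / (p : ℝ) ^ j ≤ Real.exp (c p)) :
    Sb N (mf φ) ∧ SS N (mf φ) ≤ Real.exp (∑ p ∈ Nat.primesBelow N, c p) := by
  have hs' : ∀ p : ℕ, p.Prime → Summable fun j : ℕ => |φ p j| / (p : ℝ) ^ j := by
    intro p hp
    exact (hs p hp).congr fun j => by rw [abs_of_nonneg (hφ p j)]
  obtain ⟨e1, e2⟩ := ep_main h0 hs' N
  refine ⟨?_, ?_⟩
  · unfold Sb
    refine e1.congr fun n => ?_
    exact abs_of_nonneg (sf_nonneg (fun n _ => mf_nonneg hφ n) n)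
  · rw [e2, Real.exp_sum]
    refine prod_le_prod (fun p _ => tsum_nonneg fun j => div_nonneg (hφ p j) (by positivity)) fun p hp => ?_
    exact hc p (Nat.prime_of_mem_primesBelow hp) (Nat.lt_of_mem_primesBelow hp)

lemma Sb_of_le {N : ℕ} {f g : ℕ → ℝ} (hg : Sb N g) (h : ∀ n ∈ Nat.smoothNumbers N, |f n| ≤ g n) : Sb N f := by
  unfold Sb at hg ⊢
  refine Summable.of_norm_bounded hg fun n => ?_
  unfold sf
  by_cases hn : n ∈ Nat.smoothNumbers N
  · rw [Set.indicator_of_mem hn, Set.indicator_of_mem hn, Real.norm_eq_abs, abs_div, Nat.abs_cast]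
    exact div_le_div_of_nonneg_right (h n hn) (Nat.cast_nonneg n)
  · rw [Set.indicator_of_notMem hn, Set.indicator_of_notMem hn, norm_zero]

lemma SS_le {N : ℕ} {f g : ℕ → ℝ} (hf : Sb N f) (hg : Sb N g) (h : ∀ n ∈ Nat.smoothNumbers N, f n ≤ g n) :
    SS N f ≤ SS N g := by
  unfold SS
  refine hf.tsum_le_tsum (fun n => ?_) hg
  unfold sf
  by_cases hn : n ∈ Nat.smoothNumbers N
  · rw [Set.indicator_of_mem hn, Set.indicator_of_mem hn]
    exact div_le_div_of_nonneg_right (h n hn) (Nat.cast_nonneg n)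
  · rw [Set.indicator_of_notMem hn, Set.indicator_of_notMem hn]

lemma sf_add (N : ℕ) (f g : ℕ → ℝ) : sf N (fun n => f n + g n) = fun n => sf N f n + sf N g n := by
  funext n
  unfold sf
  by_cases hn : n ∈ Nat.smoothNumbers N
  · rw [Set.indicator_of_mem hn, Set.indicator_of_mem hn, Set.indicator_of_mem hn, add_div]
  · rw [Set.indicator_of_notMem hn, Set.indicator_of_notMem hn, Set.indicator_of_notMem hn, add_zero]

lemma sf_const_mul (N : ℕ) (a : ℝ) (f : ℕ → ℝ) : sf N (fun n => a * f n) = fun n => a * sf N f n := by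
  funext n
  unfold sf
  by_cases hn : n ∈ Nat.smoothNumbers N
  · rw [Set.indicator_of_mem hn, Set.indicator_of_mem hn, mul_div_assoc]
  · rw [Set.indicator_of_notMem hn, Set.indicator_of_notMem hn, mul_zero]

lemma Sb.add {N : ℕ} {f g : ℕ → ℝ} (hf : Sb N f) (hg : Sb N g) : Sb N fun n => f n + g n := by
  unfold Sb at *
  rw [sf_add]
  exact hf.add hg

lemma Sb.const_mul {N : ℕ} {f : ℕ → ℝ} (hf : Sb N f) (a : ℝ) : Sb N fun n => a * f n := by
  unfold Sb at *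
  rw [sf_const_mul]
  exact hf.mul_left a

lemma SS_add {N : ℕ} {f g : ℕ → ℝ} (hf : Sb N f) (hg : Sb N g) : SS N (fun n => f n + g n) = SS N f + SS N g := by
  unfold SS
  rw [sf_add]
  exact hf.tsum_add hg

lemma SS_const_mul (N : ℕ) (a : ℝ) (f : ℕ → ℝ) : SS N (fun n => a * f n) = a * SS N f := by
  unfold SS
  rw [sf_const_mul]
  exact tsum_mul_left

lemma SS_congr {N : ℕ} {f g : ℕ → ℝ} (h : ∀ n ∈ Nat.smoothNumbers N, f n = g n) : SS N f = SS N g := by
  unfold SS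
  congr 1
  funext n
  unfold sf
  by_cases hn : n ∈ Nat.smoothNumbers N
  · rw [Set.indicator_of_mem hn, Set.indicator_of_mem hn, h n hn]
  · rw [Set.indicator_of_notMem hn, Set.indicator_of_notMem hn]

/-- finite sums are at most the sum over the smooth numbers -/
lemma fin_le_SS {N : ℕ} {g : ℕ → ℝ} (hg : Sb N g) (hg0 : ∀ n ∈ Nat.smoothNumbers N, 0 ≤ g n) {F : Finset ℕ}
    (hF : ∀ n ∈ F, n ∈ Nat.smoothNumbers N) : ∑ n ∈ F, g n / (n : ℝ) ≤ SS N g := by
  have h1 : ∑ n ∈ F, g n / (n : ℝ) = ∑ n ∈ F, sf N g n := by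
    refine sum_congr rfl fun n hn => ?_
    unfold sf
    rw [Set.indicator_of_mem (hF n hn)]
  rw [h1]
  exact hg.sum_le_tsum F fun n _ => sf_nonneg hg0 n

end Pool.Agent.Q276.CD
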