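import Pool.Agent.Q276.CD.Stm2

set_option autoImplicit false

/-! Elementary lemmas for the assembly. -/

namespace Pool.Agent.Q276.CD

open Finset Filter MeasureTheory

lemma exp_rem {a : ℝ} (ha : 0 ≤ a) (n : ℕ) :
    Real.exp a - ∑ m ∈ range n, a ^ m / (m.factorial : ℝ) ≤ a ^ n / (n.factorial : ℝ) * Real.exp a := by
  have hs : HasSum (fun j : ℕ => a ^ j / (j.factorial : ℝ)) (Real.exp a) := by
    rw [Real.exp_eq_exp_ℝ]
    exact NormedSpace.expSeries_div_hasSum_exp (𝔸 := ℝ) _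
  have h1 := hs.summable.sum_add_tsum_nat_add n
  rw [hs.tsum_eq] at h1
  have h2 : ∑' m : ℕ, a ^ (m + n) / ((m + n).factorial : ℝ) ≤ ∑' m : ℕ, a ^ n / (n.factorial : ℝ) * (a ^ m / (m.factorial : ℝ)) := by
    refine Summable.tsum_le_tsum (fun m => ?_) ((summable_nat_add_iff n).mpr hs.summable) (hs.summable.mul_left _)
    have h3 : (m.factorial * n.factorial : ℕ) ≤ (m + n).factorial :=
      Nat.le_of_dvd (Nat.factorial_pos _) (Nat.factorial_mul_factorial_dvd_factorial_add m n)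
    have h4 : ((m.factorial : ℝ) * (n.factorial : ℝ)) ≤ ((m + n).factorial : ℝ) := by exact_mod_cast h3
    have h5 : (0:ℝ) < m.factorial := by exact_mod_cast m.factorial_pos
    have h6 : (0:ℝ) < n.factorial := by exact_mod_cast n.factorial_pos
    rw [div_mul_div_comm, pow_add, mul_comm (a ^ m), mul_comm (n.factorial : ℝ)]
    exact div_le_div_of_nonneg_left (by positivity) (by positivity) h4
  rw [tsum_mul_left, hs.tsum_eq] at h2
  linarith

/-- the truncated exponential is close to the exponential -/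
lemma trunc_close {d : ℕ} {z : ℂ} (hz : ‖z‖ ≤ (d:ℝ) / 20) :
    ‖(∑ j ∈ range (d + 1), z ^ j / (j.factorial : ℂ)) - Complex.exp z‖ ≤ 1 / 2 * ‖Complex.exp z‖ := by
  set a := ‖z‖ with ha
  have ha0 : 0 ≤ a := norm_nonneg z
  have h1 := Complex.norm_exp_sub_sum_le_exp_norm_sub_sum z (d + 1)
  rw [norm_sub_rev]
  refine h1.trans ((exp_rem ha0 (d + 1)).trans ?_)
  have h2 : Real.exp (-a) ≤ ‖Complex.exp z‖ := by
    rw [Complex.norm_exp]
    exact Real.exp_le_exp.mpr (by have := (abs_le.mp (Complex.abs_re_le_norm z)).1; linarith)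
  have h3 : (10 * a) ^ (d + 1) / ((d + 1).factorial : ℝ) ≤ Real.exp (10 * a) :=
    Real.pow_div_factorial_le_exp (10 * a) (by positivity) (d + 1)
  have h4 : a ^ (d + 1) / ((d + 1).factorial : ℝ) ≤ Real.exp (10 * a) / 10 ^ (d + 1) := by
    rw [le_div_iff₀ (by positivity)]
    calc a ^ (d + 1) / ((d + 1).factorial : ℝ) * 10 ^ (d + 1) = (10 * a) ^ (d + 1) / ((d + 1).factorial : ℝ) := by
          rw [mul_pow]; ring
      _ ≤ _ := h3
  have h5 : Real.exp (10 * a) / 10 ^ (d + 1) * Real.exp a ≤ 1 / 2 * Real.exp (-a) := by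
    have e1 : Real.exp (10 * a) * Real.exp a * Real.exp a ≤ 2 ^ (d + 1) := by
      rw [← Real.exp_add, ← Real.exp_add]
      have : (2:ℝ) ^ (d + 1) = Real.exp (Real.log 2 * (d + 1 : ℕ)) := by
        rw [mul_comm, Real.exp_nat_mul, Real.exp_log (by norm_num)]
      rw [this]
      refine Real.exp_le_exp.mpr ?_
      have := Real.log_two_gt_d9
      push_cast
      have hd : (0:ℝ) ≤ d := Nat.cast_nonneg d
      nlinarith
    have e2 : Real.exp (-a) * Real.exp a = 1 := by rw [← Real.exp_add]; simp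
    have e3 : (2:ℝ) ^ (d + 1) ≤ 1 / 2 * 10 ^ (d + 1) := by
      have : (10:ℝ) ^ (d + 1) = 2 ^ (d + 1) * 5 ^ (d + 1) := by rw [← mul_pow]; norm_num
      rw [this]
      have h5 : (2:ℝ) ≤ 5 ^ (d + 1) := by
        calc (2:ℝ) ≤ 5 ^ 1 := by norm_num
          _ ≤ 5 ^ (d + 1) := pow_le_pow_right₀ (by norm_num) (by omega)
      have : (0:ℝ) < 2 ^ (d + 1) := by positivity
      nlinarith
    have hE := Real.exp_pos a
    rw [div_mul_eq_mul_div, div_le_iff₀ (by positivity)]
    refine le_of_mul_le_mul_right ?_ hE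
    calc Real.exp (10 * a) * Real.exp a * Real.exp a ≤ 2 ^ (d + 1) := e1
      _ ≤ 1 / 2 * 10 ^ (d + 1) := e3
      _ = 1 / 2 * Real.exp (-a) * 10 ^ (d + 1) * Real.exp a := by
          calc _ = 1 / 2 * 10 ^ (d + 1) * 1 := by ring
            _ = 1 / 2 * 10 ^ (d + 1) * (Real.exp (-a) * Real.exp a) := by rw [e2]
            _ = _ := by ring
  calc a ^ (d + 1) / ((d + 1).factorial : ℝ) * Real.exp a ≤ Real.exp (10 * a) / 10 ^ (d + 1) * Real.exp a :=
        mul_le_mul_of_nonneg_right h4 (Real.exp_pos _).le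
    _ ≤ 1 / 2 * Real.exp (-a) := h5
    _ ≤ _ := mul_le_mul_of_nonneg_left h2 (by norm_num)

lemma trunc_bds {d : ℕ} {z : ℂ} (hz : ‖z‖ ≤ (d:ℝ) / 20) :
    1 / 2 * Real.exp z.re ≤ ‖∑ j ∈ range (d + 1), z ^ j / (j.factorial : ℂ)‖ ∧
    ‖∑ j ∈ range (d + 1), z ^ j / (j.factorial : ℂ)‖ ≤ 2 * Real.exp z.re := by
  have h := trunc_close hz
  rw [Complex.norm_exp] at h
  have h1 : ‖Complex.exp z‖ = Real.exp z.re := Complex.norm_exp z
  set S := ∑ j ∈ range (d + 1), z ^ j / (j.factorial : ℂ) with hS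
  have h2 : ‖Complex.exp z‖ ≤ ‖S‖ + ‖S - Complex.exp z‖ := by
    have e : Complex.exp z = S - (S - Complex.exp z) := by ring
    calc ‖Complex.exp z‖ = ‖S - (S - Complex.exp z)‖ := by rw [← e]
      _ ≤ _ := norm_sub_le _ _
  have h3 : ‖S‖ ≤ ‖Complex.exp z‖ + ‖S - Complex.exp z‖ := by
    have e : S = Complex.exp z + (S - Complex.exp z) := by ring
    calc ‖S‖ = ‖Complex.exp z + (S - Complex.exp z)‖ := by rw [← e]
      _ ≤ _ := norm_add_le _ _
  rw [h1] at h2 h3
  have := Real.exp_pos z.re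
  constructor <;> linarith

/-- the Gaussian tail -/
lemma Phi_tail : ∃ c : ℝ, 0 < c ∧ ∀ x : ℝ, 0 ≤ x → c * Real.exp (-(x ^ 2 / 2)) / (1 + x) ≤ 1 - Phi x := by
  refine ⟨(√(2 * Real.pi))⁻¹ * Real.exp (-(3 / 2)), by positivity, fun x hx => ?_⟩
  have hx1 : 0 < 1 + x := by linarith
  set δ : ℝ := 1 / (1 + x) with hδ
  have hδ0 : 0 < δ := by positivity
  have h1 : 1 - Phi x = (ProbabilityTheory.gaussianReal 0 1).real (Set.Ioi x) := by
    unfold Phi
    have := probReal_compl_eq_one_sub (μ := ProbabilityTheory.gaussianReal 0 1) (measurableSet_Iic (a := x))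
    rw [← this, Set.compl_Iic]
  rw [h1, measureReal_def, ProbabilityTheory.gaussianReal_apply_eq_integral 0 (by norm_num),
    ENNReal.toReal_ofReal (setIntegral_nonneg measurableSet_Ioi fun y _ => ProbabilityTheory.gaussianPDFReal_nonneg 0 1 y)]
  have hsub : Set.Ioc x (x + δ) ⊆ Set.Ioi x := fun y hy => hy.1
  have h2 : ∫ y in Set.Ioc x (x + δ), ProbabilityTheory.gaussianPDFReal 0 1 y ≤
      ∫ y in Set.Ioi x, ProbabilityTheory.gaussianPDFReal 0 1 y := by
    refine setIntegral_mono_set (ProbabilityTheory.integrable_gaussianPDFReal 0 1).integrableOn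
      (Eventually.of_forall fun y => ProbabilityTheory.gaussianPDFReal_nonneg 0 1 y) ?_
    exact hsub.eventuallyLE
  refine le_trans ?_ h2
  have h3 : ∀ y ∈ Set.Ioc x (x + δ), (√(2 * Real.pi))⁻¹ * Real.exp (-(3 / 2)) * Real.exp (-(x ^ 2 / 2)) ≤
      ProbabilityTheory.gaussianPDFReal 0 1 y := by
    intro y hy
    unfold ProbabilityTheory.gaussianPDFReal
    have e1 : √(2 * Real.pi * ((1:NNReal):ℝ)) = √(2 * Real.pi) := by simp
    rw [e1, mul_assoc, ← Real.exp_add]
    refine mul_le_mul_of_nonneg_left ?_ (by positivity)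
    refine Real.exp_le_exp.mpr ?_
    have hxd : x * δ ≤ 1 := by rw [hδ, mul_one_div, div_le_one hx1]; linarith
    have hd1 : δ ≤ 1 := by rw [hδ, div_le_one hx1]; linarith
    have h4 : y ^ 2 ≤ (x + δ) ^ 2 := pow_le_pow_left₀ (by linarith [hy.1]) hy.2 2
    simp only [NNReal.coe_one, sub_zero, mul_one]
    nlinarith
  have h4 := setIntegral_ge_of_const_le (μ := volume) measurableSet_Ioc (by simp) h3
    (ProbabilityTheory.integrable_gaussianPDFReal 0 1).integrableOn
  rw [Real.volume_real_Ioc_of_le (by linarith)] at h4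
  refine le_trans (le_of_eq ?_) h4
  rw [hδ]
  have : x + 1 / (1 + x) - x = 1 / (1 + x) := by ring
  rw [this]
  ring

/-- the powers of the first block are short -/
lemma y_size : ∀ᶠ T : ℝ in atTop, 1 ≤ y0 T ∧ y0 T ^ d0 T ≤ y2 T := by
  have hlog := Real.tendsto_log_atTop
  have hV : Tendsto V atTop atTop := hlog.comp hlog
  have h1 : ∀ᶠ T : ℝ in atTop, 100 * V T ^ 2 ≤ Real.log T := by
    have a1 := (Real.isLittleO_pow_log_id_atTop (n := 2)).def (show (0:ℝ) < 1 / 100 by norm_num)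
    filter_upwards [hlog.eventually a1, hlog.eventually_ge_atTop 1] with T h2 h3
    simp only [id, Real.norm_eq_abs] at h2
    rw [abs_of_nonneg (by positivity), abs_of_pos (by linarith)] at h2
    unfold V
    linarith
  filter_upwards [h1, hV.eventually_ge_atTop 10, eventually_ge_atTop 1] with T h2 h3 h4
  have hy1 : 1 ≤ y0 T := by unfold y0; omega
  refine ⟨hy1, ?_⟩
  unfold y2
  refine Nat.le_floor ?_
  push_cast
  set L := Real.log T with hL
  set v := V T with hv
  have hV2 : 100 ≤ v ^ 2 := by nlinarith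
  have hL0 : 0 < L := by nlinarith
  have hd : (d0 T : ℝ) ≤ 2 * v ^ 2 := by
    unfold d0
    have := Nat.ceil_lt_add_one (show 0 ≤ V T ^ 2 by positivity)
    linarith
  have hE : 1 ≤ Real.exp (L / v ^ 4) := Real.one_le_exp (by positivity)
  have hy : (y0 T : ℝ) ≤ 2 * Real.exp (L / v ^ 4) := by
    unfold y0
    push_cast
    have := Nat.floor_le (Real.exp_pos (L / v ^ 4)).le
    linarith
  have hyp : (0:ℝ) < y0 T := by exact_mod_cast hy1
  have hly : Real.log (y0 T) ≤ 1 + L / v ^ 4 := by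
    have := Real.log_le_log hyp hy
    rw [Real.log_mul (by norm_num) (Real.exp_pos _).ne', Real.log_exp] at this
    have := Real.log_two_lt_d9
    linarith
  have hly0 : 0 ≤ Real.log (y0 T) := Real.log_nonneg (by exact_mod_cast hy1)
  have key : (d0 T : ℝ) * Real.log (y0 T) ≤ L * (1 / 20) := by
    have a1 : (d0 T : ℝ) * Real.log (y0 T) ≤ (2 * v ^ 2) * (1 + L / v ^ 4) :=
      mul_le_mul hd hly hly0 (by positivity)
    have a2 : (2 * v ^ 2) * (1 + L / v ^ 4) = 2 * v ^ 2 + 2 * L / v ^ 2 := by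
      field_simp
    have a3 : 2 * L / v ^ 2 ≤ L / 50 := by
      rw [div_le_div_iff₀ (by positivity) (by norm_num)]
      nlinarith
    rw [a2] at a1
    linarith [h2]
  calc (y0 T : ℝ) ^ d0 T = Real.exp ((d0 T : ℝ) * Real.log (y0 T)) := by
        rw [Real.exp_nat_mul, Real.exp_log hyp]
    _ ≤ Real.exp (L * (1 / 20)) := Real.exp_le_exp.mpr key
    _ = T ^ ((1:ℝ) / 20) := by
        rw [Real.rpow_def_of_pos (by linarith)]

end Pool.Agent.Q276.CD
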