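import Pool.Agent.Q276.CD.Fin1

set_option autoImplicit false

/-! The assembly: pointwise inequalities and Markov inequalities. -/

namespace Pool.Agent.Q276.CD

open Finset Filter MeasureTheory

lemma markov_set {g : ℝ → ℝ} (hg : Continuous g) (h0 : ∀ t, 0 ≤ g t) {a T1 T2 : ℝ} (ha : 0 < a)
    {W S : Set ℝ} (hW : MeasurableSet W) (hW2 : W ⊆ Set.Icc T1 T2) (hS : S ⊆ W) (hSg : ∀ t ∈ S, a ≤ g t) :
    volume.real S ≤ (∫ t in W, g t) / a := by
  have hint : IntegrableOn g W := (hg.integrableOn_Icc (a := T1) (b := T2)).mono_set hW2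
  have h1 := mul_meas_ge_le_integral_of_nonneg (μ := volume.restrict W) (Eventually.of_forall h0) hint a
  rw [le_div_iff₀ ha, mul_comm]
  refine le_trans (mul_le_mul_of_nonneg_left ?_ ha.le) h1
  have h2 : (volume.restrict W).real {t | a ≤ g t} = volume.real ({t | a ≤ g t} ∩ W) := by
    rw [measureReal_def, Measure.restrict_apply (measurableSet_le measurable_const hg.measurable), measureReal_def]
  rw [h2]
  refine measureReal_mono (fun t ht => ⟨hSg t ht, hS ht⟩) ?_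
  have : volume ({t | a ≤ g t} ∩ W) ≤ volume (Set.Icc T1 T2) := measure_mono fun t ht => hW2 ht.2
  rw [Real.volume_Icc] at this
  exact (this.trans_lt ENNReal.ofReal_lt_top).ne

lemma markov_int {g : ℝ → ℝ} (hg : Continuous g) (h0 : ∀ t, 0 ≤ g t) {a T1 T2 B : ℝ} (ha : 0 < a) (h12 : T1 ≤ T2)
    {S : Set ℝ} (hS : S ⊆ Set.Icc T1 T2) (hSg : ∀ t ∈ S, a ≤ g t) (hB : ∫ t in T1..T2, g t ≤ B) :
    volume.real S ≤ B / a := by
  have h1 := markov_set hg h0 ha measurableSet_Icc (subset_refl (Set.Icc T1 T2)) hS hSg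
  rw [integral_Icc_eq_integral_Ioc, ← intervalIntegral.integral_of_le h12] at h1
  exact h1.trans (div_le_div_of_nonneg_right hB ha.le)

lemma zeta_cont : Continuous fun t : ℝ => riemannZeta (cl t) := by
  rw [continuous_iff_continuousAt]
  intro t
  have h1 : cl t ≠ 1 := by
    intro h
    have := congrArg Complex.re h
    simp [cl] at this
  exact ContinuousAt.comp (g := riemannZeta) (f := cl) (differentiableAt_riemannZeta h1).continuousAt
    (by unfold cl; fun_prop)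

lemma Dp_cont' (a : ℕ → ℂ) (Y : ℕ) : Continuous fun t : ℝ => Dp a Y (cl t) := by
  unfold Dp cl
  refine continuous_finsetSum _ fun n hn => continuous_const.mul ?_
  rw [mem_Icc] at hn
  have h0 : (n:ℂ) ≠ 0 := by exact_mod_cast (by omega : n ≠ 0)
  exact Continuous.const_cpow (by fun_prop) (Or.inl h0)

lemma Dr_cont' (f : ArithmeticFunction ℝ) (Y : ℕ) : Continuous fun t : ℝ => Dr f Y (cl t) := Dp_cont' _ _

lemma PS_cont (N : ℕ) : Continuous fun t : ℝ => PS N t := by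
  unfold PS
  refine continuous_finsetSum _ fun p hp => ?_
  have hp := Nat.prime_of_mem_primesBelow hp
  have h0 : (p:ℂ) ≠ 0 := by exact_mod_cast hp.ne_zero
  exact Continuous.const_cpow (by fun_prop) (Or.inl h0)

/-- bounds for the polynomials at the points where the prime sum is not large -/
lemma Dr_bds (hE : P_EXPO) {N d Y : ℕ} (hN : 1 ≤ N) (hY : N ^ d ≤ Y) {κ t : ℝ} (hκ : |κ| ≤ 2)
    (hP : ‖PS N t‖ ≤ (d:ℝ) / 40) :
    1 / 2 * Real.exp (κ * (PS N t).re) ≤ ‖Dr (aI κ N d) Y (cl t)‖ ∧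
    ‖Dr (aI κ N d) Y (cl t)‖ ≤ 2 * Real.exp (κ * (PS N t).re) := by
  rw [hE κ N d Y hN hY t]
  have h1 : ‖(κ : ℂ) * PS N t‖ ≤ (d:ℝ) / 20 := by
    rw [norm_mul, Complex.norm_real, Real.norm_eq_abs]
    calc |κ| * ‖PS N t‖ ≤ 2 * ((d:ℝ) / 40) := mul_le_mul hκ hP (norm_nonneg _) (by norm_num)
      _ = _ := by ring
  have h2 := trunc_bds h1
  rw [Complex.re_ofReal_mul] at h2
  exact h2

section
variable {T k r w t : ℝ}

lemma point_upper (hE : P_EXPO) (hy : 1 ≤ y0 T ∧ y0 T ^ d0 T ≤ y2 T) (hk0 : 0 ≤ k) (hk : k ≤ 1 / 2)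
    (hr : 0 ≤ r) (hw : 0 ≤ w) (hP : ‖PS (y0 T) t‖ ≤ (d0 T : ℝ) / 40) (h1 : r < Real.log ‖riemannZeta (cl t)‖)
    (h2 : (PS (y0 T) t).re ≤ r - w) :
    1 / 4 * Real.exp (2 * k * r + w) ≤
      ‖riemannZeta (cl t)‖ ^ 2 * ‖Dr (aI (k - 1) (y0 T) (d0 T)) (y2 T) (cl t)‖ ^ 2 := by
  set R := (PS (y0 T) t).re with hR
  have hb := (Dr_bds hE hy.1 hy.2 (κ := k - 1) (by rw [abs_le]; constructor <;> linarith) hP).1
  have hz : Real.exp r ≤ ‖riemannZeta (cl t)‖ := by
    have h3 : ‖riemannZeta (cl t)‖ ≠ 0 := by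
      intro h
      rw [h, Real.log_zero] at h1
      linarith
    have h4 : 0 < ‖riemannZeta (cl t)‖ := lt_of_le_of_ne (norm_nonneg _) (Ne.symm h3)
    exact ((Real.lt_log_iff_exp_lt h4).mp h1).le
  have h3 : Real.exp r ^ 2 ≤ ‖riemannZeta (cl t)‖ ^ 2 := pow_le_pow_left₀ (Real.exp_pos _).le hz 2
  have h4 := pow_le_pow_left₀ (by positivity) hb 2
  refine le_trans ?_ (mul_le_mul h3 h4 (by positivity) (by positivity))
  have e1 : Real.exp r ^ 2 * (1 / 2 * Real.exp ((k - 1) * R)) ^ 2 =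
      1 / 4 * Real.exp (2 * r + 2 * ((k - 1) * R)) := by
    rw [Real.exp_add, ← Real.exp_nat_mul, mul_pow, ← Real.exp_nat_mul]
    push_cast
    ring
  rw [e1]
  refine mul_le_mul_of_nonneg_left (Real.exp_le_exp.mpr ?_) (by norm_num)
  have h5 : (1 - k) * R ≤ (1 - k) * (r - w) := mul_le_mul_of_nonneg_left h2 (by linarith)
  nlinarith

lemma point_lower (hE : P_EXPO) (hy : 1 ≤ y0 T ∧ y0 T ^ d0 T ≤ y2 T) (hk0 : 0 ≤ k) (hk : k ≤ 1 / 2)
    (hw : 0 ≤ w) (hP : ‖PS (y0 T) t‖ ≤ (d0 T : ℝ) / 40) (h1 : Real.log ‖riemannZeta (cl t)‖ ≤ r)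
    (h2 : r + w < (PS (y0 T) t).re) :
    (‖riemannZeta (cl t) * MM T (cl t)‖ ≤ Real.exp (-(w / 2)) ∧ 1 / 4 * Real.exp (2 * k * r) ≤ ‖AA k T (cl t)‖ ^ 2) ∨
    1 / 4 * Real.exp (2 * k * r + w) ≤ ‖Dr (aI (k + 1) (y0 T) (d0 T)) (y2 T) (cl t) * MM T (cl t)‖ ^ 2 := by
  set R := (PS (y0 T) t).re with hR
  have hkR : k * r ≤ k * R := mul_le_mul_of_nonneg_left (by linarith) hk0
  by_cases hc : ‖riemannZeta (cl t) * MM T (cl t)‖ ≤ Real.exp (-(w / 2))
  · left
    refine ⟨hc, ?_⟩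
    have hb := (Dr_bds hE hy.1 hy.2 (κ := k) (by rw [abs_le]; constructor <;> linarith) hP).1
    have h4 := pow_le_pow_left₀ (by positivity) hb 2
    unfold AA
    refine le_trans ?_ h4
    rw [mul_pow, ← Real.exp_nat_mul]
    have : (1 / 2 : ℝ) ^ 2 = 1 / 4 := by norm_num
    rw [this]
    refine mul_le_mul_of_nonneg_left (Real.exp_le_exp.mpr ?_) (by norm_num)
    push_cast
    nlinarith
  · right
    push Not at hc
    have hz : ‖riemannZeta (cl t)‖ ≤ Real.exp (R - w) := by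
      have h3 : ‖riemannZeta (cl t)‖ ≤ Real.exp r := by
        rcases eq_or_lt_of_le (norm_nonneg (riemannZeta (cl t))) with h | h
        · rw [← h]; exact (Real.exp_pos _).le
        · exact (Real.log_le_iff_le_exp h).mp h1
      exact h3.trans (Real.exp_le_exp.mpr (by linarith))
    have hb := (Dr_bds hE hy.1 hy.2 (κ := k + 1) (by rw [abs_le]; constructor <;> linarith) hP).1
    have hM : Real.exp (w / 2 - R) ≤ ‖MM T (cl t)‖ := by
      rw [norm_mul] at hc
      have h5 : Real.exp (-(w / 2)) ≤ Real.exp (R - w) * ‖MM T (cl t)‖ :=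
        hc.le.trans (mul_le_mul_of_nonneg_right hz (norm_nonneg _))
      have e : Real.exp (-(w / 2)) = Real.exp (R - w) * Real.exp (w / 2 - R) := by
        rw [← Real.exp_add]; congr 1; ring
      rw [e] at h5
      exact le_of_mul_le_mul_left h5 (Real.exp_pos _)
    have h6 : 1 / 2 * Real.exp (k * R + w / 2) ≤
        ‖Dr (aI (k + 1) (y0 T) (d0 T)) (y2 T) (cl t) * MM T (cl t)‖ := by
      rw [norm_mul]
      calc 1 / 2 * Real.exp (k * R + w / 2) = (1 / 2 * Real.exp ((k + 1) * R)) * Real.exp (w / 2 - R) := by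
            rw [mul_assoc, ← Real.exp_add]; congr 2; ring
        _ ≤ _ := mul_le_mul hb hM (Real.exp_pos _).le (norm_nonneg _)
    have h7 := pow_le_pow_left₀ (by positivity) h6 2
    refine le_trans ?_ h7
    rw [mul_pow, ← Real.exp_nat_mul]
    have : (1 / 2 : ℝ) ^ 2 = 1 / 4 := by norm_num
    rw [this]
    refine mul_le_mul_of_nonneg_left (Real.exp_le_exp.mpr ?_) (by norm_num)
    push_cast
    nlinarith

end

end Pool.Agent.Q276.CD
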