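import Pool.Agent.Q276.CD.EP
import Pool.Agent.Helper256.KM.Mertens

set_option autoImplicit false

/-! Mertens estimates for the primes below `N`. -/

namespace Pool.Agent.Q276.CD

open Finset Filter

/-- `∑_{p < N} 1/p` -/
noncomputable def R1 (N : ℕ) : ℝ := ∑ p ∈ Nat.primesBelow N, 1 / (p : ℝ)

/-- `∑_{p < N} log p / p` -/
noncomputable def RL (N : ℕ) : ℝ := ∑ p ∈ Nat.primesBelow N, Real.log p / (p : ℝ)

lemma primesBelow_succ_eq (N : ℕ) : Nat.primesBelow (N + 1) = (Icc 1 N).filter Nat.Prime := by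
  ext p
  rw [Nat.mem_primesBelow, mem_filter, mem_Icc]
  constructor
  · rintro ⟨h1, h2⟩; exact ⟨⟨h2.one_le, by omega⟩, h2⟩
  · rintro ⟨⟨_, h1⟩, h2⟩; exact ⟨by omega, h2⟩

lemma R1_mono {M N : ℕ} (h : M ≤ N) : R1 M ≤ R1 N := by
  unfold R1
  refine sum_le_sum_of_subset_of_nonneg (fun p hp => ?_) fun _ _ _ => by positivity
  rw [Nat.mem_primesBelow] at hp ⊢
  exact ⟨by omega, hp.2⟩

lemma R1_nonneg (N : ℕ) : 0 ≤ R1 N := sum_nonneg fun _ _ => by positivity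

lemma RL_nonneg (N : ℕ) : 0 ≤ RL N := by
  refine sum_nonneg fun p hp => ?_
  have := (Nat.prime_of_mem_primesBelow hp).one_le
  exact div_nonneg (Real.log_nonneg (by exact_mod_cast this)) (Nat.cast_nonneg p)

/-- Mertens, second theorem -/
lemma R1_bd : ∃ C : ℝ, 0 ≤ C ∧ ∀ N : ℕ, 3 ≤ N → |R1 (N + 1) - Real.log (Real.log N)| ≤ C := by
  obtain ⟨C, hC⟩ := Pool.Agent.Helper256.KM.mertens_inv
  refine ⟨C, (abs_nonneg _).trans (hC 3 le_rfl), fun N hN => ?_⟩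
  have := hC N hN
  unfold R1
  rw [primesBelow_succ_eq]
  exact this

/-- Mertens, first theorem -/
lemma RL_bd : ∃ C : ℝ, 0 ≤ C ∧ ∀ N : ℕ, 1 ≤ N → RL (N + 1) ≤ Real.log N + C := by
  obtain ⟨C, hC⟩ := Pool.Agent.Helper256.KM.mertens_log
  refine ⟨max C 0, le_max_right _ _, fun N hN => ?_⟩
  have := hC N hN
  unfold RL
  rw [primesBelow_succ_eq]
  have h2 := (abs_le.mp this).2
  have h3 := le_max_left C 0
  linarith

end Pool.Agent.Q276.CD
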