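import Pool.Agent.Q276.CD.EP

set_option autoImplicit false

/-! Prime factors in a range, truncated Moebius function. -/

namespace Pool.Agent.Q276.CD

open Finset Filter

/-- number of prime factors in `[a, b)`, with multiplicity -/
def Ob (a b n : ℕ) : ℕ := n.factorization.sum fun p k => if a ≤ p ∧ p < b then k else 0

lemma Ob_one (a b : ℕ) : Ob a b 1 = 0 := by simp [Ob]

lemma Ob_mul (a b : ℕ) {m n : ℕ} (hm : m ≠ 0) (hn : n ≠ 0) : Ob a b (m * n) = Ob a b m + Ob a b n := by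
  unfold Ob
  rw [Nat.factorization_mul hm hn]
  refine Finsupp.sum_add_index' (fun p => ?_) fun p k l => ?_
  · split_ifs <;> rfl
  · split_ifs <;> omega

lemma Ob_prime (a b : ℕ) {p : ℕ} (hp : p.Prime) : Ob a b p = if a ≤ p ∧ p < b then 1 else 0 := by
  unfold Ob
  rw [hp.factorization, Finsupp.sum_single_index]
  split_ifs <;> rfl

lemma Ob_le_of_dvd (a b : ℕ) {m n : ℕ} (h : m ∣ n) (hn : n ≠ 0) : Ob a b m ≤ Ob a b n := by
  obtain ⟨k, rfl⟩ := h
  have hm : m ≠ 0 := left_ne_zero_of_mul hn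
  have hk : k ≠ 0 := right_ne_zero_of_mul hn
  rw [Ob_mul a b hm hk]
  omega

lemma Ob_eq_sum (a b n : ℕ) : Ob a b n = ∑ p ∈ n.primeFactors, if a ≤ p ∧ p < b then n.factorization p else 0 := by
  unfold Ob
  rfl

lemma Ob_pos {a b n p : ℕ} (hp : p.Prime) (hpn : p ∣ n) (hn : n ≠ 0) (h : a ≤ p ∧ p < b) : 1 ≤ Ob a b n := by
  have h1 := Ob_le_of_dvd a b hpn hn
  rw [Ob_prime a b hp, if_pos h] at h1
  exact h1

lemma Ob_eq_zero {a b n : ℕ} (h : ∀ p, p.Prime → p ∣ n → ¬ (a ≤ p ∧ p < b)) : Ob a b n = 0 := by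
  rw [Ob_eq_sum]
  refine sum_eq_zero fun p hp => ?_
  rw [Nat.mem_primeFactors] at hp
  rw [if_neg (h p hp.1 hp.2.1)]

lemma sm_iff {N n : ℕ} : n ∈ Nat.smoothNumbers N ↔ n ≠ 0 ∧ ∀ p, p.Prime → p ∣ n → p < N := by
  rw [Nat.mem_smoothNumbers]
  constructor
  · rintro ⟨h1, h2⟩
    refine ⟨h1, fun p hp hd => h2 p ?_⟩
    rw [Nat.mem_primeFactorsList h1]
    exact ⟨hp, hd⟩
  · rintro ⟨h1, h2⟩
    refine ⟨h1, fun p hp => ?_⟩
    rw [Nat.mem_primeFactorsList h1] at hp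
    exact h2 p hp.1 hp.2

lemma sm_mul {N m n : ℕ} : m * n ∈ Nat.smoothNumbers N ↔ m ∈ Nat.smoothNumbers N ∧ n ∈ Nat.smoothNumbers N := by
  rw [sm_iff, sm_iff, sm_iff]
  constructor
  · rintro ⟨h1, h2⟩
    exact ⟨⟨left_ne_zero_of_mul h1, fun p hp hd => h2 p hp (hd.mul_right n)⟩,
      ⟨right_ne_zero_of_mul h1, fun p hp hd => h2 p hp (hd.mul_left m)⟩⟩
  · rintro ⟨⟨h1, h2⟩, ⟨h3, h4⟩⟩
    refine ⟨mul_ne_zero h1 h3, fun p hp hd => ?_⟩
    rcases (Nat.Prime.dvd_mul hp).mp hd with h | h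
    · exact h2 p hp h
    · exact h4 p hp h

lemma sm_dvd {N m n : ℕ} (h : m ∣ n) (hn : n ∈ Nat.smoothNumbers N) : m ∈ Nat.smoothNumbers N := by
  obtain ⟨k, rfl⟩ := h
  exact (sm_mul.mp hn).1

lemma sm_mono {M N n : ℕ} (h : M ≤ N) (hn : n ∈ Nat.smoothNumbers M) : n ∈ Nat.smoothNumbers N := by
  rw [sm_iff] at *
  exact ⟨hn.1, fun p hp hd => (hn.2 p hp hd).trans_le h⟩

lemma sm_one (N : ℕ) : 1 ∈ Nat.smoothNumbers N := by
  rw [sm_iff]
  exact ⟨one_ne_zero, fun p hp hd => absurd (Nat.dvd_one.mp hd) hp.ne_one⟩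

open Classical in
/-- the truncated Moebius function -/
noncomputable def muM (N0 d0 N1 d1 : ℕ) : ArithmeticFunction ℝ :=
  ⟨fun n => if n ∈ Nat.smoothNumbers N1 ∧ Ob 0 N0 n ≤ d0 ∧ Ob N0 N1 n ≤ d1 then
    ((ArithmeticFunction.moebius n : ℤ) : ℝ) else 0, by simp⟩

section
variable {N0 d0 N1 d1 : ℕ}

open Classical in
lemma muM_apply (n : ℕ) : muM N0 d0 N1 d1 n =
    if n ∈ Nat.smoothNumbers N1 ∧ Ob 0 N0 n ≤ d0 ∧ Ob N0 N1 n ≤ d1 then
    ((ArithmeticFunction.moebius n : ℤ) : ℝ) else 0 := rfl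

lemma muM_abs (n : ℕ) : |muM N0 d0 N1 d1 n| ≤ 1 := by
  classical
  rw [muM_apply]
  split_ifs
  · have := ArithmeticFunction.abs_moebius_le_one (n := n)
    exact_mod_cast this
  · simp

/-- the convolution of the truncated Moebius function with one -/
noncomputable def gM (N0 d0 N1 d1 : ℕ) : ArithmeticFunction ℝ :=
  muM N0 d0 N1 d1 * ((ArithmeticFunction.zeta : ArithmeticFunction ℕ) : ArithmeticFunction ℝ)

lemma gM_apply (n : ℕ) : gM N0 d0 N1 d1 n = ∑ e ∈ n.divisors, muM N0 d0 N1 d1 e := by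
  unfold gM
  rw [ArithmeticFunction.coe_mul_zeta_apply]

lemma gM_abs (n : ℕ) : |gM N0 d0 N1 d1 n| ≤ (n.divisors.card : ℝ) := by
  rw [gM_apply]
  refine (abs_sum_le_sum_abs _ _).trans ?_
  refine (sum_le_sum fun e _ => muM_abs e).trans ?_
  simp

lemma gM_one_of {n : ℕ} (hn : n ≠ 0) (h : ∀ p, p.Prime → p ∣ n → N1 ≤ p) : gM N0 d0 N1 d1 n = 1 := by
  classical
  rw [gM_apply, sum_eq_single 1]
  · rw [muM_apply, if_pos ⟨sm_one _, by rw [Ob_one]; omega, by rw [Ob_one]; omega⟩]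
    simp
  · intro e he he1
    rw [Nat.mem_divisors] at he
    rw [muM_apply, if_neg]
    rintro ⟨h1, -⟩
    obtain ⟨p, hp, hd⟩ := Nat.exists_prime_and_dvd he1
    have h2 := (sm_iff.mp h1).2 p hp hd
    have h3 := h p hp (hd.trans he.1)
    omega
  · intro hc
    exact absurd (Nat.mem_divisors.mpr ⟨one_dvd n, hn⟩) hc

/-- cancellation -/
lemma muM_toggle (h01 : N0 ≤ N1) {n q e : ℕ} (hn : n ≠ 0) (hq : q.Prime) (hqe : ¬ q ∣ e) (hd : q * e ∣ n)
    (hc : (q < N0 ∧ Ob 0 N0 n ≤ d0) ∨ (N0 ≤ q ∧ q < N1 ∧ Ob N0 N1 n ≤ d1)) :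
    muM N0 d0 N1 d1 (q * e) = -muM N0 d0 N1 d1 e := by
  classical
  have he : e ≠ 0 := by
    rintro rfl
    exact hqe (dvd_zero q)
  have hcop : Nat.Coprime q e := (Nat.Prime.coprime_iff_not_dvd hq).mpr hqe
  have hmu : ArithmeticFunction.moebius (q * e) = -ArithmeticFunction.moebius e := by
    rw [ArithmeticFunction.isMultiplicative_moebius.map_mul_of_coprime hcop,
      ArithmeticFunction.moebius_apply_prime hq]
    ring
  have hq1 : q < N1 := by rcases hc with h | h <;> omega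
  have hsm : q * e ∈ Nat.smoothNumbers N1 ↔ e ∈ Nat.smoothNumbers N1 := by
    rw [sm_mul]
    refine ⟨fun h => h.2, fun h => ⟨?_, h⟩⟩
    rw [sm_iff]
    exact ⟨hq.ne_zero, fun p hp hd => by rw [(Nat.prime_dvd_prime_iff_eq hp hq).mp hd]; exact hq1⟩
  have o0 := Ob_mul 0 N0 hq.ne_zero he
  have o1 := Ob_mul N0 N1 hq.ne_zero he
  have l0 := Ob_le_of_dvd 0 N0 hd hn
  have l1 := Ob_le_of_dvd N0 N1 hd hn
  rw [Ob_prime _ _ hq] at o0 o1
  have hcond : (q * e ∈ Nat.smoothNumbers N1 ∧ Ob 0 N0 (q * e) ≤ d0 ∧ Ob N0 N1 (q * e) ≤ d1) ↔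
      (e ∈ Nat.smoothNumbers N1 ∧ Ob 0 N0 e ≤ d0 ∧ Ob N0 N1 e ≤ d1) := by
    rw [hsm]
    rcases hc with h | h
    · rw [if_pos ⟨by omega, h.1⟩] at o0
      rw [if_neg (by omega)] at o1
      constructor
      · rintro ⟨a, b, c⟩; exact ⟨a, by omega, by omega⟩
      · rintro ⟨a, b, c⟩; exact ⟨a, by omega, by omega⟩
    · rw [if_neg (by omega)] at o0
      rw [if_pos ⟨h.1, h.2.1⟩] at o1
      constructor
      · rintro ⟨a, b, c⟩; exact ⟨a, by omega, by omega⟩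
      · rintro ⟨a, b, c⟩; exact ⟨a, by omega, by omega⟩
  rw [muM_apply, muM_apply]
  by_cases hh : e ∈ Nat.smoothNumbers N1 ∧ Ob 0 N0 e ≤ d0 ∧ Ob N0 N1 e ≤ d1
  · rw [if_pos hh, if_pos (hcond.mpr hh), hmu]
    push_cast
    ring
  · rw [if_neg hh, if_neg (fun h => hh (hcond.mp h)), neg_zero]

lemma muM_sq {e : ℕ} (he : ¬ Squarefree e) : muM N0 d0 N1 d1 e = 0 := by
  classical
  rw [muM_apply, ArithmeticFunction.moebius_eq_zero_of_not_squarefree he]
  simp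

lemma gM_zero_of (h01 : N0 ≤ N1) {n q : ℕ} (hn : n ≠ 0) (hq : q.Prime) (hqn : q ∣ n)
    (hc : (q < N0 ∧ Ob 0 N0 n ≤ d0) ∨ (N0 ≤ q ∧ q < N1 ∧ Ob N0 N1 n ≤ d1)) : gM N0 d0 N1 d1 n = 0 := by
  classical
  rw [gM_apply]
  have h1 : ∑ e ∈ n.divisors, muM N0 d0 N1 d1 e = ∑ e ∈ n.divisors.filter Squarefree, muM N0 d0 N1 d1 e := by
    rw [sum_filter]
    refine sum_congr rfl fun e _ => ?_
    split_ifs with h
    · rfl
    · exact muM_sq h
  rw [h1]
  refine sum_involution (fun e _ => if q ∣ e then e / q else q * e) ?_ ?_ ?_ ?_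
  · intro e he
    rw [mem_filter, Nat.mem_divisors] at he
    by_cases hd : q ∣ e
    · simp only [if_pos hd]
      obtain ⟨k, rfl⟩ := hd
      rw [Nat.mul_div_cancel_left k hq.pos]
      have hk : ¬ q ∣ k := by
        intro hk
        obtain ⟨j, rfl⟩ := hk
        have := he.2 q ⟨j, by ring⟩
        exact hq.one_lt.ne' (Nat.isUnit_iff.mp this)
      rw [muM_toggle h01 hn hq hk he.1.1 hc]
      ring
    · simp only [if_neg hd]
      have hdv : q * e ∣ n := Nat.Coprime.mul_dvd_of_dvd_of_dvd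
        ((Nat.Prime.coprime_iff_not_dvd hq).mpr hd) hqn he.1.1
      rw [muM_toggle h01 hn hq hd hdv hc]
      ring
  · intro e he hne
    by_cases hd : q ∣ e
    · simp only [if_pos hd]
      intro heq
      rw [mem_filter, Nat.mem_divisors] at he
      have he0 : e ≠ 0 := fun h => by subst h; exact he.1.2 (Nat.eq_zero_of_zero_dvd he.1.1)
      have := Nat.div_lt_self (Nat.pos_of_ne_zero he0) hq.one_lt
      omega
    · simp only [if_neg hd]
      intro heq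
      exact hd ⟨e, heq.symm⟩
  · intro e he
    rw [mem_filter, Nat.mem_divisors] at he ⊢
    by_cases hd : q ∣ e
    · simp only [if_pos hd]
      exact ⟨⟨(Nat.div_dvd_of_dvd hd).trans he.1.1, hn⟩, he.2.squarefree_of_dvd (Nat.div_dvd_of_dvd hd)⟩
    · simp only [if_neg hd]
      have hcop := (Nat.Prime.coprime_iff_not_dvd hq).mpr hd
      exact ⟨⟨Nat.Coprime.mul_dvd_of_dvd_of_dvd hcop hqn he.1.1, hn⟩,
        (Nat.squarefree_mul hcop).mpr ⟨hq.squarefree, he.2⟩⟩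
  · intro e he
    rw [mem_filter, Nat.mem_divisors] at he
    by_cases hd : q ∣ e
    · simp only [if_pos hd]
      obtain ⟨k, rfl⟩ := hd
      rw [Nat.mul_div_cancel_left k hq.pos]
      have hk : ¬ q ∣ k := by
        intro hk
        obtain ⟨j, rfl⟩ := hk
        have := he.2 q ⟨j, by ring⟩
        exact hq.one_lt.ne' (Nat.isUnit_iff.mp this)
      rw [if_neg hk]
    · simp only [if_neg hd]
      rw [if_pos (dvd_mul_right q e), Nat.mul_div_cancel_left e hq.pos]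

end

end Pool.Agent.Q276.CD
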