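import Pool.Agent.Q276.CD.Stm3
import Pool.Agent.Q177.CD.Gau

set_option autoImplicit false

/-! From `[T, 2T]` to a random shift. -/

namespace Pool.Agent.Q276.CD.Sf

open MeasureTheory Filter Set
open Pool.Agent.Q276.CD Pool.Agent.Q177.CD

/-- the measure of the part of `S` between `a` and `b` -/
noncomputable def f (S : Set ℝ) (a b : ℝ) : ℝ := volume.real (Icc a b ∩ S)

variable {S : Set ℝ}

lemma fin_f (a b : ℝ) : volume (Icc a b ∩ S) ≠ ⊤ :=
  ((measure_mono inter_subset_left).trans_lt (by rw [Real.volume_Icc]; exact ENNReal.ofReal_lt_top)).ne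

lemma f_nonneg (a b : ℝ) : 0 ≤ f S a b := measureReal_nonneg

lemma f_le {a b : ℝ} (h : a ≤ b) : f S a b ≤ b - a := by
  have h1 : f S a b ≤ volume.real (Icc a b) :=
    measureReal_mono inter_subset_left (by rw [Real.volume_Icc]; exact ENNReal.ofReal_ne_top)
  refine h1.trans ?_
  rw [Real.volume_real_Icc_of_le h]

lemma f_add {a b c : ℝ} (h1 : a ≤ b) (h2 : b ≤ c) : f S a c = f S a b + f S b c := by
  have e0 : volume (Icc a c ∩ S) = volume (Icc a b ∩ S) + volume (Icc b c ∩ S) := by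
    rw [← measure_inter_add_sdiff (Icc a c ∩ S) (measurableSet_Icc (a := a) (b := b))]
    congr 1
    · congr 1
      ext t
      simp only [mem_inter_iff, mem_Icc]
      constructor
      · rintro ⟨⟨_, hs⟩, ht⟩; exact ⟨ht, hs⟩
      · rintro ⟨ht, hs⟩; exact ⟨⟨⟨ht.1, ht.2.trans h2⟩, hs⟩, ht⟩
    · have e1 : (Icc a c ∩ S) \ Icc a b = Ioc b c ∩ S := by
        ext t
        simp only [mem_diff, mem_inter_iff, mem_Icc, mem_Ioc, not_and, not_le]
        constructor
        · rintro ⟨⟨⟨h3, h4⟩, hs⟩, ht⟩; exact ⟨⟨ht h3, h4⟩, hs⟩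
        · rintro ⟨⟨h3, h4⟩, hs⟩; exact ⟨⟨⟨h1.trans h3.le, h4⟩, hs⟩, fun _ => h3⟩
      rw [e1]
      refine measure_congr ?_
      exact Ioc_ae_eq_Icc.inter (ae_eq_refl S)
  unfold f Measure.real
  rw [e0, ENNReal.toReal_add (fin_f a b) (fin_f b c)]

lemma f_dyadic {T : ℝ} (hT : 0 < T) (J : ℕ) :
    f S 0 T = f S 0 (T / 2 ^ J) + ∑ j ∈ Finset.range J, f S (T / 2 ^ (j + 1)) (T / 2 ^ j) := by
  induction J with
  | zero => simp
  | succ J ih =>
    rw [Finset.sum_range_succ, ih]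
    have h1 : (0:ℝ) ≤ T / 2 ^ (J + 1) := by positivity
    have h2 : T / 2 ^ (J + 1) ≤ T / 2 ^ J :=
      div_le_div_of_nonneg_left hT.le (by positivity) (pow_le_pow_right₀ (by norm_num) (Nat.le_succ J))
    rw [f_add h1 h2]
    ring

lemma geo (T : ℝ) (J : ℕ) : ∑ j ∈ Finset.range J, T / 2 ^ (j + 1) = T - T / 2 ^ J := by
  induction J with
  | zero => simp
  | succ J ih => rw [Finset.sum_range_succ, ih, pow_succ]; field_simp; ring

lemma f_shift {y T : ℝ} (hT : |y| ≤ T) : |f S y (y + T) - f S 0 T| ≤ |y| := by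
  have hy1 := neg_abs_le y
  have hy2 := le_abs_self y
  rcases le_total 0 y with hy | hy
  · have a1 := f_add (S := S) hy (show y ≤ y + T by linarith)
    have a2 := f_add (S := S) (show 0 ≤ T by linarith) (show T ≤ y + T by linarith)
    have b1 := f_le (S := S) hy
    have b2 := f_le (S := S) (show T ≤ y + T by linarith)
    have c1 := f_nonneg (S := S) 0 y
    have c2 := f_nonneg (S := S) T (y + T)
    rw [abs_of_nonneg hy, abs_le]
    constructor <;> linarith
  · have a1 := f_add (S := S) hy (show 0 ≤ T by linarith)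
    have a2 := f_add (S := S) (show y ≤ y + T by linarith) (show y + T ≤ T by linarith)
    have b1 := f_le (S := S) hy
    have b2 := f_le (S := S) (show y + T ≤ T by linarith)
    have c1 := f_nonneg (S := S) y 0
    have c2 := f_nonneg (S := S) (y + T) T
    rw [abs_of_nonpos hy, abs_le]
    constructor <;> linarith

lemma f_rand {y T : ℝ} (hT : 0 < T) :
    volume.real {u : ℝ | u ∈ Icc (0:ℝ) 1 ∧ y + u * T ∈ S} = f S y (y + T) / T := by
  have e : {u : ℝ | u ∈ Icc (0:ℝ) 1 ∧ y + u * T ∈ S} =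
      (fun u => u * T) ⁻¹' ((fun s => y + s) ⁻¹' (Icc y (y + T) ∩ S)) := by
    ext u
    simp only [mem_ofPred_eq, mem_preimage, mem_inter_iff, mem_Icc]
    constructor
    · rintro ⟨⟨h1, h2⟩, h3⟩
      exact ⟨⟨by nlinarith, by nlinarith⟩, h3⟩
    · rintro ⟨⟨h1, h2⟩, h3⟩
      refine ⟨⟨?_, ?_⟩, h3⟩
      · by_contra h; push Not at h; nlinarith
      · by_contra h; push Not at h; nlinarith
  unfold f Measure.real
  rw [e, Real.volume_preimage_mul_right hT.ne', measure_preimage_add, ENNReal.toReal_mul,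
    ENNReal.toReal_ofReal (abs_nonneg _), abs_of_pos (inv_pos.mpr hT)]
  rw [inv_mul_eq_div]

lemma phi_diff {x x' : ℝ} (h : x ≤ x') (hx : 0 ≤ x) :
    (1 - Phi x') ≤ (1 - Phi x) ∧ (1 - Phi x) - (1 - Phi x') ≤ (x' - x) * (Real.exp (-(x ^ 2 / 2)) / 2) := by
  have e := one_sub_Phi_sub x x'
  have h0 : 0 ≤ ∫ t in x..x', pd t := intervalIntegral.integral_nonneg h fun t _ => pd_nonneg t
  refine ⟨by linarith, ?_⟩
  rw [e]
  have h1 : ∫ t in x..x', pd t ≤ ∫ _t in x..x', Real.exp (-(x ^ 2 / 2)) / 2 := by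
    refine intervalIntegral.integral_mono_on h (pd_cont.intervalIntegrable _ _) (by simp) fun t ht => ?_
    rw [pd_eq]
    have h2 : (√(2 * Real.pi))⁻¹ ≤ 1 / 2 := by
      rw [one_div]; exact inv_anti₀ (by norm_num) sqrt_two_pi_gt
    have h3 : Real.exp (-(t ^ 2 / 2)) ≤ Real.exp (-(x ^ 2 / 2)) := by
      refine Real.exp_le_exp.mpr ?_
      have := pow_le_pow_left₀ hx ht.1 2
      linarith
    calc (√(2 * Real.pi))⁻¹ * Real.exp (-(t ^ 2 / 2)) ≤ 1 / 2 * Real.exp (-(x ^ 2 / 2)) :=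
          mul_le_mul h2 h3 (Real.exp_pos _).le (by norm_num)
      _ = _ := by ring
  rwa [intervalIntegral.integral_const, smul_eq_mul] at h1

lemma num {C x x' q q' v l v' l' A T' : ℝ} (hC : 0 ≤ C) (hT : 0 ≤ T') (hx : 0 ≤ x) (hx2 : x' ≤ 2 * x)
    (hd : x' - x ≤ 2 * x / v) (hq' : 0 ≤ q') (hq : q' ≤ q) (hqd : q - q' ≤ (x' - x) * (15 * (1 + x) * q / 2))
    (hv : 0 < v) (hv' : v / 4 ≤ v') (hl' : 1 ≤ l') (hl : l' ≤ l) (hxv : x ≤ √v)
    (h : |A - T' * q'| ≤ C * ((1 + x') * l' ^ 5 / √v') * (T' * q')) :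
    |A - T' * q| ≤ (4 * C + 15) * ((1 + x) * l ^ 5 / √v) * (T' * q) := by
  have hsv : 0 < √v := Real.sqrt_pos.mpr hv
  have hsv2 : √v ^ 2 = v := Real.sq_sqrt hv.le
  have hq0 : 0 ≤ q := hq'.trans hq
  have hl5 : l' ^ 5 ≤ l ^ 5 := pow_le_pow_left₀ (by linarith) hl 5
  have hl51 : 1 ≤ l ^ 5 := one_le_pow₀ (by linarith)
  have hl50 : 0 ≤ l' ^ 5 := pow_nonneg (by linarith) 5
  have hsv' : √v / 2 ≤ √v' := by
    have : √(v / 4) = √v / 2 := by
      rw [Real.sqrt_div hv.le, show (4:ℝ) = 2 ^ 2 by norm_num, Real.sqrt_sq (by norm_num)]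
    rw [← this]; exact Real.sqrt_le_sqrt hv'
  have h1 : (1 + x') * l' ^ 5 / √v' ≤ 4 * ((1 + x) * l ^ 5 / √v) := by
    have e : 4 * ((1 + x) * l ^ 5 / √v) = (2 * (1 + x)) * l ^ 5 / (√v / 2) := by field_simp; ring
    rw [e]
    exact div_le_div₀ (by positivity) (mul_le_mul (by linarith) hl5 hl50 (by linarith)) (by positivity) hsv'
  have h2 : q - q' ≤ 15 * ((1 + x) * l ^ 5 / √v) * q := by
    refine hqd.trans ?_
    calc (x' - x) * (15 * (1 + x) * q / 2) ≤ 2 * x / v * (15 * (1 + x) * q / 2) :=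
          mul_le_mul_of_nonneg_right hd (by positivity)
      _ = 15 * ((1 + x) * (x / v)) * q := by ring
      _ ≤ 15 * ((1 + x) * (l ^ 5 / √v)) * q := by
          have h3 : x / v ≤ l ^ 5 / √v := by
            rw [div_le_div_iff₀ hv hsv]
            calc x * √v ≤ √v * √v := mul_le_mul_of_nonneg_right hxv hsv.le
              _ = v := by rw [← sq, hsv2]
              _ ≤ l ^ 5 * v := le_mul_of_one_le_left hv.le hl51
          gcongr
      _ = _ := by ring
  set κ := (1 + x) * l ^ 5 / √v with hκ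
  have hκ0 : 0 ≤ κ := by positivity
  have h3 : C * ((1 + x') * l' ^ 5 / √v') * (T' * q') ≤ C * (4 * κ) * (T' * q) :=
    mul_le_mul (mul_le_mul_of_nonneg_left h1 hC) (mul_le_mul_of_nonneg_left hq hT) (by positivity) (by positivity)
  have h4 : T' * (q - q') ≤ T' * (15 * κ * q) := mul_le_mul_of_nonneg_left h2 hT
  have h5 : 0 ≤ T' * (q - q') := mul_nonneg hT (by linarith)
  have h6 := abs_le.mp (h.trans h3)
  have e1 : (4 * C + 15) * κ * (T' * q) = C * (4 * κ) * (T' * q) + T' * (15 * κ * q) := by ring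
  have e2 : T' * (q - q') = T' * q - T' * q' := by ring
  rw [e1, abs_le]
  constructor <;> linarith [h6.1, h6.2]

/-- one block, `T' ∈ [√T, T]` -/
lemma block {c C T T' x : ℝ} (hc : 0 < c) (hC : 0 < C) (hT1 : √T ≤ T') (hT2 : T' ≤ T) (hT : 1 ≤ T)
    (hV : 4 ≤ V T) (hl' : 1 ≤ l3 T') (hx : 0 ≤ x) (hx1 : x ≤ c / 4 * √(V T) / l3 T ^ 5)
    (hxv : x ≤ √(V T))
    (h : ∀ x : ℝ, 0 ≤ x → x ≤ c * √(V T') / l3 T' ^ 5 →
      |f {t : ℝ | x * √(V T' / 2) < Real.log ‖riemannZeta (1 / 2 + (t : ℂ) * Complex.I)‖} T' (2 * T') -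
        T' * (1 - Phi x)| ≤ C * ((1 + x) * l3 T' ^ 5 / √(V T')) * (T' * (1 - Phi x))) :
    |f {t : ℝ | x * √(V T / 2) < Real.log ‖riemannZeta (1 / 2 + (t : ℂ) * Complex.I)‖} T' (2 * T') -
        T' * (1 - Phi x)| ≤ (4 * C + 15) * ((1 + x) * l3 T ^ 5 / √(V T)) * (T' * (1 - Phi x)) := by
  have hT0 : 0 < T := by linarith
  have hsT : 1 ≤ √T := Real.one_le_sqrt.mpr hT
  have hT'0 : 0 < T' := by linarith
  have hL : 1 < Real.log T := by
    by_contra h0
    push Not at h0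
    have : V T ≤ 0 := Real.log_nonpos (Real.log_nonneg hT) h0
    linarith
  have hL2 : Real.log T / 2 ≤ Real.log T' := by
    have := Real.log_le_log (by linarith) hT1
    rwa [Real.log_sqrt hT0.le] at this
  have hL3 : Real.log T' ≤ Real.log T := Real.log_le_log hT'0 hT2
  have hV1 : V T' ≤ V T := Real.log_le_log (by linarith) hL3
  have hV2 : V T - Real.log 2 ≤ V T' := by
    have := Real.log_le_log (by linarith : 0 < Real.log T / 2) hL2
    rw [Real.log_div (by linarith) (by norm_num)] at this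
    exact this
  have h2 : Real.log 2 < 1 := by have := Real.log_two_lt_d9; linarith
  set v := V T with hv
  set v' := V T' with hv'
  have hv0 : 0 < v := by linarith
  have hv'0 : 0 < v' := by linarith
  have hvv : v / 2 ≤ v' := by linarith
  have hl : l3 T' ≤ l3 T := Real.log_le_log hv'0 hV1
  have hl0 : 0 < l3 T := by linarith
  -- the new argument
  set ρ := √(v / v') with hρ
  have hρ1 : 1 ≤ ρ := Real.one_le_sqrt.mpr ((one_le_div hv'0).mpr hV1)
  have hρ2 : ρ ≤ v / v' := by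
    have : 1 ≤ v / v' := (one_le_div hv'0).mpr hV1
    rw [hρ]
    exact Real.sqrt_le_iff.mpr ⟨by positivity, le_self_pow₀ this two_ne_zero⟩
  have hρ3 : ρ - 1 ≤ 2 / v := by
    have e : v / v' - 1 = (v - v') / v' := by field_simp
    have h3 : (v - v') / v' ≤ 1 / (v / 2) := div_le_div₀ (by norm_num) (by linarith) (by positivity) hvv
    have e2 : 1 / (v / 2) = 2 / v := by field_simp
    linarith
  have hρ4 : ρ ≤ 2 := by
    have h3 : 2 / v ≤ 1 := by rw [div_le_one hv0]; linarith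
    linarith
  have hlev : (ρ * x) * √(v' / 2) = x * √(v / 2) := by
    have : ρ * √(v' / 2) = √(v / 2) := by
      rw [hρ, ← Real.sqrt_mul (by positivity)]
      congr 1; field_simp
    calc (ρ * x) * √(v' / 2) = x * (ρ * √(v' / 2)) := by ring
      _ = _ := by rw [this]
  have hρx : 0 ≤ ρ * x := by positivity
  have hcond : ρ * x ≤ c * √v' / l3 T' ^ 5 := by
    have h3 : ρ * x ≤ 2 * (c / 4 * √v / l3 T ^ 5) := mul_le_mul hρ4 hx1 hx (by norm_num)
    refine h3.trans ?_
    have e : 2 * (c / 4 * √v / l3 T ^ 5) = c * (√v / 2) / l3 T ^ 5 := by ring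
    rw [e]
    have hsv : √v / 2 ≤ √v' := by
      have : √(v / 4) = √v / 2 := by
        rw [Real.sqrt_div hv0.le, show (4:ℝ) = 2 ^ 2 by norm_num, Real.sqrt_sq (by norm_num)]
      rw [← this]; exact Real.sqrt_le_sqrt (by linarith)
    have hl5 : l3 T' ^ 5 ≤ l3 T ^ 5 := pow_le_pow_left₀ (by linarith) hl 5
    have hl50 : 0 < l3 T' ^ 5 := pow_pos (by linarith) 5
    exact div_le_div₀ (by positivity) (mul_le_mul_of_nonneg_left hsv hc.le) hl50 hl5
  have hmain := h (ρ * x) hρx hcond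
  rw [hlev] at hmain
  have hp := phi_diff (x := x) (x' := ρ * x) (le_mul_of_one_le_left hx hρ1) hx
  have hm := mills x hx
  have hq0 := one_sub_Phi_nonneg x
  refine num hC.le hT'0.le hx (mul_le_mul_of_nonneg_right hρ4 hx) ?_ (one_sub_Phi_nonneg _) hp.1 ?_ hv0
    (by linarith) hl' hl hxv hmain
  · calc ρ * x - x = (ρ - 1) * x := by ring
      _ ≤ 2 / v * x := mul_le_mul_of_nonneg_right hρ3 hx
      _ = 2 * x / v := by ring
  · refine hp.2.trans ?_
    have h3 : 0 ≤ ρ * x - x := by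
      have := le_mul_of_one_le_left hx hρ1
      linarith
    calc (ρ * x - x) * (Real.exp (-(x ^ 2 / 2)) / 2) ≤ (ρ * x - x) * ((15 * (1 + x) * (1 - Phi x)) / 2) :=
          mul_le_mul_of_nonneg_left (by linarith) h3
      _ = _ := by ring

/-- from the blocks to the interval `[0, T]` -/
lemma sum_blocks {T q B : ℝ} {J : ℕ} (hT : 0 < T) (hq : 0 ≤ q) (hq1 : q ≤ 1) (hB : 0 ≤ B)
    (h : ∀ j < J, |f S (T / 2 ^ (j + 1)) (T / 2 ^ j) - T / 2 ^ (j + 1) * q| ≤ B * (T / 2 ^ (j + 1) * q)) :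
    |f S 0 T - T * q| ≤ 2 * (T / 2 ^ J) + B * (T * q) := by
  have e1 := f_dyadic (S := S) hT J
  have e2 := geo T J
  have h1 : |∑ j ∈ Finset.range J, (f S (T / 2 ^ (j + 1)) (T / 2 ^ j) - T / 2 ^ (j + 1) * q)| ≤
      ∑ j ∈ Finset.range J, B * (T / 2 ^ (j + 1) * q) :=
    (Finset.abs_sum_le_sum_abs _ _).trans (Finset.sum_le_sum fun j hj => h j (Finset.mem_range.mp hj))
  rw [Finset.sum_sub_distrib, ← Finset.sum_mul, ← Finset.mul_sum, ← Finset.sum_mul, e2] at h1
  have h2 : 0 ≤ T / 2 ^ J := by positivity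
  have h3 : f S 0 (T / 2 ^ J) ≤ T / 2 ^ J := by have := f_le (S := S) h2; linarith
  have h4 := f_nonneg (S := S) 0 (T / 2 ^ J)
  have h5 : (T - T / 2 ^ J) * q ≤ T * q := mul_le_mul_of_nonneg_right (by linarith) hq
  have h6 : B * ((T - T / 2 ^ J) * q) ≤ B * (T * q) := mul_le_mul_of_nonneg_left h5 hB
  have h7 : T / 2 ^ J * q ≤ T / 2 ^ J := mul_le_of_le_one_right h2 hq1
  have h8 : 0 ≤ T / 2 ^ J * q := by positivity
  have h9 := abs_le.mp (h1.trans h6)
  have e3 : (T - T / 2 ^ J) * q = T * q - T / 2 ^ J * q := by ring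
  rw [e3] at h9
  rw [e1, abs_le]
  constructor <;> linarith [h9.1, h9.2]

theorem t_SHIFT (hP : P_CQ) : P_SHIFT := by
  obtain ⟨c, C, hc, hC, hev⟩ := hP
  refine ⟨min (c / 4) (1 / 2), 4 * C + 17, by positivity, by positivity, fun y => ?_⟩
  obtain ⟨T0, hT0⟩ := eventually_atTop.mp hev
  have hlog := Real.tendsto_log_atTop
  have hVt : Tendsto V atTop atTop := hlog.comp hlog
  have hlt : Tendsto l3 atTop atTop := hlog.comp hVt
  obtain ⟨T1, hT1⟩ := eventually_atTop.mp (hlt.eventually_ge_atTop 1)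
  -- the size conditions
  have e1 : ∀ᶠ T : ℝ in atTop, T0 ≤ √T := Real.tendsto_sqrt_atTop.eventually_ge_atTop T0
  have e2 : ∀ᶠ T : ℝ in atTop, T1 ≤ √T := Real.tendsto_sqrt_atTop.eventually_ge_atTop T1
  have e3 : ∀ᶠ T : ℝ in atTop, 4 * Real.log T ≤ √T := by
    have a1 := (isLittleO_log_rpow_atTop (r := 1 / 2) (by norm_num)).def (show (0:ℝ) < 1 / 4 by norm_num)
    filter_upwards [a1, eventually_ge_atTop 1] with T h1 h2
    rw [Real.norm_eq_abs, Real.norm_eq_abs, abs_of_nonneg (Real.log_nonneg h2),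
      abs_of_nonneg (Real.rpow_nonneg (by linarith) _), ← Real.sqrt_eq_rpow] at h1
    linarith
  have e4 : ∀ᶠ T : ℝ in atTop, 2 * |y| * Real.log T ≤ T := by
    have a1 := (Real.isLittleO_log_id_atTop).def (show (0:ℝ) < 1 / (2 * |y| + 1) by positivity)
    filter_upwards [a1, eventually_ge_atTop 1] with T h1 h2
    rw [Real.norm_eq_abs, Real.norm_eq_abs, abs_of_nonneg (Real.log_nonneg h2)] at h1
    simp only [id] at h1
    rw [abs_of_nonneg (show (0:ℝ) ≤ T by linarith), one_div, inv_mul_eq_div, le_div_iff₀ (by positivity)] at h1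
    have h3 : 0 ≤ Real.log T := Real.log_nonneg h2
    linarith
  have e5 : ∀ᶠ T : ℝ in atTop, 120 * V T ≤ Real.exp (V T / 8) := by
    have a1 := (Real.isLittleO_pow_exp_atTop (n := 1)).def (show (0:ℝ) < 1 / 960 by norm_num)
    have a2 : Tendsto (fun T => V T / 8) atTop atTop := hVt.atTop_div_const (by norm_num)
    filter_upwards [a2.eventually a1, hVt.eventually_ge_atTop 1] with T h1 h2
    rw [Real.norm_eq_abs, Real.norm_eq_abs, abs_of_pos (Real.exp_pos _)] at h1
    rw [pow_one, abs_of_nonneg (show (0:ℝ) ≤ V T / 8 by linarith)] at h1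
    linarith
  filter_upwards [e1, e2, e3, e4, e5, hVt.eventually_ge_atTop 8, hlt.eventually_ge_atTop 1,
    eventually_ge_atTop 1] with T g1 g2 g3 g4 g5 g6 g7 g8
  intro x hx0 hx
  have hT : 0 < T := by linarith
  set v := V T with hv
  have hv0 : 0 < v := by linarith
  have hL : 0 < Real.log T := by
    by_contra h0
    push Not at h0
    have h1 : Real.log T = 0 := le_antisymm h0 (Real.log_nonneg g8)
    have : v = 0 := by rw [hv]; unfold V; rw [h1, Real.log_zero]
    linarith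
  have hev' : Real.exp v = Real.log T := by rw [hv]; exact Real.exp_log hL
  have hl5 : 1 ≤ l3 T ^ 5 := one_le_pow₀ g7
  have hsv : 0 < √v := Real.sqrt_pos.mpr hv0
  have hsv2 : √v ^ 2 = v := Real.sq_sqrt hv0.le
  have hx1 : x ≤ c / 4 * √v / l3 T ^ 5 := by
    refine hx.trans ?_
    refine div_le_div_of_nonneg_right ?_ (by linarith)
    exact mul_le_mul_of_nonneg_right (min_le_left _ _) hsv.le
  have hx2 : x ≤ √v / 2 := by
    refine hx.trans ?_
    have h1 : min (c / 4) (1 / 2) * √v / l3 T ^ 5 ≤ (1 / 2) * √v / 1 :=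
      div_le_div₀ (by positivity) (mul_le_mul_of_nonneg_right (min_le_right _ _) hsv.le) one_pos hl5
    linarith
  set q := 1 - Phi x with hq
  have hq0 : 0 ≤ q := one_sub_Phi_nonneg x
  have hq1 : q ≤ 1 := by
    have : 0 ≤ Phi x := measureReal_nonneg
    linarith
  set κ := (1 + x) * l3 T ^ 5 / √v with hκ
  have hκ0 : 0 ≤ κ := by positivity
  -- the lower bound of the error
  have hlow : Real.exp (-(v / 4)) ≤ κ * q := by
    have m := mills x hx0
    have h1 : 1 / √v ≤ κ := by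
      rw [hκ]
      refine div_le_div_of_nonneg_right ?_ hsv.le
      exact one_le_mul_of_one_le_of_one_le (by linarith) hl5
    have h2 : Real.exp (-(v / 8)) ≤ Real.exp (-(x ^ 2 / 2)) := by
      refine Real.exp_le_exp.mpr ?_
      have : x ^ 2 ≤ (√v / 2) ^ 2 := pow_le_pow_left₀ hx0 hx2 2
      rw [div_pow, hsv2] at this
      linarith
    have h3 : Real.exp (-(v / 8)) ≤ 30 * √v * q := by
      refine (h2.trans m).trans ?_
      have : 1 + x ≤ 2 * √v := by
        have : 1 ≤ √v := Real.one_le_sqrt.mpr (by linarith)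
        linarith
      calc 15 * (1 + x) * q ≤ 15 * (2 * √v) * q := by gcongr
        _ = _ := by ring
    have h4 : Real.exp (-(v / 4)) = Real.exp (-(v / 8)) * Real.exp (-(v / 8)) := by
      rw [← Real.exp_add]; congr 1; ring
    have h5 : Real.exp (-(v / 8)) * (30 * √v) ≤ 1 / √v := by
      rw [Real.exp_neg, inv_mul_eq_div, div_le_div_iff₀ (Real.exp_pos _) hsv]
      calc 30 * √v * √v = 30 * √v ^ 2 := by ring
        _ = 30 * v := by rw [hsv2]
        _ ≤ 1 * Real.exp (v / 8) := by linarith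
    calc Real.exp (-(v / 4)) = Real.exp (-(v / 8)) * Real.exp (-(v / 8)) := h4
      _ ≤ Real.exp (-(v / 8)) * (30 * √v * q) := mul_le_mul_of_nonneg_left h3 (Real.exp_pos _).le
      _ = Real.exp (-(v / 8)) * (30 * √v) * q := by ring
      _ ≤ 1 / √v * q := mul_le_mul_of_nonneg_right h5 hq0
      _ ≤ κ * q := mul_le_mul_of_nonneg_right h1 hq0
  -- the number of blocks
  set J := ⌈v⌉₊ with hJ
  have hJ1 : v ≤ J := Nat.le_ceil _
  have hJ2 : (J:ℝ) < v + 1 := Nat.ceil_lt_add_one hv0.le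
  have hlog2 := Real.log_two_gt_d9
  have hlog2' := Real.log_two_lt_d9
  have e2J : (2:ℝ) ^ J = Real.exp (J * Real.log 2) := by
    rw [← Real.rpow_natCast, Real.rpow_def_of_pos two_pos, mul_comm]
  have hJa : Real.exp (v / 2) ≤ 2 ^ J := by
    rw [e2J]
    refine Real.exp_le_exp.mpr ?_
    calc v / 2 ≤ v * Real.log 2 := by nlinarith
      _ ≤ J * Real.log 2 := mul_le_mul_of_nonneg_right hJ1 (by linarith)
  have hJb : (2:ℝ) ^ J ≤ √T := by
    refine le_trans ?_ g3
    rw [e2J]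
    have h1 : (J:ℝ) * Real.log 2 ≤ v + Real.log 2 := by
      have : (J:ℝ) * Real.log 2 ≤ (v + 1) * Real.log 2 := mul_le_mul_of_nonneg_right hJ2.le (by linarith)
      nlinarith
    calc Real.exp (J * Real.log 2) ≤ Real.exp (v + Real.log 2) := Real.exp_le_exp.mpr h1
      _ = Real.log T * 2 := by rw [Real.exp_add, hev', Real.exp_log two_pos]
      _ ≤ 4 * Real.log T := by linarith
  set S : Set ℝ := {t : ℝ | x * √(v / 2) < Real.log ‖riemannZeta (1 / 2 + (t : ℂ) * Complex.I)‖} with hS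
  have hblocks : ∀ j < J, |f S (T / 2 ^ (j + 1)) (T / 2 ^ j) - T / 2 ^ (j + 1) * q| ≤
      (4 * C + 15) * κ * (T / 2 ^ (j + 1) * q) := by
    intro j hj
    have hp : (2:ℝ) ^ (j + 1) ≤ 2 ^ J := pow_le_pow_right₀ (by norm_num) hj
    have hT1' : √T ≤ T / 2 ^ (j + 1) := by
      rw [le_div_iff₀ (by positivity)]
      calc √T * 2 ^ (j + 1) ≤ √T * √T := mul_le_mul_of_nonneg_left (hp.trans hJb) (Real.sqrt_nonneg _)
        _ = T := Real.mul_self_sqrt hT.le
    have hT2' : T / 2 ^ (j + 1) ≤ T := div_le_self hT.le (one_le_pow₀ (by norm_num))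
    have e : T / 2 ^ j = 2 * (T / 2 ^ (j + 1)) := by rw [pow_succ]; field_simp
    rw [e]
    refine block hc hC hT1' hT2' g8 (by linarith) (hT1 _ (g2.trans hT1')) hx0 hx1 (by linarith) ?_
    intro z hz hzc
    have := hT0 _ (g1.trans hT1') z hz hzc
    exact this
  have hmain := sum_blocks hT hq0 hq1 (by positivity : 0 ≤ (4 * C + 15) * κ) hblocks
  have h2J : 2 * (T / 2 ^ J) ≤ κ * (T * q) := by
    have h1 : 2 / 2 ^ J ≤ Real.exp (-(v / 4)) := by
      have h2 : 2 * Real.exp (v / 4) ≤ Real.exp (v / 2) := by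
        have e : Real.exp (v / 2) = Real.exp (v / 4) * Real.exp (v / 4) := by rw [← Real.exp_add]; congr 1; ring
        have h3 : 2 ≤ Real.exp (v / 4) := by
          have := Real.add_one_le_exp (v / 4)
          linarith
        rw [e]; exact mul_le_mul_of_nonneg_right h3 (Real.exp_pos _).le
      rw [div_le_iff₀ (by positivity), Real.exp_neg, inv_mul_eq_div, le_div_iff₀ (Real.exp_pos _)]
      exact h2.trans hJa
    calc 2 * (T / 2 ^ J) = T * (2 / 2 ^ J) := by ring
      _ ≤ T * (κ * q) := mul_le_mul_of_nonneg_left (h1.trans hlow) hT.le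
      _ = _ := by ring
  have hy2 : |y| ≤ κ * (T * q) := by
    have h1 : Real.exp (-(v / 4)) ≥ 1 / Real.log T := by
      rw [ge_iff_le, one_div, ← hev', ← Real.exp_neg]
      exact Real.exp_le_exp.mpr (by linarith)
    have h2 : |y| ≤ T * (1 / Real.log T) := by
      rw [mul_one_div, le_div_iff₀ hL]
      have : 0 ≤ |y| * Real.log T := by positivity
      linarith
    calc |y| ≤ T * (1 / Real.log T) := h2
      _ ≤ T * (κ * q) := mul_le_mul_of_nonneg_left (h1.le.trans hlow) hT.le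
      _ = _ := by ring
  have hyT : |y| ≤ T := by
    have h1 : 1 ≤ Real.log T := by rw [← hev']; exact Real.one_le_exp hv0.le
    have h2 : |y| ≤ |y| * Real.log T := le_mul_of_one_le_right (abs_nonneg y) h1
    linarith
  have hsh := (f_shift (S := S) hyT).trans hy2
  have hset : {u : ℝ | u ∈ Set.Icc (0:ℝ) 1 ∧ x * √(v / 2) <
      Real.log ‖riemannZeta (1 / 2 + (y : ℂ) * Complex.I + (u : ℂ) * (T : ℂ) * Complex.I)‖} =
      {u : ℝ | u ∈ Icc (0:ℝ) 1 ∧ y + u * T ∈ S} := by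
    refine Set.ext fun u => ?_
    change (u ∈ Icc (0:ℝ) 1 ∧ _) ↔ (u ∈ Icc (0:ℝ) 1 ∧ x * √(v / 2) <
      Real.log ‖riemannZeta (1 / 2 + ((y + u * T : ℝ) : ℂ) * Complex.I)‖)
    have e : (1 / 2 + (y : ℂ) * Complex.I + (u : ℂ) * (T : ℂ) * Complex.I) =
        1 / 2 + ((y + u * T : ℝ) : ℂ) * Complex.I := by push_cast; ring
    rw [← e]
  rw [hset, f_rand hT]
  have e6 : f S y (y + T) / T - q = (f S y (y + T) - T * q) / T := by field_simp
  rw [e6, abs_div, abs_of_pos hT, div_le_iff₀ hT]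
  have e7 : (4 * C + 17) * κ * q * T = κ * (T * q) + (κ * (T * q) + (4 * C + 15) * κ * (T * q)) := by ring
  rw [e7]
  have e8 : f S y (y + T) - T * q = (f S y (y + T) - f S 0 T) + (f S 0 T - T * q) := by ring
  rw [e8]
  refine (abs_add_le _ _).trans (add_le_add hsh (hmain.trans ?_))
  linarith

end Pool.Agent.Q276.CD.Sf
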