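import Pool.Agent.Q276.CD.Co
import Pool.Agent.Q276.CD.Me

set_option autoImplicit false

/-! Bounds for the sums over the smooth numbers. -/

namespace Pool.Agent.Q276.CD

open Finset Filter

/-- the parameter of the Rankin trick -/
noncomputable def rr : ℝ := 6 / 5

lemma rr_pos : 0 < rr := by unfold rr; norm_num

lemma one_le_rr : 1 ≤ rr := by unfold rr; norm_num

/-- a crude local bound -/
lemma loc_crude {φ h : ℕ → ℝ} (h0 : φ 0 = 1) (hn : ∀ j, 0 ≤ φ (j + 1)) (hh : ∀ j, φ (j + 1) ≤ h j)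
    (hs : Summable fun j : ℕ => h j / (2:ℝ) ^ j) {p : ℕ} (hp : 2 ≤ p) :
    (Summable fun j : ℕ => φ j / (p : ℝ) ^ j) ∧
      ∑' j : ℕ, φ j / (p : ℝ) ^ j ≤ 1 + (∑' j : ℕ, h j / (2:ℝ) ^ j) * (1 / p) := by
  have hp2 : (2:ℝ) ≤ p := by exact_mod_cast hp
  have hp0 : (0:ℝ) < p := by linarith
  have e1 : ∀ j : ℕ, φ (j + 1) / (p : ℝ) ^ (j + 1) = (φ (j + 1) / (p : ℝ) ^ j) * (1 / p) := by
    intro j; rw [pow_succ]; field_simp
  have e2 : ∀ j : ℕ, φ (j + 1) / (p : ℝ) ^ j ≤ h j / (2:ℝ) ^ j := by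
    intro j
    exact div_le_div₀ ((hn j).trans (hh j)) (hh j) (by positivity) (pow_le_pow_left₀ (by norm_num) hp2 j)
  have s1 : Summable fun j : ℕ => φ (j + 1) / (p : ℝ) ^ j :=
    Summable.of_nonneg_of_le (fun j => div_nonneg (hn j) (by positivity)) e2 hs
  have s2 : Summable fun j : ℕ => φ (j + 1) / (p : ℝ) ^ (j + 1) := by
    simp_rw [e1]; exact s1.mul_right _
  have s3 : Summable fun j : ℕ => φ j / (p : ℝ) ^ j := (summable_nat_add_iff 1).mp s2
  refine ⟨s3, ?_⟩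
  rw [s3.tsum_eq_zero_add]
  simp_rw [e1]
  rw [tsum_mul_right, h0, pow_zero, div_one]
  have := s1.tsum_le_tsum e2 hs
  have h4 : 0 ≤ 1 / (p:ℝ) := by positivity
  have := mul_le_mul_of_nonneg_right this h4
  linarith

lemma loc_crude' {φ h : ℕ → ℝ} (h0 : φ 0 = 1) (hn : ∀ j, 0 ≤ φ (j + 1)) (hh : ∀ j, φ (j + 1) ≤ h j)
    (hs : Summable fun j : ℕ => h j / (2:ℝ) ^ j) {p : ℕ} (hp : 2 ≤ p) :
    (Summable fun j : ℕ => φ j / (p : ℝ) ^ j) ∧
      ∑' j : ℕ, φ j / (p : ℝ) ^ j ≤ Real.exp ((∑' j : ℕ, h j / (2:ℝ) ^ j) * (1 / p)) := by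
  obtain ⟨h1, h2⟩ := loc_crude h0 hn hh hs hp
  exact ⟨h1, h2.trans (by linarith [Real.add_one_le_exp ((∑' j : ℕ, h j / (2:ℝ) ^ j) * (1 / (p:ℝ)))])⟩

/-- the local bound of the exponential -/
lemma loc_exp (k : ℝ) {p : ℕ} (hp : 2 ≤ p) :
    (Summable fun j : ℕ => ek k p j ^ 2 / (p : ℝ) ^ j) ∧
      ∑' j : ℕ, ek k p j ^ 2 / (p : ℝ) ^ j ≤ Real.exp (k ^ 2 * (1 / p)) := by
  have hp0 : (0:ℝ) < p := by exact_mod_cast (by omega : 0 < p)
  have hs : HasSum (fun j : ℕ => (k ^ 2 * (1 / p)) ^ j / (j.factorial : ℝ)) (Real.exp (k ^ 2 * (1 / p))) := by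
    rw [Real.exp_eq_exp_ℝ]
    exact NormedSpace.expSeries_div_hasSum_exp (𝔸 := ℝ) _
  have h1 : ∀ j : ℕ, ek k p j ^ 2 / (p : ℝ) ^ j ≤ (k ^ 2 * (1 / p)) ^ j / (j.factorial : ℝ) := by
    intro j
    unfold ek
    have hf : (1:ℝ) ≤ (j.factorial : ℝ) := by exact_mod_cast Nat.one_le_iff_ne_zero.mpr j.factorial_ne_zero
    have e : (k ^ j / (j.factorial : ℝ)) ^ 2 / (p : ℝ) ^ j = ((k ^ 2 * (1 / p)) ^ j / (j.factorial : ℝ)) * (1 / (j.factorial : ℝ)) := by
      rw [mul_pow, one_div, inv_pow, div_pow]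
      field_simp
      ring
    rw [e]
    have h2 : 1 / (j.factorial : ℝ) ≤ 1 := by rw [div_le_one (by linarith)]; exact hf
    exact mul_le_of_le_one_right (by positivity) h2
  have h0 : ∀ j : ℕ, 0 ≤ ek k p j ^ 2 / (p : ℝ) ^ j := fun j => by positivity
  refine ⟨Summable.of_nonneg_of_le h0 h1 hs.summable, ?_⟩
  rw [← hs.tsum_eq]
  exact (Summable.of_nonneg_of_le h0 h1 hs.summable).tsum_le_tsum h1 hs.summable

/-- polynomial local values -/
noncomputable def tm (m : ℕ) (_p j : ℕ) : ℝ := ((j : ℝ) + 1) ^ m * rr ^ j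

/-- the constant of the local bound -/
noncomputable def Km (m : ℕ) : ℝ := ∑' j : ℕ, ((j : ℝ) + 2) ^ m * rr ^ (j + 1) / (2:ℝ) ^ j

lemma Km_sum (m : ℕ) : Summable fun j : ℕ => ((j : ℝ) + 2) ^ m * rr ^ (j + 1) / (2:ℝ) ^ j := by
  have h1 := summable_pow_mul_geometric_of_norm_lt_one (R := ℝ) m (r := 3 / 5) (by rw [Real.norm_eq_abs]; norm_num [abs_of_pos])
  have h2 := (summable_nat_add_iff 2).mpr h1
  have h3 := h2.mul_left (rr / (3 / 5) ^ 2)
  refine h3.congr fun j => ?_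
  unfold rr
  have e : ((3:ℝ) / 5) ^ j = (6 / 5) ^ j / 2 ^ j := by rw [← div_pow]; norm_num
  push_cast
  rw [pow_add (3 / 5 : ℝ) j 2, e, pow_succ (6 / 5 : ℝ) j]
  field_simp

lemma Km_nonneg (m : ℕ) : 0 ≤ Km m := tsum_nonneg fun j => by
  have := rr_pos
  positivity

lemma tm_zero (m p : ℕ) : tm m p 0 = 1 := by simp [tm]

lemma tm_nonneg (m p j : ℕ) : 0 ≤ tm m p j := by unfold tm; have := rr_pos; positivity

lemma loc_tm (m : ℕ) {p : ℕ} (hp : 2 ≤ p) : (Summable fun j : ℕ => tm m p j / (p : ℝ) ^ j) ∧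
    ∑' j : ℕ, tm m p j / (p : ℝ) ^ j ≤ Real.exp (Km m * (1 / p)) := by
  refine loc_crude' (φ := tm m p) (tm_zero m p) (fun j => tm_nonneg m p _) (fun j => ?_) (Km_sum m) hp
  unfold tm
  push_cast
  rw [add_assoc, one_add_one_eq_two]

/-- the majorants -/
noncomputable def wm (k : ℝ) (m N0 : ℕ) (p j : ℕ) : ℝ := if p < N0 then ek k p j ^ 2 else tm m p j

section
variable {k : ℝ} {m N0 N : ℕ}

lemma wm_zero (p : ℕ) : wm k m N0 p 0 = 1 := by
  unfold wm; split_ifs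
  · simp [ek]
  · exact tm_zero m p

lemma wm_nonneg (p j : ℕ) : 0 ≤ wm k m N0 p j := by
  unfold wm; split_ifs
  · positivity
  · exact tm_nonneg m p j

/-- the sum of `1/p` over the range -/
noncomputable def Dl (N0 N : ℕ) : ℝ := R1 N - R1 N0

lemma sum_wm (h : N0 ≤ N) (a b : ℝ) : ∑ p ∈ Nat.primesBelow N, (if p < N0 then a * (1 / (p:ℝ)) else b * (1 / (p:ℝ))) =
    a * R1 N0 + b * Dl N0 N := by
  have h1 : (Nat.primesBelow N).filter (fun p => p < N0) = Nat.primesBelow N0 := by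
    ext p
    rw [mem_filter, Nat.mem_primesBelow, Nat.mem_primesBelow]
    constructor
    · rintro ⟨⟨_, h2⟩, h3⟩; exact ⟨h3, h2⟩
    · rintro ⟨h2, h3⟩; exact ⟨⟨by omega, h3⟩, h2⟩
  rw [sum_ite, h1, ← mul_sum, ← mul_sum]
  unfold Dl R1
  have h2 := sum_filter_add_sum_filter_not (Nat.primesBelow N) (fun p => p < N0) (fun p => 1 / (p:ℝ))
  rw [h1] at h2
  rw [← h2]
  ring

theorem wm_bound (h : N0 ≤ N) : Sb N (mf (wm k m N0)) ∧
    SS N (mf (wm k m N0)) ≤ Real.exp (k ^ 2 * R1 N0 + Km m * Dl N0 N) := by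
  have hs : ∀ p : ℕ, p.Prime → (Summable fun j : ℕ => wm k m N0 p j / (p : ℝ) ^ j) ∧
      ∑' j : ℕ, wm k m N0 p j / (p : ℝ) ^ j ≤
        Real.exp (if p < N0 then k ^ 2 * (1 / (p:ℝ)) else Km m * (1 / (p:ℝ))) := by
    intro p hp
    by_cases hpN : p < N0
    · have := loc_exp k hp.two_le
      simp only [wm, if_pos hpN]
      exact this
    · have := loc_tm m hp.two_le
      simp only [wm, if_neg hpN]
      exact this
  have h1 := ep_bound (N := N) (c := fun p => if p < N0 then k ^ 2 * (1 / (p:ℝ)) else Km m * (1 / (p:ℝ)))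
    wm_zero wm_nonneg (fun p hp => (hs p hp).1) (fun p hp _ => (hs p hp).2)
  rw [sum_wm h] at h1
  exact h1

theorem tm_bound (m N : ℕ) : Sb N (mf (tm m)) ∧ SS N (mf (tm m)) ≤ Real.exp (Km m * R1 N) := by
  have h1 := ep_bound (N := N) (c := fun p => Km m * (1 / (p:ℝ)))
    (tm_zero m) (tm_nonneg m) (fun p hp => (loc_tm m hp.two_le).1) (fun p hp _ => (loc_tm m hp.two_le).2)
  rw [← mul_sum] at h1
  exact h1

lemma pow_Ob (r : ℝ) (a b n : ℕ) : r ^ Ob a b n = mf (fun p j => if a ≤ p ∧ p < b then r ^ j else 1) n := by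
  rw [Ob_eq_sum, ← prod_pow_eq_pow_sum]
  unfold mf
  refine prod_congr rfl fun p _ => ?_
  by_cases h : a ≤ p ∧ p < b
  · simp only [if_pos h]
  · simp only [if_neg h, pow_zero]

/-- the first majorant -/
lemma wl_sq_le (n : ℕ) : mf (wl k N0) n ^ 2 ≤ mf (wm k 2 N0) n := by
  rw [← mf_pow_fun]
  refine mf_le (fun p j => sq_nonneg _) n fun p _ => ?_
  unfold wl wm
  split_ifs
  · exact le_rfl
  · unfold tl tm
    have := one_le_pow₀ one_le_rr (n := n.factorization p)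
    exact le_mul_of_one_le_right (by positivity) this

lemma wl_sq_Ob (N1 n : ℕ) : mf (wl k N0) n ^ 2 * rr ^ Ob N0 N1 n ≤ mf (wm k 2 N0) n := by
  rw [← mf_pow_fun, pow_Ob, ← mf_mul_fun]
  have hr := rr_pos
  refine mf_le (fun p j => ?_) n fun p _ => ?_
  · split_ifs <;> positivity
  · unfold wl wm
    by_cases h : p < N0
    · rw [if_pos h, if_pos h, if_neg (by omega), mul_one]
    · rw [if_neg h, if_neg h]
      unfold tl tm
      refine mul_le_mul_of_nonneg_left ?_ (by positivity)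
      split_ifs
      · exact le_rfl
      · exact one_le_pow₀ one_le_rr

lemma one_add_Ob_le {a b n : ℕ} : (1:ℝ) + Ob a b n ≤ mf (fun p j => if a ≤ p ∧ p < b then (j:ℝ) + 1 else 1) n := by
  rw [Ob_eq_sum]
  unfold mf
  push_cast
  have : ∀ S : Finset ℕ, (1:ℝ) + ∑ p ∈ S, ((if a ≤ p ∧ p < b then n.factorization p else 0 : ℕ) : ℝ) ≤
      ∏ p ∈ S, (if a ≤ p ∧ p < b then (n.factorization p : ℝ) + 1 else 1) := by
    intro S
    induction S using Finset.induction_on with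
    | empty => simp
    | insert q S hq ih =>
      rw [sum_insert hq, prod_insert hq]
      have h0 : 0 ≤ ∑ p ∈ S, ((if a ≤ p ∧ p < b then n.factorization p else 0 : ℕ) : ℝ) :=
        sum_nonneg fun _ _ => Nat.cast_nonneg _
      split_ifs with h
      · have h1 : (0:ℝ) ≤ (n.factorization q : ℝ) := Nat.cast_nonneg _
        nlinarith
      · rw [Nat.cast_zero]
        linarith
  have h2 := this n.primeFactors
  push_cast at h2
  exact h2

lemma wl_sq_Ob1 (N1 n : ℕ) : mf (wl k N0) n ^ 2 * ((1 + Ob N0 N1 n) * rr ^ Ob N0 N1 n) ≤ mf (wm k 3 N0) n := by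
  have h1 := one_add_Ob_le (a := N0) (b := N1) (n := n)
  have hr := rr_pos
  have hW : 0 ≤ mf (wl k N0) n ^ 2 := sq_nonneg _
  refine (mul_le_mul_of_nonneg_left (mul_le_mul_of_nonneg_right h1 (by positivity)) hW).trans ?_
  rw [← mf_pow_fun, pow_Ob, ← mf_mul_fun, ← mf_mul_fun]
  refine mf_le (fun p j => ?_) n fun p _ => ?_
  · split_ifs <;> positivity
  · unfold wl wm
    by_cases h : p < N0
    · rw [if_pos h, if_pos h, if_neg (by omega), if_neg (by omega), mul_one, mul_one]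
    · rw [if_neg h, if_neg h]
      unfold tl tm
      set j := n.factorization p
      have h2 := one_le_pow₀ one_le_rr (n := j)
      split_ifs
      · exact le_of_eq (by ring)
      · rw [mul_one, mul_one]
        have h3 : (1:ℝ) ≤ (j:ℝ) + 1 := by linarith [Nat.cast_nonneg (α := ℝ) j]
        have h4 : ((j:ℝ) + 1) ^ 2 ≤ ((j:ℝ) + 1) ^ 3 := pow_le_pow_right₀ h3 (by norm_num)
        calc ((j:ℝ) + 1) ^ 2 ≤ ((j:ℝ) + 1) ^ 3 * 1 := by linarith
          _ ≤ _ := mul_le_mul_of_nonneg_left h2 (by positivity)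

lemma tau_pow_Ob (m a b n : ℕ) : tau n ^ m * rr ^ Ob a b n ≤ mf (tm m) n := by
  unfold tau
  rw [← mf_pow_fun, pow_Ob, ← mf_mul_fun]
  have hr := rr_pos
  refine mf_le (fun p j => ?_) n fun p _ => ?_
  · unfold tl
    split_ifs <;> positivity
  · unfold tl tm
    refine mul_le_mul_of_nonneg_left ?_ (by positivity)
    split_ifs
    · exact le_rfl
    · exact one_le_pow₀ one_le_rr

end

/-- the logarithm of a smooth number -/
lemma log_le_Ob {N n : ℕ} (hn : n ∈ Nat.smoothNumbers N) : Real.log n ≤ Ob 0 N n * Real.log N := by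
  have hn0 := (sm_iff.mp hn).1
  have h1 : Real.log n = ∑ p ∈ n.primeFactors, (n.factorization p : ℝ) * Real.log p := by
    conv_lhs => rw [← Nat.prod_factorization_pow_eq_self hn0]
    rw [Finsupp.prod]
    push_cast
    rw [Real.log_prod]
    · refine sum_congr rfl fun p _ => ?_
      rw [Real.log_pow]
    · intro p hp
      have : p ≠ 0 := (Nat.prime_of_mem_primeFactors hp).ne_zero
      positivity
  rw [h1, Ob_eq_sum]
  push_cast
  rw [sum_mul]
  refine sum_le_sum fun p hp => ?_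
  rw [Nat.mem_primeFactors] at hp
  have h2 := (sm_iff.mp hn).2 p hp.1 hp.2.1
  rw [if_pos ⟨Nat.zero_le _, h2⟩]
  refine mul_le_mul_of_nonneg_left ?_ (Nat.cast_nonneg _)
  exact Real.log_le_log (by exact_mod_cast hp.1.pos) (by exact_mod_cast h2.le)

lemma Ob_le_tau {a b n : ℕ} : (1:ℝ) + Ob a b n ≤ tau n := by
  refine one_add_Ob_le.trans ?_
  unfold tau tl
  refine mf_le (fun p j => ?_) n fun p _ => ?_
  · split_ifs <;> positivity
  · split_ifs
    · exact le_rfl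
    · linarith [Nat.cast_nonneg (α := ℝ) (n.factorization p)]

lemma Ob_split {N0 N1 : ℕ} (h : N0 ≤ N1) (n : ℕ) : Ob 0 N1 n = Ob 0 N0 n + Ob N0 N1 n := by
  rw [Ob_eq_sum, Ob_eq_sum, Ob_eq_sum, ← sum_add_distrib]
  refine sum_congr rfl fun p _ => ?_
  split_ifs <;> omega

end Pool.Agent.Q276.CD
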