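import Pool.Agent.Q276.CD.Sm

set_option autoImplicit false

/-! Project CD (helper276), second list of lemma jobs: moderate deviations of `log |ζ(1/2+it)|`. -/

namespace Pool.Agent.Q276.CD

open MeasureTheory Filter

/-- the point `1/2 + it` -/
noncomputable def cl (t : ℝ) : ℂ := 1 / 2 + (t : ℂ) * Complex.I

/-- the Dirichlet polynomial `∑_{n ≤ Y} a(n) n^{-s}` -/
noncomputable def Dp (a : ℕ → ℂ) (Y : ℕ) (s : ℂ) : ℂ := ∑ n ∈ Finset.Icc 1 Y, a n * (n : ℂ) ^ (-s)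

/-- the same for a real arithmetic function -/
noncomputable def Dr (f : ArithmeticFunction ℝ) (Y : ℕ) (s : ℂ) : ℂ := Dp (fun n => ((f n : ℝ) : ℂ)) Y s

/-- number of prime factors allowed in the first block -/
noncomputable def d0 (T : ℝ) : ℕ := ⌈V T ^ 2⌉₊

/-- the end of the second block of primes, `T ^ (1 / (log V)^3)` -/
noncomputable def y1 (T : ℝ) : ℕ := ⌊Real.exp (Real.log T / l3 T ^ 3)⌋₊ + 1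

/-- number of prime factors allowed in the second block -/
noncomputable def d1 (T : ℝ) : ℕ := ⌈l3 T ^ 2⌉₊

/-- the common length `T ^ (1/20)` of the short polynomials -/
noncomputable def y2 (T : ℝ) : ℕ := ⌊T ^ ((1:ℝ) / 20)⌋₊

/-- the length of the partial sum of zeta -/
noncomputable def NN (T : ℝ) : ℕ := ⌈8 * T⌉₊

/-- the truncated exponential of `k ∑_{p < y0} p^{-s}` -/
noncomputable def AA (k T : ℝ) (s : ℂ) : ℂ := Dr (aI k (y0 T) (d0 T)) (y2 T) s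

/-- the mollifier -/
noncomputable def MM (T : ℝ) (s : ℂ) : ℂ := Dr (muM (y0 T) (d0 T) (y1 T) (d1 T)) (y2 T) s

/-- the partial sum of zeta -/
noncomputable def ZZ (T : ℝ) (s : ℂ) : ℂ := Dp (fun _ => 1) (NN T) s

/-- the product -/
noncomputable def FF (k T : ℝ) (s : ℂ) : ℂ := ZZ T s * AA k T s * MM T s

/-- the first terms of the Dirichlet series of the product -/
noncomputable def DL (k T : ℝ) (s : ℂ) : ℂ := Dr (cM k (y0 T) (d0 T) (y1 T) (d1 T)) (y2 T) s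

/-- JOB MVC: crude mean value theorem for short Dirichlet polynomials. -/
def P_MVC : Prop := ∀ (a : ℕ → ℂ) (Y : ℕ) (T1 T2 : ℝ), T1 ≤ T2 →
  |(∫ t in T1..T2, ‖Dp a Y (cl t)‖ ^ 2) - (T2 - T1) * ∑ n ∈ Finset.Icc 1 Y, ‖a n‖ ^ 2 / (n:ℝ)| ≤
    4 * Y * (∑ n ∈ Finset.Icc 1 Y, ‖a n‖) ^ 2

/-- JOB SH: moving the line of integration. -/
def P_SH : Prop := ∀ (a : ℕ → ℂ) (y Y : ℕ) (T Δ : ℝ), 4 ≤ T → 1 ≤ y → y ≤ Y → (∀ n, n < y → a n = 0) →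
  0 < Δ → Δ ≤ 1 →
  (∀ t ∈ Set.Icc (T / 2) (4 * T), ∀ R : ℝ, T / 4 ≤ R →
    ∫ u in (t - R)..(t + R), ‖Dp a Y (cl u)‖ ^ 2 ≤ T ^ ((1:ℝ) / 2) * R) →
  (∫ t in (T / 2)..(4 * T), ‖Dp a Y (cl t + Δ)‖ ^ 2 ≤
    (y : ℝ) ^ (-(2 * Δ)) * ((∫ u in (T / 4)..(8 * T), ‖Dp a Y (cl u)‖ ^ 2) + 20 * T ^ ((1:ℝ) / 2))) ∧
  (∫ t in (T / 2)..(4 * T), ‖Dp a Y (cl t - Δ)‖ ^ 2 ≤
    (Y : ℝ) ^ (2 * Δ) * ((∫ u in (T / 4)..(8 * T), ‖Dp a Y (cl u)‖ ^ 2) + 20 * T ^ ((1:ℝ) / 2)))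

/-- the mean of `|G(t, ·)|^2` over the circle of radius `9`, times `81` -/
noncomputable def CA (G : ℝ → ℂ → ℂ) (t : ℝ) : ℝ :=
  81 * ((2 * Real.pi)⁻¹ * ∫ θ in (0:ℝ)..(2 * Real.pi), ‖G t (circleMap 0 9 θ)‖ ^ 2)

/-- JOB CIR: suprema over the disc of radius `8` on average. -/
def P_CIR : Prop := ∀ G : ℝ → ℂ → ℂ, Continuous (fun q : ℝ × ℂ => G q.1 q.2) → (∀ t, Differentiable ℂ (G t)) →
  Continuous (CA G) ∧ (∀ t, ∀ z : ℂ, ‖z‖ ≤ 8 → ‖G t z‖ ^ 2 ≤ CA G t) ∧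
  ∀ T1 T2 B : ℝ, T1 ≤ T2 → (∀ θ ∈ Set.Icc (0:ℝ) (2 * Real.pi), ∫ t in T1..T2, ‖G t (circleMap 0 9 θ)‖ ^ 2 ≤ B) →
    ∫ t in T1..T2, CA G t ≤ 81 * B

/-- JOB LOC: the set where an analytic function is small. -/
def P_LOC : Prop := ∃ C : ℝ, 1 ≤ C ∧ ∀ (f : ℂ → ℂ) (m w a : ℝ), DifferentiableOn ℂ f (Metric.ball 0 9) →
  0 ≤ m → 0 < a → (∀ z : ℂ, ‖z‖ ≤ 8 → ‖f z‖ ≤ Real.exp m * a) → a / 2 ≤ ‖f (-Complex.I)‖ →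
  volume.real {x : ℝ | x ∈ Set.Icc (-1:ℝ) 1 ∧ ‖f (x : ℂ)‖ ≤ a * Real.exp (-w)} ≤
    C * Real.exp (-(w / (2 * m + 5)))

/-- JOB ZN: approximation of zeta by the partial sum. -/
def P_ZN : Prop := ∃ C : ℝ, 0 < C ∧ ∀ T : ℝ, 4 ≤ T → ∀ t ∈ Set.Icc (T / 4) (8 * T),
  ‖riemannZeta (cl t) - ZZ T (cl t)‖ ≤ C * T ^ (-(1:ℝ) / 2)

/-- JOB TW: upper bound for a twisted second moment. -/
def P_TW : Prop := ∃ η : ℝ, 0 < η ∧ ∃ C : ℝ, 0 < C ∧ ∀ᶠ T : ℝ in atTop,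
  ∀ (f : ArithmeticFunction ℝ) (N Y : ℕ) (G : Set ℕ), (N:ℝ) ≤ T → (Y:ℝ) ≤ T ^ ((1:ℝ) / 20) →
  (∀ n, f n ≠ 0 → n ≤ Y ∧ n ∈ Nat.smoothNumbers N) → (∀ d n : ℕ, d ∣ n → n ∈ G → d ∈ G) →
  (∀ n ∈ G, 0 ≤ (f * ((ArithmeticFunction.zeta : ArithmeticFunction ℕ) : ArithmeticFunction ℝ)) n) →
  Sb N (fun n => (f * ((ArithmeticFunction.zeta : ArithmeticFunction ℕ) : ArithmeticFunction ℝ)) n ^ 2 *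
    (1 + Real.log n)) →
  ∫ t in (T / 4)..(8 * T), ‖riemannZeta (cl t)‖ ^ 2 * ‖Dr f Y (cl t)‖ ^ 2 ≤
    C * T * Real.exp (-R1 N) * (Real.log T *
      SS N (fun n => (f * ((ArithmeticFunction.zeta : ArithmeticFunction ℕ) : ArithmeticFunction ℝ)) n ^ 2) +
      SS N (fun n => (Gᶜ).indicator (fun n =>
        (f * ((ArithmeticFunction.zeta : ArithmeticFunction ℕ) : ArithmeticFunction ℝ)) n ^ 2 * Real.log n) n)) +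
    T ^ (1 - η) * (∑ n ∈ Finset.Icc 1 Y, |f n|) ^ 2

/-- JOB EXPO: `AA` is the truncated exponential. -/
def P_EXPO : Prop := ∀ (k : ℝ) (N d Y : ℕ), 1 ≤ N → N ^ d ≤ Y → ∀ t : ℝ,
  Dr (aI k N d) Y (cl t) = ∑ j ∈ Finset.range (d + 1), ((k : ℂ) * PS N t) ^ j / (j.factorial : ℂ)

/-- JOB TINY: large values of the prime sum are very rare. -/
def P_TINY : Prop := ∀ᶠ T : ℝ in atTop,
  volume.real {t : ℝ | t ∈ Set.Icc (T / 2) (4 * T) ∧ V T ^ 2 / 40 < ‖PS (y0 T) t‖} ≤ T * Real.exp (-(2 * V T ^ 2))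

/-- JOB FN: the product as a Dirichlet polynomial, and its growth. -/
def P_FN : Prop := ∀ᶠ T : ℝ in atTop, ∀ k : ℝ, 0 ≤ k → k ≤ 1 → ∃ h : ℕ → ℂ,
  (∀ s : ℂ, FF k T s = Dp h (NN T * (y2 T * y2 T)) s) ∧
  (∀ s : ℂ, FF k T s - DL k T s = Dp (fun n => if n ≤ y2 T then 0 else h n) (NN T * (y2 T * y2 T)) s) ∧
  ∀ t ∈ Set.Icc (T / 2) (4 * T), ∀ R : ℝ, T / 4 ≤ R →
    (∫ u in (t - R)..(t + R), ‖FF k T (cl u)‖ ^ 2 ≤ T ^ ((1:ℝ) / 2) * R) ∧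
    (∫ u in (t - R)..(t + R), ‖FF k T (cl u) - DL k T (cl u)‖ ^ 2 ≤ T ^ ((1:ℝ) / 2) * R)

/-- JOB M1. -/
def P_M1 : Prop := ∃ C : ℝ, 0 < C ∧ ∀ᶠ T : ℝ in atTop, ∀ k : ℝ, 0 ≤ k → k ≤ 1 →
  ∫ t in (T / 4)..(8 * T), ‖AA k T (cl t)‖ ^ 2 ≤ C * T * Real.exp (k ^ 2 * V T)

/-- JOB M2. -/
def P_M2 : Prop := ∃ C : ℝ, 0 < C ∧ ∀ᶠ T : ℝ in atTop, ∀ k : ℝ, 0 ≤ k → k ≤ 1 →
  ∫ t in (T / 4)..(8 * T), ‖Dr (aI (k + 1) (y0 T) (d0 T)) (y2 T) (cl t) * MM T (cl t)‖ ^ 2 ≤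
    T * V T ^ C * Real.exp (k ^ 2 * V T)

/-- JOB M3. -/
def P_M3 : Prop := ∃ C1 : ℝ, 0 < C1 ∧ ∀ C2 : ℝ, C1 ≤ C2 → ∀ᶠ T : ℝ in atTop, ∀ k : ℝ, 0 ≤ k → k ≤ 1 →
  ∫ t in (T / 4)..(8 * T), ‖DL k T (cl t + ((C2 * l3 T ^ 4 / Real.log T : ℝ) : ℂ)) - AA k T (cl t)‖ ^ 2 ≤
    T * V T ^ (-(3:ℝ)) * Real.exp (k ^ 2 * V T)

/-- JOB M4. -/
def P_M4 : Prop := ∃ C : ℝ, 0 < C ∧ ∀ᶠ T : ℝ in atTop, ∀ k : ℝ, 0 ≤ k → k ≤ 1 →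
  ∫ t in (T / 4)..(8 * T), ‖DL k T (cl t)‖ ^ 2 ≤ T * V T ^ C * Real.exp (k ^ 2 * V T)

/-- JOB M5. -/
def P_M5 : Prop := ∃ C : ℝ, 0 < C ∧ ∀ᶠ T : ℝ in atTop, ∀ k : ℝ, 0 ≤ k → k ≤ 1 →
  ∫ t in (T / 4)..(8 * T), ‖riemannZeta (cl t)‖ ^ 2 * ‖AA k T (cl t) * MM T (cl t)‖ ^ 2 ≤
    T * V T ^ C * Real.exp (k ^ 2 * V T)

/-- JOB M6. -/
def P_M6 : Prop := ∃ C : ℝ, 0 < C ∧ ∀ᶠ T : ℝ in atTop, ∀ k : ℝ, 0 ≤ k → k ≤ 1 → ∀ z : ℂ,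
  ‖z‖ * Real.log T ≤ V T → ∫ t in (T / 4)..(8 * T), ‖AA k T (cl t + z) - AA k T (cl t)‖ ^ 2 ≤
    C * T * Real.exp (k ^ 2 * V T) * (‖z‖ * Real.log T) ^ 2 * V T ^ (-(4:ℝ))

/-- JOB M7. -/
def P_M7 : Prop := ∃ C : ℝ, 0 < C ∧ ∀ᶠ T : ℝ in atTop, ∀ k : ℝ, 0 ≤ k → k ≤ 1 →
  ∫ t in (T / 4)..(8 * T), ‖riemannZeta (cl t)‖ ^ 2 * ‖Dr (aI (k - 1) (y0 T) (d0 T)) (y2 T) (cl t)‖ ^ 2 ≤
    T * V T ^ C * Real.exp (k ^ 2 * V T)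

/-- JOB M8: the product near the critical line. -/
def P_M8 : Prop := ∃ C : ℝ, 0 < C ∧ ∀ᶠ T : ℝ in atTop, ∀ k : ℝ, 0 ≤ k → k ≤ 1 → ∀ lam : ℝ, 1 ≤ lam →
  lam ≤ V T → ∀ z : ℂ, ‖z‖ ≤ 9 * lam / Real.log T →
  ∫ t in (T / 2 + 1)..(4 * T - 1), ‖FF k T (cl t + z)‖ ^ 2 ≤
    T * Real.exp (C * lam) * V T ^ C * Real.exp (k ^ 2 * V T)

/-- JOB M9: the product to the right of the critical line. -/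
def P_M9 : Prop := ∃ C2 : ℝ, 0 < C2 ∧ ∀ᶠ T : ℝ in atTop, ∀ k : ℝ, 0 ≤ k → k ≤ 1 →
  ∫ t in (T / 2)..(4 * T), ‖FF k T (cl t + ((C2 * l3 T ^ 4 / Real.log T : ℝ) : ℂ)) - AA k T (cl t)‖ ^ 2 ≤
    T * V T ^ (-(2:ℝ)) * Real.exp (k ^ 2 * V T)

/-- JOB LOCF: the mollified zeta function is rarely small, with the weight `|AA|^2`. -/
def P_LOCF : Prop := ∃ C : ℝ, 0 < C ∧ ∀ᶠ T : ℝ in atTop, ∀ k : ℝ, 0 ≤ k → k ≤ 1 → ∀ w : ℝ,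
  C * l3 T ^ 5 ≤ w →
  ∫ t in {t : ℝ | t ∈ Set.Icc T (2 * T) ∧ ‖riemannZeta (cl t) * MM T (cl t)‖ ≤ Real.exp (-w)},
    ‖AA k T (cl t)‖ ^ 2 ≤ C * T * V T ^ (-(2:ℝ)) * Real.exp (k ^ 2 * V T)

end Pool.Agent.Q276.CD
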