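import Pool.Agent.Q276.CD.Sm

set_option autoImplicit false

/-! Sums over the smooth numbers divisible by a given number, convolutions. -/

namespace Pool.Agent.Q276.CD

open Finset Filter

lemma sf_apply_of {N : ℕ} {g : ℕ → ℝ} {n : ℕ} (hn : n ∈ Nat.smoothNumbers N) : sf N g n = g n / (n:ℝ) := by
  unfold sf; rw [Set.indicator_of_mem hn]

lemma sf_apply_not {N : ℕ} {g : ℕ → ℝ} {n : ℕ} (hn : n ∉ Nat.smoothNumbers N) : sf N g n = 0 := by
  unfold sf; rw [Set.indicator_of_notMem hn]

lemma Sb.hasSum {N : ℕ} {g : ℕ → ℝ} (h : Sb N g) : HasSum (sf N g) (SS N g) := Summable.hasSum h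

/-- the multiples of `a` -/
lemma hasSum_dvd {N a : ℕ} (ha : a ∈ Nat.smoothNumbers N) {g : ℕ → ℝ} {s : ℝ}
    (h : HasSum (sf N fun m => g (a * m)) s) :
    HasSum (sf N fun n => if a ∣ n then g n else 0) (s / a) := by
  have ha0 : a ≠ 0 := (sm_iff.mp ha).1
  have hinj : Function.Injective (fun m : ℕ => a * m) := fun x y hxy => Nat.eq_of_mul_eq_mul_left (Nat.pos_of_ne_zero ha0) hxy
  rw [← hinj.hasSum_iff]
  · have e : ((sf N fun n => if a ∣ n then g n else 0) ∘ fun m : ℕ => a * m) =
        fun m => sf N (fun m => g (a * m)) m / a := by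
      funext m
      simp only [Function.comp]
      by_cases hm : m ∈ Nat.smoothNumbers N
      · rw [sf_apply_of hm, sf_apply_of (sm_mul.mpr ⟨ha, hm⟩), if_pos (dvd_mul_right a m)]
        push_cast
        rw [div_div, mul_comm (a:ℝ)]
      · rw [sf_apply_not hm, sf_apply_not (fun h => hm (sm_mul.mp h).2), zero_div]
    rw [e]
    exact h.div_const _
  · intro n hn
    by_cases hs : n ∈ Nat.smoothNumbers N
    · rw [sf_apply_of hs, if_neg, zero_div]
      rintro ⟨m, rfl⟩
      exact hn ⟨m, rfl⟩
    · exact sf_apply_not hs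

/-- `∑ 1/n` over the smooth numbers -/
noncomputable def Zs (N : ℕ) : ℝ := SS N fun _ => 1

/-- `∑ log n / n` over the smooth numbers -/
noncomputable def Lz (N : ℕ) : ℝ := SS N fun n => Real.log n

lemma Sb_tau (N m : ℕ) : Sb N fun n => tau n ^ m := by
  refine Sb_of_le (tm_bound m N).1 fun n _ => ?_
  have := tau_pow_Ob m 0 0 n
  rw [abs_of_nonneg (pow_nonneg (tau_nonneg n) m)]
  refine le_trans (le_mul_of_one_le_right (pow_nonneg (tau_nonneg n) m) ?_) this
  exact one_le_pow₀ one_le_rr

lemma Sb_one (N : ℕ) : Sb N fun _ => 1 := by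
  have := Sb_tau N 0
  simpa using this

lemma log_le_tau {N n : ℕ} (hn : n ∈ Nat.smoothNumbers N) : Real.log n ≤ tau n * Real.log N := by
  have hN : 0 ≤ Real.log (N:ℝ) := Real.log_natCast_nonneg N
  refine (log_le_Ob hn).trans (mul_le_mul_of_nonneg_right ?_ hN)
  have := Ob_le_tau (a := 0) (b := N) (n := n)
  linarith

lemma Sb_tau_log (N m : ℕ) : Sb N fun n => tau n ^ m * Real.log n := by
  refine Sb_of_le ((Sb_tau N (m + 1)).const_mul (Real.log N)) fun n hn => ?_
  have h1 := log_le_tau hn
  have h2 := tau_nonneg n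
  rw [abs_of_nonneg (mul_nonneg (pow_nonneg h2 m) (Real.log_natCast_nonneg n)), pow_succ]
  have := mul_le_mul_of_nonneg_left h1 (pow_nonneg h2 m)
  linarith

lemma Sb_log (N : ℕ) : Sb N fun n => Real.log n := by
  have := Sb_tau_log N 0
  simpa using this

lemma Zs_pos (N : ℕ) : 0 < Zs N := by
  have h1 : sf N (fun _ => (1:ℝ)) 1 ≤ Zs N :=
    (Sb_one N).le_tsum 1 fun n _ => sf_nonneg (fun _ _ => zero_le_one) n
  rw [sf_apply_of (sm_one N)] at h1
  norm_num at h1
  linarith

lemma Lz_nonneg (N : ℕ) : 0 ≤ Lz N := SS_nonneg fun n _ => Real.log_natCast_nonneg n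

lemma hasSum_dvd_one {N a : ℕ} (ha : a ∈ Nat.smoothNumbers N) :
    HasSum (sf N fun n => if a ∣ n then 1 else 0) (Zs N / a) :=
  hasSum_dvd (g := fun _ => 1) ha (Sb_one N).hasSum

lemma hasSum_dvd_log {N a : ℕ} (ha : a ∈ Nat.smoothNumbers N) :
    HasSum (sf N fun n => if a ∣ n then Real.log n else 0) ((Real.log a * Zs N + Lz N) / a) := by
  refine hasSum_dvd (g := fun n => Real.log n) ha ?_
  have ha0 : a ≠ 0 := (sm_iff.mp ha).1
  have h1 := ((Sb_one N).hasSum.mul_left (Real.log a)).add (Sb_log N).hasSum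
  refine h1.congr_fun ?_
  intro m
  by_cases hm : m ∈ Nat.smoothNumbers N
  · have hm0 : m ≠ 0 := (sm_iff.mp hm).1
    rw [sf_apply_of hm, sf_apply_of hm, sf_apply_of hm]
    push_cast
    rw [Real.log_mul (by exact_mod_cast ha0) (by exact_mod_cast hm0)]
    ring
  · rw [sf_apply_not hm, sf_apply_not hm, sf_apply_not hm]; ring

/-- convolutions -/
theorem conv_SS {N : ℕ} (f g : ArithmeticFunction ℝ) (hf : Sb N f) (hg : Sb N g) :
    HasSum (sf N fun n => (f * g) n) (SS N f * SS N g) := by
  have hsum := summable_mul_of_summable_norm (Summable.norm hf) (Summable.norm hg)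
  have h1 := (hf.hasSum.mul hg.hasSum hsum).tsum_fiberwise (fun p : ℕ × ℕ => p.1 * p.2)
  refine h1.congr_fun ?_
  intro n
  by_cases hn : n ∈ Nat.smoothNumbers N
  · have hn0 : n ≠ 0 := (sm_iff.mp hn).1
    rw [show (fun p : ℕ × ℕ ↦ p.1 * p.2) ⁻¹' {n} = n.divisorsAntidiagonal by ext; simp [hn0],
      Finset.tsum_subtype' n.divisorsAntidiagonal fun p ↦ sf N f p.1 * sf N g p.2, sf_apply_of hn,
      ArithmeticFunction.mul_apply, sum_div]
    refine sum_congr rfl fun p hp => ?_
    rw [Nat.mem_divisorsAntidiagonal] at hp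
    obtain ⟨a, b⟩ := p
    simp only at hp ⊢
    rw [← hp.1] at hn ⊢
    rw [sf_apply_of (sm_mul.mp hn).1, sf_apply_of (sm_mul.mp hn).2]
    push_cast
    rw [div_mul_div_comm]
  · rw [sf_apply_not hn]
    symm
    rw [← tsum_zero]
    refine tsum_congr fun p => ?_
    obtain ⟨⟨a, b⟩, hp⟩ := p
    simp only [Set.mem_preimage, Set.mem_singleton_iff] at hp
    simp only
    by_cases ha : a ∈ Nat.smoothNumbers N
    · by_cases hb : b ∈ Nat.smoothNumbers N
      · exact absurd (hp ▸ sm_mul.mpr ⟨ha, hb⟩) hn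
      · rw [sf_apply_not hb, mul_zero]
    · rw [sf_apply_not ha, zero_mul]

/-- the von Mangoldt function is summable over the smooth numbers -/
lemma Sb_vonMangoldt (N : ℕ) : Sb N fun n => ArithmeticFunction.vonMangoldt n := by
  refine Sb_of_le (Sb_log N) fun n _ => ?_
  rw [abs_of_nonneg ArithmeticFunction.vonMangoldt_nonneg]
  exact ArithmeticFunction.vonMangoldt_le_log

lemma vM_mul (N : ℕ) : SS N (fun n => ArithmeticFunction.vonMangoldt n) * Zs N = Lz N := by
  have h1 := conv_SS (N := N) ArithmeticFunction.vonMangoldt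
    ((ArithmeticFunction.zeta : ArithmeticFunction ℕ) : ArithmeticFunction ℝ) (Sb_vonMangoldt N)
    (by
      refine Sb_of_le (Sb_one N) fun n hn => ?_
      rw [ArithmeticFunction.natCoe_apply, ArithmeticFunction.zeta_apply_ne (sm_iff.mp hn).1]
      simp)
  rw [ArithmeticFunction.vonMangoldt_mul_zeta] at h1
  have h2 : SS N (fun n => (((ArithmeticFunction.zeta : ArithmeticFunction ℕ) : ArithmeticFunction ℝ)) n) = Zs N := by
    refine SS_congr fun n hn => ?_
    rw [ArithmeticFunction.natCoe_apply, ArithmeticFunction.zeta_apply_ne (sm_iff.mp hn).1]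
    simp
  rw [h2] at h1
  have h3 : HasSum (sf N fun n => Real.log n) (Lz N) := (Sb_log N).hasSum
  exact h1.unique h3

/-- the mean of the logarithm -/
lemma Lz_le (N : ℕ) : Lz N ≤ 2 * RL N * Zs N := by
  -- the mean of the valuations
  have hv : ∀ p ∈ Nat.primesBelow N, HasSum (sf N fun n => (n.factorization p : ℝ)) (Zs N / ((p:ℝ) - 1)) := by
    intro p hp
    rw [Nat.mem_primesBelow] at hp
    have hp1 : (1:ℝ) < p := by exact_mod_cast hp.2.one_lt
    have hps : p ∈ Nat.smoothNumbers N := by
      rw [sm_iff]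
      exact ⟨hp.2.ne_zero, fun q hq hd => by rw [(Nat.prime_dvd_prime_iff_eq hq hp.2).mp hd]; exact hp.1⟩
    have hsb : Sb N fun n => (n.factorization p : ℝ) := by
      refine Sb_of_le (Sb_tau N 1) fun n hn => ?_
      rw [Nat.abs_cast, pow_one]
      refine le_trans ?_ (Ob_le_tau (a := 0) (b := N) (n := n))
      have hn0 := (sm_iff.mp hn).1
      by_cases hd : p ∣ n
      · rw [Ob_eq_sum]
        push_cast
        have h1 : (n.factorization p : ℝ) ≤ ∑ q ∈ n.primeFactors, (if 0 ≤ q ∧ q < N then (n.factorization q : ℝ) else 0) := by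
          have h2 := single_le_sum (f := fun q => (if 0 ≤ q ∧ q < N then (n.factorization q : ℝ) else 0))
            (fun q _ => by split_ifs <;> positivity) (Nat.mem_primeFactors.mpr ⟨hp.2, hd, hn0⟩)
          rw [if_pos ⟨Nat.zero_le p, hp.1⟩] at h2
          exact h2
        linarith
      · rw [Nat.factorization_eq_zero_of_not_dvd hd]
        push_cast
        positivity
    have h1 := hsb.hasSum
    set s := SS N fun n => (n.factorization p : ℝ) with hs
    have h2 : HasSum (sf N fun m => ((p * m).factorization p : ℝ)) (Zs N + s) := by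
      refine ((Sb_one N).hasSum.add h1).congr_fun fun m => ?_
      by_cases hm : m ∈ Nat.smoothNumbers N
      · have hm0 : m ≠ 0 := (sm_iff.mp hm).1
        rw [sf_apply_of hm, sf_apply_of hm, sf_apply_of hm, Nat.factorization_mul hp.2.ne_zero hm0,
          Finsupp.add_apply, hp.2.factorization_self]
        push_cast
        ring
      · rw [sf_apply_not hm, sf_apply_not hm, sf_apply_not hm]; ring
    have h3 := hasSum_dvd (g := fun n => (n.factorization p : ℝ)) hps h2
    have h4 : HasSum (sf N fun n => (n.factorization p : ℝ)) ((Zs N + s) / p) := by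
      refine h3.congr_fun fun n => ?_
      by_cases hn : n ∈ Nat.smoothNumbers N
      · rw [sf_apply_of hn, sf_apply_of hn]
        by_cases hd : p ∣ n
        · rw [if_pos hd]
        · rw [if_neg hd, Nat.factorization_eq_zero_of_not_dvd hd]; simp
      · rw [sf_apply_not hn, sf_apply_not hn]
    have h5 : s = (Zs N + s) / p := h1.unique h4
    have h6 : s = Zs N / ((p:ℝ) - 1) := by
      rw [eq_div_iff (by linarith)]
      rw [eq_div_iff (by linarith)] at h5
      linarith
    rw [← h6]
    exact h1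
  have h1 : HasSum (fun n => ∑ p ∈ Nat.primesBelow N, Real.log p * sf N (fun n => (n.factorization p : ℝ)) n)
      (∑ p ∈ Nat.primesBelow N, Real.log p * (Zs N / ((p:ℝ) - 1))) :=
    hasSum_sum fun p hp => (hv p hp).mul_left _
  have h2 : Lz N = ∑ p ∈ Nat.primesBelow N, Real.log p * (Zs N / ((p:ℝ) - 1)) := by
    refine (Sb_log N).hasSum.unique (h1.congr_fun fun n => ?_)
    by_cases hn : n ∈ Nat.smoothNumbers N
    · have hn0 := (sm_iff.mp hn).1
      rw [sf_apply_of hn]
      have e1 : Real.log n = ∑ p ∈ Nat.primesBelow N, (n.factorization p : ℝ) * Real.log p := by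
        have e2 : Real.log n = ∑ p ∈ n.primeFactors, (n.factorization p : ℝ) * Real.log p := by
          conv_lhs => rw [← Nat.prod_factorization_pow_eq_self hn0]
          rw [Finsupp.prod]
          push_cast
          rw [Real.log_prod]
          · refine sum_congr rfl fun p _ => ?_
            rw [Real.log_pow]
          · intro p hp
            have : p ≠ 0 := (Nat.prime_of_mem_primeFactors hp).ne_zero
            positivity
        rw [e2]
        refine sum_subset (fun p hp => ?_) fun p _ hp => ?_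
        · rw [Nat.mem_primeFactors] at hp
          rw [Nat.mem_primesBelow]
          exact ⟨(sm_iff.mp hn).2 p hp.1 hp.2.1, hp.1⟩
        · rw [Nat.support_factorization n |>.symm, Finsupp.notMem_support_iff] at hp
          rw [hp]; simp
      rw [e1, sum_div]
      refine sum_congr rfl fun p _ => ?_
      rw [sf_apply_of hn]
      ring
    · rw [sf_apply_not hn]
      symm
      exact sum_eq_zero fun p _ => by rw [sf_apply_not hn, mul_zero]
  rw [h2]
  unfold RL
  rw [mul_assoc, sum_mul, mul_sum]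
  refine sum_le_sum fun p hp => ?_
  rw [Nat.mem_primesBelow] at hp
  have hp2 : (2:ℝ) ≤ p := by exact_mod_cast hp.2.two_le
  have hl : 0 ≤ Real.log p := Real.log_nonneg (by linarith)
  have hz := (Zs_pos N).le
  have h3 : 1 / ((p:ℝ) - 1) ≤ 2 / p := by
    rw [div_le_div_iff₀ (by linarith) (by linarith)]
    linarith
  calc Real.log p * (Zs N / ((p:ℝ) - 1)) = (Real.log p * Zs N) * (1 / ((p:ℝ) - 1)) := by ring
    _ ≤ (Real.log p * Zs N) * (2 / p) := mul_le_mul_of_nonneg_left h3 (mul_nonneg hl hz)
    _ = _ := by ring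

end Pool.Agent.Q276.CD
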