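import Pool.Agent.Q276.CD.Tw1

set_option autoImplicit false

/-! The quadratic form of the twisted second moment. -/

namespace Pool.Agent.Q276.CD

open Finset Filter

/-- zeta as a real arithmetic function -/
noncomputable def zt : ArithmeticFunction ℝ := ((ArithmeticFunction.zeta : ArithmeticFunction ℕ) : ArithmeticFunction ℝ)

lemma Zs_ge (N : ℕ) : Real.exp (R1 N) ≤ Zs N := by
  have hs : ∀ p : ℕ, p.Prime → HasSum (fun j : ℕ => (1:ℝ) / (p : ℝ) ^ j) (1 - 1 / (p:ℝ))⁻¹ := by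
    intro p hp
    have hp2 : (2:ℝ) ≤ p := by exact_mod_cast hp.two_le
    have h1 : 1 / (p:ℝ) < 1 := by rw [div_lt_one (by linarith)]; linarith
    have := hasSum_geometric_of_lt_one (r := 1 / (p:ℝ)) (by positivity) h1
    refine this.congr_fun fun j => ?_
    rw [div_pow, one_pow]
  obtain ⟨e1, e2⟩ := ep_main (φ := fun _ _ => (1:ℝ)) (fun _ => rfl)
    (fun p hp => (hs p hp).summable.congr fun j => by rw [abs_one]) N
  have e3 : SS N (mf fun _ _ => (1:ℝ)) = Zs N := by
    unfold Zs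
    refine SS_congr fun n _ => ?_
    unfold mf
    simp
  rw [← e3, e2]
  unfold R1
  rw [Real.exp_sum]
  refine prod_le_prod (fun p _ => (Real.exp_pos _).le) fun p hp => ?_
  have hpp := Nat.prime_of_mem_primesBelow hp
  rw [(hs p hpp).tsum_eq]
  have hp2 : (2:ℝ) ≤ p := by exact_mod_cast hpp.two_le
  have h1 : 1 / (p:ℝ) ≤ 1 / 2 := one_div_le_one_div_of_le (by norm_num) hp2
  have h2 := Real.add_one_le_exp (-(1 / (p:ℝ)))
  rw [Real.exp_neg] at h2
  rw [le_inv_comm₀ (Real.exp_pos _) (by linarith)]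
  linarith

section
variable {N : ℕ} {F : Finset ℕ} {f : ArithmeticFunction ℝ}

lemma c_eq (hf : ∀ n, n ∉ F → f n = 0) {n : ℕ} (hn : n ≠ 0) :
    (f * zt) n = ∑ h ∈ F, if h ∣ n then f h else 0 := by
  unfold zt
  rw [ArithmeticFunction.coe_mul_zeta_apply, ← sum_filter]
  symm
  refine sum_subset_zero_on_sdiff ?_ ?_ fun _ _ => rfl
  · intro h hh
    rw [mem_filter] at hh
    exact Nat.mem_divisors.mpr ⟨hh.2, hn⟩
  · intro h hh
    rw [Finset.mem_sdiff, mem_filter, Nat.mem_divisors] at hh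
    exact hf h fun hc => hh.2 ⟨hc, hh.1.1⟩

lemma k_eq (hF : ∀ n ∈ F, n ≠ 0) (hf : ∀ n, n ∉ F → f n = 0) {n : ℕ} (hn : n ≠ 0) :
    (f * ArithmeticFunction.log) n = ∑ h ∈ F, if h ∣ n then f h * (Real.log n - Real.log h) else 0 := by
  rw [ArithmeticFunction.mul_apply,
    Nat.sum_divisorsAntidiagonal (fun i j => f i * ArithmeticFunction.log j), ← sum_filter]
  symm
  refine sum_subset_zero_on_sdiff ?_ ?_ ?_
  · intro h hh
    rw [mem_filter] at hh
    exact Nat.mem_divisors.mpr ⟨hh.2, hn⟩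
  · intro h hh
    rw [Finset.mem_sdiff, mem_filter, Nat.mem_divisors] at hh
    rw [hf h fun hc => hh.2 ⟨hc, hh.1.1⟩, zero_mul]
  · intro h hh
    rw [mem_filter] at hh
    have hh0 := hF h hh.1
    rw [ArithmeticFunction.log_apply, Nat.cast_div hh.2 (by exact_mod_cast hh0),
      Real.log_div (by exact_mod_cast hn) (by exact_mod_cast hh0)]

/-- the quadratic form -/
noncomputable def Qf (F : Finset ℕ) (f : ArithmeticFunction ℝ) (w : ℕ → ℕ → ℝ) : ℝ :=
  ∑ h ∈ F, ∑ l ∈ F, f h * f l * w h l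

lemma hasSum_sq (hF : ∀ n ∈ F, n ∈ Nat.smoothNumbers N) (hf : ∀ n, n ∉ F → f n = 0) :
    HasSum (sf N fun n => (f * zt) n ^ 2) (Zs N * Qf F f fun h l => 1 / (Nat.lcm h l : ℝ)) := by
  have hl : ∀ h ∈ F, ∀ l ∈ F, Nat.lcm h l ∈ Nat.smoothNumbers N := by
    intro h hh l hl
    have h1 := hF h hh
    have h2 := hF l hl
    exact sm_dvd (Nat.lcm_dvd_mul h l) (sm_mul.mpr ⟨h1, h2⟩)
  have h1 : HasSum (fun n => ∑ h ∈ F, ∑ l ∈ F, f h * f l * sf N (fun n => if Nat.lcm h l ∣ n then 1 else 0) n)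
      (∑ h ∈ F, ∑ l ∈ F, f h * f l * (Zs N / (Nat.lcm h l : ℝ))) :=
    hasSum_sum fun h hh => hasSum_sum fun l hll => (hasSum_dvd_one (hl h hh l hll)).mul_left _
  have e : Zs N * Qf F f (fun h l => 1 / (Nat.lcm h l : ℝ)) =
      ∑ h ∈ F, ∑ l ∈ F, f h * f l * (Zs N / (Nat.lcm h l : ℝ)) := by
    unfold Qf
    rw [mul_sum]
    refine sum_congr rfl fun h _ => ?_
    rw [mul_sum]
    refine sum_congr rfl fun l _ => ?_
    ring
  rw [e]
  refine h1.congr_fun fun n => ?_
  by_cases hn : n ∈ Nat.smoothNumbers N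
  · have hn0 := (sm_iff.mp hn).1
    rw [sf_apply_of hn, c_eq hf hn0, sq, sum_mul_sum, sum_div]
    refine sum_congr rfl fun h _ => ?_
    rw [sum_div]
    refine sum_congr rfl fun l _ => ?_
    rw [sf_apply_of hn]
    by_cases h1 : h ∣ n
    · by_cases h2 : l ∣ n
      · rw [if_pos h1, if_pos h2, if_pos (Nat.lcm_dvd h1 h2)]; ring
      · rw [if_pos h1, if_neg h2, if_neg fun h => h2 ((Nat.dvd_lcm_right _ _).trans h)]; ring
    · rw [if_neg h1, if_neg fun h => h1 ((Nat.dvd_lcm_left _ _).trans h)]; ring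
  · rw [sf_apply_not hn]
    symm
    refine sum_eq_zero fun h _ => sum_eq_zero fun l _ => ?_
    rw [sf_apply_not hn, mul_zero]

lemma hasSum_ck (hF : ∀ n ∈ F, n ∈ Nat.smoothNumbers N) (hf : ∀ n, n ∉ F → f n = 0) :
    HasSum (sf N fun n => (f * zt) n * (f * ArithmeticFunction.log) n)
      (Qf F f fun h l => (Real.log (Nat.lcm h l : ℝ) * Zs N + Lz N - Real.log l * Zs N) / (Nat.lcm h l : ℝ)) := by
  have hl : ∀ h ∈ F, ∀ l ∈ F, Nat.lcm h l ∈ Nat.smoothNumbers N := by
    intro h hh l hl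
    have h1 := hF h hh
    have h2 := hF l hl
    exact sm_dvd (Nat.lcm_dvd_mul h l) (sm_mul.mpr ⟨h1, h2⟩)
  have h1 : HasSum (fun n => ∑ h ∈ F, ∑ l ∈ F, f h * f l *
      (sf N (fun n => if Nat.lcm h l ∣ n then Real.log n else 0) n -
        Real.log l * sf N (fun n => if Nat.lcm h l ∣ n then 1 else 0) n))
      (∑ h ∈ F, ∑ l ∈ F, f h * f l * ((Real.log (Nat.lcm h l : ℝ) * Zs N + Lz N) / (Nat.lcm h l : ℝ) -
        Real.log l * (Zs N / (Nat.lcm h l : ℝ)))) :=
    hasSum_sum fun h hh => hasSum_sum fun l hll =>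
      ((hasSum_dvd_log (hl h hh l hll)).sub ((hasSum_dvd_one (hl h hh l hll)).mul_left _)).mul_left _
  have e : (Qf F f fun h l => (Real.log (Nat.lcm h l : ℝ) * Zs N + Lz N - Real.log l * Zs N) / (Nat.lcm h l : ℝ)) =
      ∑ h ∈ F, ∑ l ∈ F, f h * f l * ((Real.log (Nat.lcm h l : ℝ) * Zs N + Lz N) / (Nat.lcm h l : ℝ) -
        Real.log l * (Zs N / (Nat.lcm h l : ℝ))) := by
    unfold Qf
    refine sum_congr rfl fun h _ => ?_
    refine sum_congr rfl fun l _ => ?_
    ring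
  rw [e]
  refine h1.congr_fun fun n => ?_
  by_cases hn : n ∈ Nat.smoothNumbers N
  · have hn0 := (sm_iff.mp hn).1
    rw [sf_apply_of hn, c_eq hf hn0, k_eq (fun n hn => (sm_iff.mp (hF n hn)).1) hf hn0, sum_mul_sum, sum_div]
    refine sum_congr rfl fun h _ => ?_
    rw [sum_div]
    refine sum_congr rfl fun l _ => ?_
    rw [sf_apply_of hn, sf_apply_of hn]
    by_cases h1 : h ∣ n
    · by_cases h2 : l ∣ n
      · rw [if_pos h1, if_pos h2, if_pos (Nat.lcm_dvd h1 h2), if_pos (Nat.lcm_dvd h1 h2)]; ring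
      · rw [if_pos h1, if_neg h2, if_neg fun h => h2 ((Nat.dvd_lcm_right _ _).trans h),
          if_neg fun h => h2 ((Nat.dvd_lcm_right _ _).trans h)]; ring
    · rw [if_neg h1, if_neg fun h => h1 ((Nat.dvd_lcm_left _ _).trans h),
        if_neg fun h => h1 ((Nat.dvd_lcm_left _ _).trans h)]; ring
  · rw [sf_apply_not hn]
    symm
    refine sum_eq_zero fun h _ => sum_eq_zero fun l _ => ?_
    rw [sf_apply_not hn, sf_apply_not hn, mul_zero, sub_zero, mul_zero]

lemma kappa_eq : f * ArithmeticFunction.log = ArithmeticFunction.vonMangoldt * (f * zt) := by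
  rw [← ArithmeticFunction.vonMangoldt_mul_zeta]
  unfold zt
  rw [← mul_assoc, mul_comm f, mul_assoc]

/-- the arithmetic function `n ↦ c(n)^2` -/
noncomputable def sqA (c : ArithmeticFunction ℝ) : ArithmeticFunction ℝ := ⟨fun n => c n ^ 2, by simp⟩

lemma neg_ck_le {G : Set ℕ} (hG : ∀ d n : ℕ, d ∣ n → n ∈ G → d ∈ G) {c : ArithmeticFunction ℝ}
    (hc : ∀ n ∈ G, 0 ≤ c n) {n : ℕ} :
    -(c n * (ArithmeticFunction.vonMangoldt * c) n) ≤
      (1 / 2) * (Gᶜ).indicator (fun n => c n ^ 2 * Real.log n) n +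
      (1 / 2) * (ArithmeticFunction.vonMangoldt * sqA c) n := by
  have hL : ∀ n, 0 ≤ (ArithmeticFunction.vonMangoldt * sqA c) n := by
    intro n
    rw [ArithmeticFunction.mul_apply]
    exact sum_nonneg fun p _ => mul_nonneg ArithmeticFunction.vonMangoldt_nonneg (sq_nonneg _)
  by_cases hn : n ∈ G
  · have h1 : 0 ≤ c n * (ArithmeticFunction.vonMangoldt * c) n := by
      refine mul_nonneg (hc n hn) ?_
      rw [ArithmeticFunction.mul_apply]
      refine sum_nonneg fun p hp => mul_nonneg ArithmeticFunction.vonMangoldt_nonneg ?_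
      rw [Nat.mem_divisorsAntidiagonal] at hp
      exact hc _ (hG _ n ⟨p.1, by rw [← hp.1, mul_comm]⟩ hn)
    rw [Set.indicator_of_notMem (by simpa using hn)]
    have := hL n
    linarith
  · rw [Set.indicator_of_mem (by simpa using hn)]
    have e : c n ^ 2 * Real.log n = ∑ p ∈ n.divisorsAntidiagonal, ArithmeticFunction.vonMangoldt p.1 * c n ^ 2 := by
      rw [← sum_mul, Nat.sum_divisorsAntidiagonal (fun i _ => ArithmeticFunction.vonMangoldt i),
        ArithmeticFunction.vonMangoldt_sum, mul_comm]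
    rw [e, ArithmeticFunction.mul_apply, ArithmeticFunction.mul_apply, mul_sum, mul_sum, mul_sum,
      ← sum_add_distrib, ← sum_neg_distrib]
    refine sum_le_sum fun p _ => ?_
    have h1 : 0 ≤ ArithmeticFunction.vonMangoldt p.1 := ArithmeticFunction.vonMangoldt_nonneg
    have h2 : (sqA c) p.2 = c p.2 ^ 2 := rfl
    rw [h2]
    nlinarith [mul_nonneg h1 (sq_nonneg (c n + c p.2))]

/-- the main inequality for the quadratic form -/
theorem quad_le (hF : ∀ n ∈ F, n ∈ Nat.smoothNumbers N) (hf : ∀ n, n ∉ F → f n = 0) {G : Set ℕ}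
    (hG : ∀ d n : ℕ, d ∣ n → n ∈ G → d ∈ G) (hc : ∀ n ∈ G, 0 ≤ (f * zt) n)
    (hs : Sb N fun n => (f * zt) n ^ 2 * (1 + Real.log n)) (Lc : ℝ) :
    Lc * (Qf F f fun h l => 1 / (Nat.lcm h l : ℝ)) - (Qf F f fun h l => 1 / (Nat.lcm h l : ℝ) *
      (2 * Real.log (Nat.lcm h l : ℝ) - Real.log h - Real.log l)) ≤
    Real.exp (-R1 N) * ((|Lc| + 6 * RL N) * SS N (fun n => (f * zt) n ^ 2) +
      SS N (fun n => (Gᶜ).indicator (fun n => (f * zt) n ^ 2 * Real.log n) n)) := by
  have hZ := Zs_pos N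
  have hRL := RL_nonneg N
  have h1 := hasSum_sq hF hf
  have h2 := hasSum_ck hF hf
  have hsq : Sb N fun n => (f * zt) n ^ 2 := h1.summable
  set S := SS N (fun n => (f * zt) n ^ 2) with hS
  have hS0 : 0 ≤ S := SS_nonneg fun n _ => sq_nonneg _
  have e1 : S = Zs N * Qf F f fun h l => 1 / (Nat.lcm h l : ℝ) := hsq.hasSum.unique h1
  set B := SS N (fun n => (Gᶜ).indicator (fun n => (f * zt) n ^ 2 * Real.log n) n) with hB
  have hBsb : Sb N fun n => (Gᶜ).indicator (fun n => (f * zt) n ^ 2 * Real.log n) n := by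
    refine Sb_of_le hs fun n _ => ?_
    have hl := Real.log_natCast_nonneg n
    by_cases hn : n ∈ Gᶜ
    · rw [Set.indicator_of_mem hn, abs_of_nonneg (mul_nonneg (sq_nonneg _) hl)]
      exact mul_le_mul_of_nonneg_left (by linarith) (sq_nonneg _)
    · rw [Set.indicator_of_notMem hn, abs_zero]
      exact mul_nonneg (sq_nonneg _) (by linarith)
  have hB0 : 0 ≤ B := SS_nonneg fun n _ => Set.indicator_nonneg
    (fun n _ => mul_nonneg (sq_nonneg _) (Real.log_natCast_nonneg n)) n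
  -- the convolution
  have h3 := conv_SS (N := N) ArithmeticFunction.vonMangoldt (sqA (f * zt)) (Sb_vonMangoldt N) hsq
  have h4 : SS N (fun n => (sqA (f * zt)) n) = S := rfl
  rw [h4] at h3
  set K := SS N (fun n => (f * zt) n * (f * ArithmeticFunction.log) n) with hK
  have e2 : K = Qf F f fun h l => (Real.log (Nat.lcm h l : ℝ) * Zs N + Lz N - Real.log l * Zs N) /
    (Nat.lcm h l : ℝ) := h2.summable.hasSum.unique h2
  have h5 : -K ≤ (1 / 2) * B + (1 / 2) * (SS N (fun n => ArithmeticFunction.vonMangoldt n) * S) := by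
    have a1 : HasSum (fun n => -(sf N (fun n => (f * zt) n * (f * ArithmeticFunction.log) n) n)) (-K) :=
      (show Sb N (fun n => (f * zt) n * (f * ArithmeticFunction.log) n) from h2.summable).hasSum.neg
    have a2 := (hBsb.hasSum.mul_left (1 / 2)).add (h3.mul_left (1 / 2))
    refine hasSum_le (fun n => ?_) a1 a2
    by_cases hn : n ∈ Nat.smoothNumbers N
    · have hn0 : (0:ℝ) < n := by exact_mod_cast Nat.pos_of_ne_zero (sm_iff.mp hn).1
      rw [sf_apply_of hn, sf_apply_of hn, sf_apply_of hn]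
      have := neg_ck_le hG hc (n := n)
      rw [kappa_eq]
      rw [← mul_div_assoc, ← mul_div_assoc, ← add_div, ← neg_div]
      exact div_le_div_of_nonneg_right this hn0.le
    · rw [sf_apply_not hn, sf_apply_not hn, sf_apply_not hn]; norm_num
  -- symmetry
  have e3 : Zs N * (Qf F f fun h l => 1 / (Nat.lcm h l : ℝ) *
      (2 * Real.log (Nat.lcm h l : ℝ) - Real.log h - Real.log l)) =
      2 * K - 2 * Lz N * Qf F f fun h l => 1 / (Nat.lcm h l : ℝ) := by
    have e4 : Qf F f (fun h l => Real.log h / (Nat.lcm h l : ℝ)) = Qf F f (fun h l => Real.log l / (Nat.lcm h l : ℝ)) := by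
      unfold Qf
      rw [sum_comm]
      refine sum_congr rfl fun h _ => sum_congr rfl fun l _ => ?_
      beta_reduce
      rw [Nat.lcm_comm, mul_comm (f l)]
    have e5 : Zs N * (Qf F f fun h l => 1 / (Nat.lcm h l : ℝ) *
      (2 * Real.log (Nat.lcm h l : ℝ) - Real.log h - Real.log l)) =
      Zs N * (Qf F f fun h l => 1 / (Nat.lcm h l : ℝ) *
      (2 * Real.log (Nat.lcm h l : ℝ) - 2 * Real.log l)) + Zs N * (Qf F f (fun h l => Real.log l / (Nat.lcm h l : ℝ)) -
        Qf F f (fun h l => Real.log h / (Nat.lcm h l : ℝ))) := by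
      unfold Qf
      rw [mul_sum, mul_sum, ← sum_sub_distrib, mul_sum, ← sum_add_distrib]
      refine sum_congr rfl fun h _ => ?_
      rw [mul_sum, mul_sum, ← sum_sub_distrib, mul_sum, ← sum_add_distrib]
      refine sum_congr rfl fun l _ => ?_
      ring
    rw [e5, e4, sub_self, mul_zero, add_zero, e2]
    unfold Qf
    rw [mul_sum, mul_sum, mul_sum, ← sum_sub_distrib]
    refine sum_congr rfl fun h _ => ?_
    rw [mul_sum, mul_sum, mul_sum, ← sum_sub_distrib]
    refine sum_congr rfl fun l _ => ?_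
    ring
  set Q := Qf F f fun h l => 1 / (Nat.lcm h l : ℝ) with hQ
  set Lam := Qf F f fun h l => 1 / (Nat.lcm h l : ℝ) *
      (2 * Real.log (Nat.lcm h l : ℝ) - Real.log h - Real.log l) with hLam
  have h6 := vM_mul N
  have h7 := Lz_le N
  set D := SS N (fun n => ArithmeticFunction.vonMangoldt n) with hD
  have hD0 : D ≤ 2 * RL N := by
    rw [← h6] at h7
    exact le_of_mul_le_mul_right h7 hZ
  have hQ0 : 0 ≤ Q := by
    rw [e1] at hS0
    exact (mul_nonneg_iff_of_pos_left hZ).mp hS0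
  have hLc : Lc ≤ |Lc| := le_abs_self Lc
  have key : Zs N * (Lc * Q - Lam) ≤ (|Lc| + 6 * RL N) * S + B := by
    have : Zs N * (Lc * Q - Lam) = Lc * S - 2 * K + 2 * D * S := by
      rw [mul_sub, e3, e1, ← h6]; ring
    rw [this]
    have a3 : Lc * S ≤ |Lc| * S := mul_le_mul_of_nonneg_right hLc hS0
    have a4 : D * S ≤ 2 * RL N * S := mul_le_mul_of_nonneg_right hD0 hS0
    nlinarith
  have hE := Zs_ge N
  have hEp := Real.exp_pos (R1 N)
  have hR0 : 0 ≤ (|Lc| + 6 * RL N) * S + B := by positivity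
  have k1 : Lc * Q - Lam ≤ ((|Lc| + 6 * RL N) * S + B) / Zs N := by
    rw [le_div_iff₀ hZ]; linarith
  refine k1.trans ?_
  rw [Real.exp_neg, inv_mul_eq_div]
  exact div_le_div_of_nonneg_left hR0 hEp hE

end

end Pool.Agent.Q276.CD
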