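import Pool.Agent.Q276.CD.Tw2
import Pool.Agent.Q276.CD.Stm2
import Pool.Agent.W184.NZ.Up2

set_option autoImplicit false

/-! The twisted second moment. -/

namespace Pool.Agent.Q276.CD

open Finset Filter MeasureTheory
open Pool.Agent.W184.NZ (Zm Mn wz mh w1 mono_moment TC TC_ev wz_int mh_norm_le mh_cont)
open Pool.Agent.H262R4.TM (Rng Ck)
open Pool.Agent.H306R2.SM (Yf)

lemma cl_eq (t : ℝ) : Pool.Agent.H306R2.SM.cl t = cl t := rfl

/-- the square of the modulus -/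
lemma Dr_sq (f : ArithmeticFunction ℝ) (Y : ℕ) (t : ℝ) :
    ‖Dr f Y (cl t)‖ ^ 2 = ∑ h ∈ Icc 1 Y, ∑ l ∈ Icc 1 Y, f h * f l * (mh t (h, l)).re := by
  have h1 : ((‖Dr f Y (cl t)‖ ^ 2 : ℝ) : ℂ) = Dr f Y (cl t) * (starRingEnd ℂ) (Dr f Y (cl t)) := by
    rw [Complex.mul_conj, Complex.normSq_eq_norm_sq]
  have h2 : Dr f Y (cl t) * (starRingEnd ℂ) (Dr f Y (cl t)) =
      ∑ h ∈ Icc 1 Y, ∑ l ∈ Icc 1 Y, ((f h * f l : ℝ) : ℂ) * mh t (h, l) := by
    unfold Dr Dp
    rw [map_sum, sum_mul_sum]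
    refine sum_congr rfl fun h _ => sum_congr rfl fun l hl => ?_
    rw [mem_Icc] at hl
    rw [Pool.Agent.W184.NZ.mh_eq t h (by omega : l ≠ 0), cl_eq, map_mul, Complex.conj_ofReal]
    push_cast
    ring
  have h3 := congrArg Complex.re (h1.trans h2)
  rw [Complex.ofReal_re, Complex.re_sum] at h3
  rw [h3]
  refine sum_congr rfl fun h _ => ?_
  rw [Complex.re_sum]
  refine sum_congr rfl fun l _ => ?_
  rw [Complex.re_ofReal_mul]

lemma Dr_cont (f : ArithmeticFunction ℝ) (Y : ℕ) : Continuous fun t : ℝ => Dr f Y (cl t) := by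
  unfold Dr Dp cl
  refine continuous_finsetSum _ fun n hn => continuous_const.mul ?_
  rw [mem_Icc] at hn
  have h0 : (n:ℂ) ≠ 0 := by exact_mod_cast (by omega : n ≠ 0)
  exact Continuous.const_cpow (by fun_prop) (Or.inl h0)

lemma Dr_le (f : ArithmeticFunction ℝ) (Y : ℕ) (t : ℝ) : ‖Dr f Y (cl t)‖ ≤ ∑ n ∈ Icc 1 Y, |f n| := by
  unfold Dr Dp
  refine (norm_sum_le _ _).trans (sum_le_sum fun n hn => ?_)
  rw [mem_Icc] at hn
  rw [norm_mul, Complex.norm_real, Real.norm_eq_abs, Complex.norm_natCast_cpow_of_pos (by omega)]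
  have e : (-(cl t)).re = -(1 / 2 : ℝ) := by unfold cl; simp
  rw [e]
  have h1 : (n:ℝ) ^ (-(1 / 2 : ℝ)) ≤ 1 := Real.rpow_le_one_of_one_le_of_nonpos
    (by exact_mod_cast hn.1) (by norm_num)
  exact mul_le_of_le_one_right (abs_nonneg _) h1

lemma Mn_form {k : ℕ} {x : ℝ} {h l : ℕ} (hh : h ≠ 0) (hl : l ≠ 0) :
    Mn k x (h, l) = (Real.log (Yf k x) + Ck k) * (1 / (Nat.lcm h l : ℝ)) -
      1 / (Nat.lcm h l : ℝ) * (2 * Real.log (Nat.lcm h l : ℝ) - Real.log h - Real.log l) := by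
  have g0 : (0:ℝ) < Nat.gcd h l := by exact_mod_cast Nat.gcd_pos_of_pos_left _ (Nat.pos_of_ne_zero hh)
  have h0 : (0:ℝ) < h := by exact_mod_cast Nat.pos_of_ne_zero hh
  have l0 : (0:ℝ) < l := by exact_mod_cast Nat.pos_of_ne_zero hl
  have e1 : (Nat.lcm h l : ℝ) = (h : ℝ) * l / Nat.gcd h l := by
    have := Nat.gcd_mul_lcm h l
    have h2 : (Nat.gcd h l : ℝ) * Nat.lcm h l = (h:ℝ) * l := by exact_mod_cast this
    rw [← h2]; field_simp
  unfold Mn Pool.Agent.W184.NZ.wl w1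
  simp only
  rw [e1, Real.log_div (by positivity) (by positivity), Real.log_div (by positivity) (by positivity),
    Real.log_mul h0.ne' l0.ne', Real.log_pow]
  push_cast
  field_simp
  ring

/-- the smooth moment -/
lemma smooth_moment {f : ArithmeticFunction ℝ} {N Y : ℕ} {G : Set ℕ}
    (hf : ∀ n, f n ≠ 0 → n ≤ Y ∧ n ∈ Nat.smoothNumbers N) (hG : ∀ d n : ℕ, d ∣ n → n ∈ G → d ∈ G)
    (hc : ∀ n ∈ G, 0 ≤ (f * zt) n) (hs : Sb N fun n => (f * zt) n ^ 2 * (1 + Real.log n))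
    {k : ℕ} {x e : ℝ} (hx : 0 < x) (hk : 1 ≤ k) (he : 0 ≤ e)
    (hm : ∀ z : ℕ × ℕ, z.1 ≠ 0 → z.2 ≠ 0 → z.1 ≤ Y → z.2 ≤ Y → |Zm k x z - Mn k x z| ≤ e) :
    ∫ t in Set.Ioi (0:ℝ), wz k x t * ‖Dr f Y (cl t)‖ ^ 2 ≤
      Real.exp (-R1 N) * ((|Real.log (Yf k x) + Ck k| + 6 * RL N) * SS N (fun n => (f * zt) n ^ 2) +
      SS N (fun n => (Gᶜ).indicator (fun n => (f * zt) n ^ 2 * Real.log n) n)) +
      e * (∑ n ∈ Icc 1 Y, |f n|) ^ 2 := by
  have hk0 : (0:ℝ) < (k:ℝ) / x := by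
    have : (0:ℝ) < k := by exact_mod_cast hk
    positivity
  have hint : ∀ h ∈ Icc 1 Y, ∀ l ∈ Icc 1 Y, IntegrableOn (fun t => wz k x t * (f h * f l * (mh t (h, l)).re)) (Set.Ioi 0) := by
    intro h hh l hl
    rw [mem_Icc] at hh hl
    refine wz_int k hk0 (C := |f h * f l| * 1) ?_ fun t => ?_
    · exact continuous_const.mul (Complex.continuous_re.comp (mh_cont (x := (h, l)) (by simp only; omega) (by simp only; omega)))
    · rw [abs_mul]
      refine mul_le_mul_of_nonneg_left ?_ (abs_nonneg _)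
      exact (Complex.abs_re_le_norm _).trans (mh_norm_le (by simp only; omega) (by simp only; omega))
  have e1 : ∫ t in Set.Ioi (0:ℝ), wz k x t * ‖Dr f Y (cl t)‖ ^ 2 =
      ∑ h ∈ Icc 1 Y, ∑ l ∈ Icc 1 Y, f h * f l * Zm k x (h, l) := by
    simp_rw [Dr_sq, mul_sum]
    rw [integral_finsetSum _ fun h hh => integrable_finsetSum _ fun l hl => hint h hh l hl]
    refine sum_congr rfl fun h hh => ?_
    rw [integral_finsetSum _ fun l hl => hint h hh l hl]
    refine sum_congr rfl fun l hl => ?_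
    unfold Zm
    rw [← integral_const_mul]
    refine integral_congr_ae (Eventually.of_forall fun t => ?_)
    simp only
    ring
  have e2 : |(∑ h ∈ Icc 1 Y, ∑ l ∈ Icc 1 Y, f h * f l * Zm k x (h, l)) -
      ∑ h ∈ Icc 1 Y, ∑ l ∈ Icc 1 Y, f h * f l * Mn k x (h, l)| ≤ e * (∑ n ∈ Icc 1 Y, |f n|) ^ 2 := by
    rw [← sum_sub_distrib]
    simp_rw [← sum_sub_distrib, ← mul_sub]
    refine (abs_sum_le_sum_abs _ _).trans ?_
    rw [sq, sum_mul_sum, mul_sum]
    refine sum_le_sum fun h hh => ?_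
    refine (abs_sum_le_sum_abs _ _).trans ?_
    rw [mul_sum]
    refine sum_le_sum fun l hl => ?_
    rw [mem_Icc] at hh hl
    rw [abs_mul, abs_mul, mul_comm]
    exact mul_le_mul_of_nonneg_right (hm (h, l) (by simp only; omega) (by simp only; omega) hh.2 hl.2) (by positivity)
  have e3 : ∑ h ∈ Icc 1 Y, ∑ l ∈ Icc 1 Y, f h * f l * Mn k x (h, l) =
      (Real.log (Yf k x) + Ck k) * (Qf ((Icc 1 Y).filter (fun n => n ∈ Nat.smoothNumbers N)) f fun h l => 1 / (Nat.lcm h l : ℝ)) -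
      (Qf ((Icc 1 Y).filter (fun n => n ∈ Nat.smoothNumbers N)) f fun h l => 1 / (Nat.lcm h l : ℝ) *
      (2 * Real.log (Nat.lcm h l : ℝ) - Real.log h - Real.log l)) := by
    have hz : ∀ n ∈ Icc 1 Y, n ∉ (Icc 1 Y).filter (fun n => n ∈ Nat.smoothNumbers N) → f n = 0 := by
      intro n hn hn2
      by_contra hc2
      exact hn2 (mem_filter.mpr ⟨hn, (hf n hc2).2⟩)
    have a1 : ∑ h ∈ Icc 1 Y, ∑ l ∈ Icc 1 Y, f h * f l * Mn k x (h, l) =
        ∑ h ∈ (Icc 1 Y).filter (fun n => n ∈ Nat.smoothNumbers N),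
        ∑ l ∈ (Icc 1 Y).filter (fun n => n ∈ Nat.smoothNumbers N), f h * f l * Mn k x (h, l) := by
      symm
      rw [sum_subset (filter_subset _ _) fun h hh hh2 => sum_eq_zero fun l _ => by rw [hz h hh hh2]; ring]
      refine sum_congr rfl fun h _ => ?_
      exact sum_subset (filter_subset _ _) fun l hl hl2 => by rw [hz l hl hl2]; ring
    rw [a1]
    unfold Qf
    rw [mul_sum, ← sum_sub_distrib]
    refine sum_congr rfl fun h hh => ?_
    rw [mul_sum, ← sum_sub_distrib]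
    refine sum_congr rfl fun l hl => ?_
    rw [mem_filter, mem_Icc] at hh hl
    rw [Mn_form (by omega) (by omega)]
    ring
  have e4 := quad_le (N := N) (F := (Icc 1 Y).filter (fun n => n ∈ Nat.smoothNumbers N)) (f := f)
    (fun n hn => (mem_filter.mp hn).2) (fun n hn => by
      by_contra hc2
      obtain ⟨h1, h2⟩ := hf n hc2
      exact hn (mem_filter.mpr ⟨mem_Icc.mpr ⟨Nat.pos_of_ne_zero (sm_iff.mp h2).1, h1⟩, h2⟩)) hG hc hs
      (Real.log (Yf k x) + Ck k)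
  have e5 := (abs_le.mp e2).2
  rw [e1]
  rw [e3] at e5
  linarith

/-- the twisted second moment -/
theorem t_TW : P_TW := by
  obtain ⟨ηm, hηm, hmono⟩ := mono_moment
  obtain ⟨C1, hC1, hRL⟩ := RL_bd
  refine ⟨ηm / 2, by positivity, 128 * 60, by norm_num, ?_⟩
  have hlog := Real.tendsto_log_atTop
  -- the moments of the monomials
  have ev1 : ∀ᶠ T : ℝ in atTop, ∀ x : ℝ, T / 8 < x → ∀ k : ℕ, Rng x k → ∀ z : ℕ × ℕ,
      z.1 ≠ 0 → z.2 ≠ 0 → (z.1 : ℝ) ≤ x ^ ((1:ℝ) / 4) → (z.2 : ℝ) ≤ x ^ ((1:ℝ) / 4) →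
      |Zm k x z - Mn k x z| ≤ 2 * x ^ (-ηm) := by
    rw [eventually_atTop] at hmono
    obtain ⟨Y0, hY0⟩ := hmono
    have : Tendsto (fun T : ℝ => T / 8) atTop atTop := tendsto_id.atTop_div_const (by norm_num)
    filter_upwards [this.eventually_ge_atTop Y0] with T hT x hx
    exact hY0 x (hT.trans hx.le)
  have ev2 : ∀ᶠ T : ℝ in atTop, ∃ k : ℕ, TC 0 0 0 (8 * T) k := by
    have h8 : Tendsto (fun T : ℝ => 8 * T) atTop atTop := Tendsto.const_mul_atTop (by norm_num) tendsto_id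
    exact h8.eventually (TC_ev 0 0 0)
  have ev3 : ∀ᶠ T : ℝ in atTop, 256 * (T / 8) ^ (-ηm) ≤ T ^ (-(ηm / 2)) / 8 := by
    have h1 := tendsto_rpow_neg_atTop (y := ηm / 2) (by positivity)
    filter_upwards [h1.eventually (gt_mem_nhds (show (0:ℝ) < 1 / (8 * 256 * 8 ^ ηm) by positivity)),
      eventually_gt_atTop 0] with T h2 h3
    rw [Real.div_rpow h3.le (by norm_num)]
    have h4 : (8:ℝ) ^ (-ηm) = (8 ^ ηm)⁻¹ := Real.rpow_neg (by norm_num) _
    rw [h4, div_inv_eq_mul]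
    have h5 : T ^ (-ηm) = T ^ (-(ηm / 2)) * T ^ (-(ηm / 2)) := by
      rw [← Real.rpow_add h3]; congr 1; ring
    rw [h5]
    have h6 : 0 < T ^ (-(ηm / 2)) := Real.rpow_pos_of_pos h3 _
    have h7 : (0:ℝ) < 8 ^ ηm := by positivity
    rw [lt_div_iff₀ (by positivity)] at h2
    nlinarith
  filter_upwards [ev1, ev2, ev3, hlog.eventually_ge_atTop (10 + C1), eventually_ge_atTop (8 ^ 8)] with T hT1 hT2 hT3 hT4 hT5
  intro f N Y G hN hY hf hG hc hs
  obtain ⟨k, hk⟩ := hT2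
  have hT0 : 0 < T := by linarith
  have hTone : (1:ℝ) ≤ T := by linarith [show (1:ℝ) ≤ 8 ^ 8 by norm_num]
  set L := Real.log T with hL
  have hS0 : 0 ≤ SS N (fun n => (f * zt) n ^ 2) := SS_nonneg fun n _ => sq_nonneg _
  have hB0 : 0 ≤ SS N (fun n => (Gᶜ).indicator (fun n => (f * zt) n ^ 2 * Real.log n) n) :=
    SS_nonneg fun n _ => Set.indicator_nonneg (fun n _ => mul_nonneg (sq_nonneg _) (Real.log_natCast_nonneg n)) n
  have hRL' : RL N ≤ 2 * L := by
    rcases Nat.eq_zero_or_pos N with h0 | h0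
    · subst h0
      have : RL 0 = 0 := by unfold RL; simp
      rw [this]
      linarith
    · have h1 : RL N ≤ RL (N + 1) := by
        unfold RL
        refine sum_le_sum_of_subset_of_nonneg (fun p hp => ?_) fun p hp _ => ?_
        · rw [Nat.mem_primesBelow] at hp ⊢
          exact ⟨by omega, hp.2⟩
        · exact div_nonneg (Real.log_natCast_nonneg p) (Nat.cast_nonneg p)
      have h2 := hRL N h0
      have h3 : Real.log N ≤ L := Real.log_le_log (by exact_mod_cast h0) hN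
      linarith
  have hRL0 := RL_nonneg N
  have hl8 : Real.log (8 * T) ≤ 2 * L := by
    rw [Real.log_mul (by norm_num) hT0.ne']
    have : Real.log 8 ≤ 3 := by
      rw [show (8:ℝ) = 2 ^ 3 by norm_num, Real.log_pow]
      have := Real.log_two_lt_d9
      push_cast
      linarith
    linarith
  set E : ℝ := 2 * (T / 8) ^ (-ηm) with hE
  have hE0 : 0 ≤ E := by positivity
  set A : ℝ := ∑ n ∈ Icc 1 Y, |f n| with hA
  set S0 : ℝ := Real.exp (-R1 N) * ((16 * L + 12 * L) * SS N (fun n => (f * zt) n ^ 2) +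
      SS N (fun n => (Gᶜ).indicator (fun n => (f * zt) n ^ 2 * Real.log n) n)) + E * A ^ 2 with hS0d
  have hL0 : 0 ≤ L := by linarith
  have hS00 : 0 ≤ S0 := by positivity
  have hsub : ∀ x ∈ Set.Ioc (T / 4 / 2) (8 * (8 * T)), x ∈ Set.Ioc ((8 * T) ^ ((3:ℝ)/4) / 2) (8 * (8 * T)) := by
    intro x hx
    refine ⟨lt_of_le_of_lt ?_ hx.1, hx.2⟩
    have h1 : (8 * T) ^ ((3:ℝ)/4) = 8 ^ ((3:ℝ)/4) * T ^ ((3:ℝ)/4) := Real.mul_rpow (by norm_num) hT0.le
    have h2 : (8:ℝ) ^ ((3:ℝ)/4) ≤ 8 := by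
      nth_rewrite 2 [← Real.rpow_one 8]
      exact Real.rpow_le_rpow_of_exponent_le (by norm_num) (by norm_num)
    have h3 : (32:ℝ) ≤ T ^ ((1:ℝ)/4) := by
      calc (32:ℝ) ≤ (8 ^ 8 : ℝ) ^ ((1:ℝ)/4) := by
            rw [show ((8:ℝ) ^ 8) = (64:ℝ) ^ (4:ℕ) by norm_num, ← Real.rpow_natCast, ← Real.rpow_mul (by norm_num)]
            norm_num
        _ ≤ _ := Real.rpow_le_rpow (by norm_num) hT5 (by norm_num)
    have h4 : T = T ^ ((3:ℝ)/4) * T ^ ((1:ℝ)/4) := by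
      rw [← Real.rpow_add hT0]; norm_num
    have h5 : 0 < T ^ ((3:ℝ)/4) := Real.rpow_pos_of_pos hT0 _
    rw [h1]
    nlinarith [mul_le_mul_of_nonneg_left h3 h5.le, mul_le_mul_of_nonneg_right h2 h5.le]
  have hwin := Pool.Agent.W184.NZ.win (g := fun t => ‖Dr f Y (cl t)‖ ^ 2) (C := A ^ 2) (k := k) (A := T / 4)
    (T := 8 * T) (S := S0) ((Dr_cont f Y).norm.pow 2) (fun t => by positivity) (fun t => by
      rw [abs_of_nonneg (by positivity)]
      exact pow_le_pow_left₀ (norm_nonneg _) (Dr_le f Y t) 2) hk.k8 (by positivity) (by linarith) hS00 ?_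
  · refine le_trans hwin ?_
    have h1 : Real.exp (-R1 N) * ((16 * L + 12 * L) * SS N (fun n => (f * zt) n ^ 2) +
      SS N (fun n => (Gᶜ).indicator (fun n => (f * zt) n ^ 2 * Real.log n) n)) ≤
      28 * (Real.exp (-R1 N) * (L * SS N (fun n => (f * zt) n ^ 2) +
      SS N (fun n => (Gᶜ).indicator (fun n => (f * zt) n ^ 2 * Real.log n) n))) := by
      have := (Real.exp_pos (-R1 N)).le
      have := mul_nonneg this hB0
      nlinarith
    have h2 : 16 * (8 * T) * (E * A ^ 2) ≤ T ^ (1 - ηm / 2) * A ^ 2 := by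
      have h3 : T ^ (1 - ηm / 2) = T * T ^ (-(ηm / 2)) := by
        nth_rewrite 2 [← Real.rpow_one T]
        rw [← Real.rpow_add hT0]; congr 1
      rw [h3, hE]
      have h4 : 0 ≤ T ^ (-(ηm / 2)) := by positivity
      have h5 : 16 * (8 * T) * (2 * (T / 8) ^ (-ηm)) ≤ T * T ^ (-(ηm / 2)) := by
        have : 16 * (8 * T) * (2 * (T / 8) ^ (-ηm)) = T * (256 * (T / 8) ^ (-ηm)) := by ring
        rw [this]
        exact mul_le_mul_of_nonneg_left (hT3.trans (by linarith)) hT0.le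
      calc 16 * (8 * T) * (2 * (T / 8) ^ (-ηm) * A ^ 2) = 16 * (8 * T) * (2 * (T / 8) ^ (-ηm)) * A ^ 2 := by ring
        _ ≤ _ := mul_le_mul_of_nonneg_right h5 (sq_nonneg _)
    have h3 : 0 ≤ Real.exp (-R1 N) * (L * SS N (fun n => (f * zt) n ^ 2) +
      SS N (fun n => (Gᶜ).indicator (fun n => (f * zt) n ^ 2 * Real.log n) n)) := by positivity
    calc 16 * (8 * T) * S0 = 16 * (8 * T) * (Real.exp (-R1 N) * ((16 * L + 12 * L) * SS N (fun n => (f * zt) n ^ 2) +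
      SS N (fun n => (Gᶜ).indicator (fun n => (f * zt) n ^ 2 * Real.log n) n))) + 16 * (8 * T) * (E * A ^ 2) := by
          rw [hS0d]; ring
      _ ≤ 16 * (8 * T) * (28 * (Real.exp (-R1 N) * (L * SS N (fun n => (f * zt) n ^ 2) +
      SS N (fun n => (Gᶜ).indicator (fun n => (f * zt) n ^ 2 * Real.log n) n)))) + T ^ (1 - ηm / 2) * A ^ 2 :=
          add_le_add (mul_le_mul_of_nonneg_left h1 (by positivity)) h2
      _ ≤ 128 * 60 * T * (Real.exp (-R1 N) * (L * SS N (fun n => (f * zt) n ^ 2) +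
      SS N (fun n => (Gᶜ).indicator (fun n => (f * zt) n ^ 2 * Real.log n) n))) + T ^ (1 - ηm / 2) * A ^ 2 := by
          have := mul_nonneg hT0.le h3
          linarith
      _ = _ := by unfold zt; ring
  · intro x hx
    have hx2 := hsub x hx
    have hx0 : 0 < x := lt_of_le_of_lt (by positivity) hx.1
    have hx8 : T / 8 < x := by have := hx.1; linarith
    have hr := hk.rng x hx2
    have hy := hk.yf x hx2
    have hYx : (Y:ℝ) ≤ x ^ ((1:ℝ)/4) := by
      refine hY.trans ?_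
      have h1 : T ^ ((1:ℝ)/20) ≤ (T / 8) ^ ((1:ℝ)/4) := by
        have h2 : T ^ ((1:ℝ)/5) ≤ T / 8 := by
          have h3 : (8:ℝ) ≤ T ^ ((4:ℝ)/5) := by
            calc (8:ℝ) ≤ (8 ^ 8 : ℝ) ^ ((4:ℝ)/5) := by
                  rw [← Real.rpow_natCast, ← Real.rpow_mul (by norm_num)]
                  nth_rewrite 1 [← Real.rpow_one 8]
                  exact Real.rpow_le_rpow_of_exponent_le (by norm_num) (by norm_num)
              _ ≤ _ := Real.rpow_le_rpow (by norm_num) hT5 (by norm_num)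
          have h4 : T = T ^ ((1:ℝ)/5) * T ^ ((4:ℝ)/5) := by
            rw [← Real.rpow_add hT0]; norm_num
          have h5 : 0 < T ^ ((1:ℝ)/5) := Real.rpow_pos_of_pos hT0 _
          rw [le_div_iff₀ (by norm_num)]
          calc T ^ ((1:ℝ)/5) * 8 ≤ T ^ ((1:ℝ)/5) * T ^ ((4:ℝ)/5) := mul_le_mul_of_nonneg_left h3 h5.le
            _ = T := h4.symm
        calc T ^ ((1:ℝ)/20) = (T ^ ((1:ℝ)/5)) ^ ((1:ℝ)/4) := by
              rw [← Real.rpow_mul hT0.le]; norm_num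
          _ ≤ _ := Real.rpow_le_rpow (by positivity) h2 (by norm_num)
      exact h1.trans (Real.rpow_le_rpow (by positivity) hx8.le (by norm_num))
    have hsm := smooth_moment hf hG hc hs hx0 (by have := hk.k8; omega) hE0 (k := k) (fun z h1 h2 h3 h4 => by
      refine (hT1 x hx8 k hr z h1 h2 ((Nat.cast_le.mpr h3).trans hYx) ((Nat.cast_le.mpr h4).trans hYx)).trans ?_
      rw [hE]
      refine mul_le_mul_of_nonneg_left ?_ (by norm_num)
      exact Real.rpow_le_rpow_of_nonpos (by positivity) hx8.le (by linarith))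
    refine hsm.trans ?_
    rw [hS0d]
    refine add_le_add_left ?_ _
    refine mul_le_mul_of_nonneg_left ?_ (Real.exp_pos _).le
    refine add_le_add_left ?_ _
    refine mul_le_mul_of_nonneg_right ?_ hS0
    linarith

end Pool.Agent.Q276.CD
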